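import Mathlib

/-!
MP_90e0ad_ag, definitions for the statement. Forms over Z, their zero loci in complex projective space,
holomorphic maps from C to projective space, hyperbolicity (Brody).
-/

namespace Pool.Agent.Work.MP_90e0ad_ag

open Filter Topology

/-- A form, as a list of monomials (coefficient, exponents of x_0, ..., x_n). -/
abbrev Form := List (ℤ × List ℕ)

/-- All monomials have n+1 exponents, of the same total degree. -/
def IsForm (n : ℕ) (P : Form) : Prop := ∃ d : ℕ, ∀ ce ∈ P, ce.2.length = n + 1 ∧ ce.2.sum = d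

/-- Value of a form at a complex vector. -/
noncomputable def evalC (n : ℕ) (P : Form) (v : Fin (n + 1) → ℂ) : ℂ :=
  (P.map fun ce => (ce.1 : ℂ) * ∏ i : Fin (n + 1), v i ^ ce.2.getD (i : ℕ) 0).sum

/-- Complex projective space of dimension n. -/
abbrev PP (n : ℕ) := Projectivization ℂ (Fin (n + 1) → ℂ)

/-- The form P vanishes at the point x. -/
def VanishAt (n : ℕ) (P : Form) (x : PP n) : Prop := evalC n P x.rep = 0

/-- Holomorphic maps from C to projective space: locally given by a nowhere vanishing
holomorphic vector. -/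
def IsHolo (n : ℕ) (f : ℂ → PP n) : Prop :=
  ∀ z : ℂ, ∃ F : ℂ → Fin (n + 1) → ℂ, ∃ U ∈ 𝓝 z, DifferentiableOn ℂ F U ∧
    ∀ w ∈ U, ∃ h : F w ≠ 0, f w = Projectivization.mk ℂ (F w) h

/-- A set of points of projective space is hyperbolic if every holomorphic map from C with
image in it is constant. -/
def Hyperbolic (n : ℕ) (X : Set (PP n)) : Prop :=
  ∀ f : ℂ → PP n, IsHolo n f → (∀ z, f z ∈ X) → ∀ z w, f z = f w

/-- The stratum of the zero locus of L where exactly the forms of Gs in T vanish. -/
def stratum (n : ℕ) (L Gs : List Form) (T : Set Form) : Set (PP n) :=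
  {x | (∀ P ∈ L, VanishAt n P x) ∧ ∀ G ∈ Gs, (VanishAt n G x ↔ G ∈ T)}

/-- Input data: n, the equations, the boundary forms. -/
abbrev Input := ℕ × List Form × List Form

/-- The input is valid and all strata are hyperbolic. -/
def AllHyp (I : Input) : Prop :=
  (∀ P ∈ I.2.1 ++ I.2.2, IsForm I.1 P) ∧ ∀ T : Set Form, Hyperbolic I.1 (stratum I.1 I.2.1 I.2.2 T)

end Pool.Agent.Work.MP_90e0ad_ag
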