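import Mathlib
import Pool.Agent.Work.MP_90e0ad_ag.Stmt

/-!
MP_90e0ad_ag: approximate entire curves and bad curves.
-/

namespace Pool.Agent.Work.MP_90e0ad_ag

open Filter Topology

/-! ### approximate objects -/

/-- The dyadic point (s + u i) / 2^N. -/
noncomputable def dy (N : ℕ) (s u : ℤ) : ℂ := ((s : ℂ) + (u : ℂ) * Complex.I) / 2 ^ N

/-- Taylor polynomial with vector coefficients c a b k (centre a + b i). -/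
noncomputable def pol {n : ℕ} (N : ℕ) (c : ℤ → ℤ → ℕ → Fin (n + 1) → ℂ) (a b : ℤ) (t : ℂ) :
    Fin (n + 1) → ℂ := fun j => ∑ k ∈ Finset.range (N + 1), c a b k j * t ^ k

/-- Weight of a form: sum of |coefficient| 4^degree. -/
def wt (P : Form) : ℕ := (P.map fun ce => ce.1.natAbs * 4 ^ ce.2.sum).sum

/-- Approximate entire curve at level N. -/
structure Approx (n : ℕ) (L Gs : List Form) (N : ℕ) (c : ℤ → ℤ → ℕ → Fin (n + 1) → ℂ) :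
    Prop where
  size : ∀ a b : ℤ, |a| ≤ N → |b| ≤ N → ∀ k ≤ N, ∀ j, ‖c a b k j‖ ≤ 3 / 2 ^ k
  nz : ∀ a b : ℤ, |a| ≤ N → |b| ≤ N → ∀ s u : ℤ, ‖dy N s u‖ ≤ 1 →
    (1 : ℝ) / 2 ≤ ∑ j, ‖pol N c a b (dy N s u) j‖ ^ 2
  eqs : ∀ a b : ℤ, |a| ≤ N → |b| ≤ N → ∀ s u : ℤ, ‖dy N s u‖ ≤ 1 →
    ∀ P ∈ L, ‖evalC n P (pol N c a b (dy N s u))‖ ≤ 3 * (wt P : ℝ) / 2 ^ N
  compat : ∀ a b a' b' : ℤ, |a| ≤ N → |b| ≤ N → |a'| ≤ N → |b'| ≤ N → ∀ s u s' u' : ℤ,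
    a * 2 ^ N + s = a' * 2 ^ N + s' → b * 2 ^ N + u = b' * 2 ^ N + u' →
    ‖dy N s u‖ ≤ 1 → ‖dy N s' u'‖ ≤ 1 → ∀ i j,
    ‖pol N c a b (dy N s u) i * pol N c a' b' (dy N s' u') j
      - pol N c a b (dy N s u) j * pol N c a' b' (dy N s' u') i‖ ≤ 24 / 2 ^ N
  nonconst : 1 ≤ 2000 * ((n : ℝ) + 1) ^ 2 *
    ∑ i, ∑ j, ‖c 0 0 0 i * c 0 0 1 j - c 0 0 0 j * c 0 0 1 i‖ ^ 2
  avoid : ∀ a b : ℤ, |a| ≤ N → |b| ≤ N → ∀ s u s' u' : ℤ, ‖dy N s u‖ ≤ 1 → ‖dy N s' u'‖ ≤ 1 →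
    ∀ G ∈ Gs, ‖evalC n G (pol N c a b (dy N s u))‖ ^ 6 ≤
      2 * (wt G : ℝ) ^ 4 * ‖evalC n G (pol N c a b (dy N s' u'))‖ ^ 2
        + 300 * (wt G : ℝ) ^ 6 / 4 ^ N

/-- A bad curve: a nonconstant entire curve in some stratum. -/
def Bad (n : ℕ) (L Gs : List Form) (f : ℂ → PP n) : Prop :=
  IsHolo n f ∧ (∀ z, ∀ P ∈ L, VanishAt n P (f z)) ∧
  (∀ G ∈ Gs, (∀ z, VanishAt n G (f z)) ∨ (∀ z, ¬ VanishAt n G (f z))) ∧ ∃ z w, f z ≠ f w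

end Pool.Agent.Work.MP_90e0ad_ag
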