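import Mathlib
import Pool.Agent.Work.MP_90e0ad_ag.Defs

/-!
MP_90e0ad_ag: definition of Charts.
-/

namespace Pool.Agent.Work.MP_90e0ad_ag

open Metric

/-- Exact lifts on discs of radius 5 about the Gaussian integers a + b i, |a|, |b| ≤ N. -/
structure Charts (n : ℕ) (L Gs : List Form) (N : ℕ) (P : ℤ → ℤ → ℂ → Fin (n + 1) → ℂ) :
    Prop where
  diff : ∀ a b : ℤ, |a| ≤ N → |b| ≤ N → DifferentiableOn ℂ (P a b) (ball 0 5)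
  lo : ∀ a b : ℤ, |a| ≤ N → |b| ≤ N → ∀ t ∈ ball (0 : ℂ) 5, 1 ≤ ∑ j, ‖P a b t j‖ ^ 2
  hi : ∀ a b : ℤ, |a| ≤ N → |b| ≤ N → ∀ t ∈ ball (0 : ℂ) 5, ∑ j, ‖P a b t j‖ ^ 2 ≤ 2
  eqs : ∀ a b : ℤ, |a| ≤ N → |b| ≤ N → ∀ t ∈ ball (0 : ℂ) 5, ∀ Q ∈ L, evalC n Q (P a b t) = 0
  compat : ∀ a b a' b' : ℤ, |a| ≤ N → |b| ≤ N → |a'| ≤ N → |b'| ≤ N →
    ∀ t ∈ ball (0 : ℂ) 5, ∀ t' ∈ ball (0 : ℂ) 5,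
    ((a : ℂ) + b * Complex.I) + t = (a' + b' * Complex.I) + t' → ∀ i j,
    P a b t i * P a' b' t' j - P a b t j * P a' b' t' i = 0
  nonconst : 1 ≤ 800 * ((n : ℝ) + 1) ^ 2 * ∑ i, ∑ j,
    ‖P 0 0 0 i * deriv (fun t => P 0 0 t j) 0 - P 0 0 0 j * deriv (fun t => P 0 0 t i) 0‖ ^ 2
  avoid : ∀ a b : ℤ, |a| ≤ N → |b| ≤ N → ∀ G ∈ Gs,
    (∀ t ∈ ball (0 : ℂ) 5, evalC n G (P a b t) = 0) ∨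
    (∀ t ∈ ball (0 : ℂ) 5, evalC n G (P a b t) ≠ 0)

end Pool.Agent.Work.MP_90e0ad_ag
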