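import Mathlib
import Pool.Agent.Work.MP_90e0ad_ag.Defs

/-!
MP_90e0ad_ag, module FORM.
-/

namespace Pool.Agent.Work.MP_90e0ad_ag

open Metric

private theorem form_getD_sum (n : ℕ) (l : List ℕ) :
    ∑ i : Fin (n + 1), l.getD (i : ℕ) 0 ≤ l.sum := by
  have h : ∀ (m : ℕ) (l : List ℕ), ∑ i ∈ Finset.range m, l.getD i 0 ≤ l.sum := by
    intro m
    induction m with
    | zero => intro l; simp
    | succ m ih =>
      intro l
      cases l with
      | nil => simp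
      | cons a l =>
        rw [Finset.sum_range_succ']
        simp only [List.getD_cons_succ, List.getD_cons_zero, List.sum_cons]
        have := ih l
        omega
  rw [Fin.sum_univ_eq_sum_range (fun i => l.getD i 0) (n + 1)]
  exact h (n + 1) l

private theorem form_pow_le (x : ℂ) (hx : ‖x‖ ≤ 2) (e : ℕ) : ‖x ^ e‖ ≤ 2 ^ e := by
  rw [norm_pow]
  exact pow_le_pow_left₀ (norm_nonneg _) hx e

private theorem form_prod_le {ι : Type} (s : Finset ι) (x : ι → ℂ) (hx : ∀ i, ‖x i‖ ≤ 2)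
    (e : ι → ℕ) : ‖∏ i ∈ s, x i ^ e i‖ ≤ 2 ^ (∑ i ∈ s, e i) := by
  rw [norm_prod, ← Finset.prod_pow_eq_pow_sum]
  exact Finset.prod_le_prod (fun i _ => norm_nonneg _) fun i _ => form_pow_le _ (hx i) _

private theorem form_pow_sub (x y : ℂ) (δ : ℝ) (hx : ‖x‖ ≤ 2) (hy : ‖y‖ ≤ 2)
    (hxy : ‖x - y‖ ≤ δ) (e : ℕ) : ‖x ^ e - y ^ e‖ ≤ e * 2 ^ e * δ := by
  have hδ : 0 ≤ δ := (norm_nonneg _).trans hxy
  induction e with
  | zero => simp
  | succ e ih =>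
    have h1 : x ^ (e + 1) - y ^ (e + 1) = x ^ e * (x - y) + (x ^ e - y ^ e) * y := by ring
    rw [h1]
    refine (norm_add_le _ _).trans ?_
    rw [norm_mul, norm_mul]
    have h2 : ‖x ^ e‖ * ‖x - y‖ ≤ 2 ^ e * δ :=
      mul_le_mul (form_pow_le x hx e) hxy (norm_nonneg _) (by positivity)
    have h3 : ‖x ^ e - y ^ e‖ * ‖y‖ ≤ (e * 2 ^ e * δ) * 2 :=
      mul_le_mul ih hy (norm_nonneg _) (by positivity)
    have h4 : (0 : ℝ) ≤ 2 ^ e * δ := by positivity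
    push_cast
    rw [pow_succ]
    nlinarith

private theorem form_prod_sub {ι : Type} [DecidableEq ι] (s : Finset ι) (x y : ι → ℂ) (δ : ℝ)
    (hδ : 0 ≤ δ)
    (hx : ∀ i, ‖x i‖ ≤ 2) (hy : ∀ i, ‖y i‖ ≤ 2) (hxy : ∀ i, ‖x i - y i‖ ≤ δ) (e : ι → ℕ) :
    ‖∏ i ∈ s, x i ^ e i - ∏ i ∈ s, y i ^ e i‖ ≤
      ((∑ i ∈ s, e i : ℕ) : ℝ) * 2 ^ (∑ i ∈ s, e i) * δ := by
  induction s using Finset.induction_on with
  | empty => simp
  | insert a s ha ih =>
    rw [Finset.prod_insert ha, Finset.prod_insert ha, Finset.sum_insert ha]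
    have h1 : x a ^ e a * ∏ i ∈ s, x i ^ e i - y a ^ e a * ∏ i ∈ s, y i ^ e i =
        (x a ^ e a - y a ^ e a) * ∏ i ∈ s, x i ^ e i +
          y a ^ e a * (∏ i ∈ s, x i ^ e i - ∏ i ∈ s, y i ^ e i) := by ring
    rw [h1]
    refine (norm_add_le _ _).trans ?_
    rw [norm_mul, norm_mul]
    have h2 : ‖x a ^ e a - y a ^ e a‖ * ‖∏ i ∈ s, x i ^ e i‖ ≤
        (e a * 2 ^ e a * δ) * 2 ^ (∑ i ∈ s, e i) :=
      mul_le_mul (form_pow_sub _ _ δ (hx a) (hy a) (hxy a) _) (form_prod_le s x hx e)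
        (norm_nonneg _) (by positivity)
    have h3 : ‖y a ^ e a‖ * ‖∏ i ∈ s, x i ^ e i - ∏ i ∈ s, y i ^ e i‖ ≤
        2 ^ e a * (((∑ i ∈ s, e i : ℕ) : ℝ) * 2 ^ (∑ i ∈ s, e i) * δ) :=
      mul_le_mul (form_pow_le _ (hy a) _) ih (norm_nonneg _) (by positivity)
    refine (add_le_add h2 h3).trans (le_of_eq ?_)
    rw [pow_add]
    push_cast
    ring

private theorem form_pow_bound (m : ℕ) : (2 : ℝ) ^ m ≤ 4 ^ m ∧ (m : ℝ) * 2 ^ m ≤ 4 ^ m := by
  have h1 : (m : ℝ) ≤ 2 ^ m := by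
    have : m < 2 ^ m := Nat.lt_two_pow_self
    exact_mod_cast this.le
  have h2 : (4 : ℝ) ^ m = 2 ^ m * 2 ^ m := by
    rw [← mul_pow]
    norm_num
  have h3 : (1 : ℝ) ≤ 2 ^ m := one_le_pow₀ (by norm_num)
  constructor <;> rw [h2] <;> nlinarith

theorem evalC_le (n : ℕ) (P : Form) (x : Fin (n + 1) → ℂ) (hx : ∀ i, ‖x i‖ ≤ 2) :
    ‖evalC n P x‖ ≤ wt P := by
  induction P with
  | nil => simp [evalC, wt]
  | cons ce P ih =>
    have h1 : evalC n (ce :: P) x =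
        (ce.1 : ℂ) * ∏ i : Fin (n + 1), x i ^ ce.2.getD (i : ℕ) 0 + evalC n P x := by
      simp [evalC]
    have h2 : wt (ce :: P) = ce.1.natAbs * 4 ^ ce.2.sum + wt P := by simp [wt]
    rw [h1, h2]
    refine (norm_add_le _ _).trans ?_
    push_cast
    refine add_le_add ?_ ih
    rw [norm_mul, Complex.norm_intCast]
    have h3 := form_prod_le Finset.univ x hx (fun i : Fin (n + 1) => ce.2.getD (i : ℕ) 0)
    have h4 : (2 : ℝ) ^ (∑ i : Fin (n + 1), ce.2.getD (i : ℕ) 0) ≤ 4 ^ ce.2.sum :=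
      (pow_le_pow_right₀ (by norm_num) (form_getD_sum n ce.2)).trans (form_pow_bound _).1
    have h5 : |(ce.1 : ℝ)| = (ce.1.natAbs : ℝ) := by
      rw [Nat.cast_natAbs, Int.cast_abs]
    rw [h5]
    exact mul_le_mul_of_nonneg_left (h3.trans h4) (Nat.cast_nonneg _)

theorem evalC_sub_le (n : ℕ) (P : Form) (x y : Fin (n + 1) → ℂ) (δ : ℝ)
    (hx : ∀ i, ‖x i‖ ≤ 2) (hy : ∀ i, ‖y i‖ ≤ 2) (hxy : ∀ i, ‖x i - y i‖ ≤ δ) :
    ‖evalC n P x - evalC n P y‖ ≤ wt P * δ := by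
  have hδ : 0 ≤ δ := (norm_nonneg _).trans (hxy 0)
  induction P with
  | nil => simp [evalC, wt]
  | cons ce P ih =>
    have h1 : ∀ z : Fin (n + 1) → ℂ, evalC n (ce :: P) z =
        (ce.1 : ℂ) * ∏ i : Fin (n + 1), z i ^ ce.2.getD (i : ℕ) 0 + evalC n P z := by
      intro z
      simp [evalC]
    have h2 : wt (ce :: P) = ce.1.natAbs * 4 ^ ce.2.sum + wt P := by simp [wt]
    have h3 : evalC n (ce :: P) x - evalC n (ce :: P) y =
        (ce.1 : ℂ) * (∏ i : Fin (n + 1), x i ^ ce.2.getD (i : ℕ) 0 -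
          ∏ i : Fin (n + 1), y i ^ ce.2.getD (i : ℕ) 0) + (evalC n P x - evalC n P y) := by
      rw [h1, h1]
      ring
    rw [h3, h2]
    refine (norm_add_le _ _).trans ?_
    push_cast
    rw [add_mul]
    refine add_le_add ?_ ih
    rw [norm_mul, Complex.norm_intCast]
    have h4 := form_prod_sub Finset.univ x y δ hδ hx hy hxy
      (fun i : Fin (n + 1) => ce.2.getD (i : ℕ) 0)
    have hs := form_getD_sum n ce.2
    have h5 : ((∑ i : Fin (n + 1), ce.2.getD (i : ℕ) 0 : ℕ) : ℝ) *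
        2 ^ (∑ i : Fin (n + 1), ce.2.getD (i : ℕ) 0) * δ ≤ 4 ^ ce.2.sum * δ := by
      refine mul_le_mul_of_nonneg_right ?_ hδ
      exact (form_pow_bound _).2.trans (pow_le_pow_right₀ (by norm_num) hs)
    have h6 : |(ce.1 : ℝ)| = (ce.1.natAbs : ℝ) := by
      rw [Nat.cast_natAbs, Int.cast_abs]
    rw [h6, mul_assoc]
    exact mul_le_mul_of_nonneg_left (h4.trans h5) (Nat.cast_nonneg _)

end Pool.Agent.Work.MP_90e0ad_ag
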