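import Mathlib

/-!
MP_90e0ad_ag, module HARNACK.
W > 0. φ/W = exp h on ball 0 5 (holomorphic logarithm on a disc: DifferentiableOn.isExactOn_ball
applied to φ'/φ, or BranchLogRoot), Re h ≤ 0. For t, t' of norm ≤ 1: ball t 4 ⊂ ball 0 5; with
u = -Re h ≥ 0 Borel-Caratheodory (Complex.borelCaratheodory_zero) for h - h(t) on ball t 4, bound
M = u(t) + eps: |h(t') - h(t)| ≤ 2 M * 2/(4-2) = 2 M, so u(t') ≤ 3 u(t) + 2 eps for all eps > 0, so
u(t') ≤ 3 u(t), i.e. |φ(t')|/W ≥ (|φ(t)|/W)^3.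
-/

namespace Pool.Agent.Work.MP_90e0ad_ag

open Metric

theorem harnack (φ : ℂ → ℂ) (W : ℝ) (hφ : DifferentiableOn ℂ φ (ball 0 5))
    (h0 : ∀ t ∈ ball (0 : ℂ) 5, φ t ≠ 0) (hb : ∀ t ∈ ball (0 : ℂ) 5, ‖φ t‖ ≤ W)
    (t t' : ℂ) (ht : ‖t‖ ≤ 1) (ht' : ‖t'‖ ≤ 1) : ‖φ t‖ ^ 3 ≤ W ^ 2 * ‖φ t'‖ := by
  have hW : 0 < W := lt_of_lt_of_le (norm_pos_iff.2 (h0 0 (by simp))) (hb 0 (by simp))
  have hopen : IsOpen (ball (0 : ℂ) 5) := isOpen_ball
  have hd : DifferentiableOn ℂ (fun z => deriv φ z / φ z) (ball 0 5) :=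
    (hφ.deriv hopen).div hφ h0
  obtain ⟨g, hg⟩ := hd.isExactOn_ball
  have hder : ∀ z ∈ ball (0 : ℂ) 5, HasDerivAt (fun z => φ z * Complex.exp (-g z)) 0 z := by
    intro z hz
    have h1 : HasDerivAt φ (deriv φ z) z := (hφ.differentiableAt (hopen.mem_nhds hz)).hasDerivAt
    have h2 := h1.mul ((hg z hz).neg.cexp)
    refine h2.congr_deriv ?_
    have h3 := h0 z hz
    have h4 : φ z * (Complex.exp (-g z) * -(deriv φ z / φ z)) =
        -(deriv φ z * Complex.exp (-g z)) := by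
      field_simp
    calc _ = deriv φ z * Complex.exp (-g z) +
          φ z * (Complex.exp (-g z) * -(deriv φ z / φ z)) := rfl
      _ = 0 := by rw [h4]; ring
  have hconst : ∀ z ∈ ball (0 : ℂ) 5, φ z * Complex.exp (-g z) = φ 0 * Complex.exp (-g 0) := by
    intro z hz
    refine hopen.is_const_of_deriv_eq_zero (f := fun z => φ z * Complex.exp (-g z))
      (convex_ball (0 : ℂ) 5).isPreconnected
      (fun z hz => (hder z hz).differentiableAt.differentiableWithinAt) ?_ hz (by simp)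
    intro z hz
    exact (hder z hz).deriv
  obtain ⟨C, hC⟩ : ∃ C : ℝ, C = ‖φ 0 * Complex.exp (-g 0)‖ := ⟨_, rfl⟩
  have hC0 : 0 < C := by
    rw [hC, norm_pos_iff]
    exact mul_ne_zero (h0 0 (by simp)) (Complex.exp_ne_zero _)
  obtain ⟨u, hu⟩ : ∃ u : ℂ → ℝ, u = fun z => -((g z).re + Real.log (C / W)) := ⟨_, rfl⟩
  have hnorm : ∀ z ∈ ball (0 : ℂ) 5, ‖φ z‖ = W * Real.exp (-u z) := by
    intro z hz
    have h1 := congrArg norm (hconst z hz)
    rw [← hC, norm_mul, Complex.norm_exp, Complex.neg_re] at h1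
    have h2 : ‖φ z‖ = C * Real.exp (g z).re := by
      rw [← h1, mul_assoc, ← Real.exp_add]
      simp
    rw [h2, hu]
    simp only [neg_neg]
    rw [Real.exp_add, Real.exp_log (by positivity)]
    field_simp
  have hu0 : ∀ z ∈ ball (0 : ℂ) 5, 0 ≤ u z := by
    intro z hz
    have h1 := hb z hz
    rw [hnorm z hz] at h1
    have h2 : Real.exp (-u z) ≤ 1 := by
      by_contra hcon
      push Not at hcon
      nlinarith
    rw [Real.exp_le_one_iff] at h2
    linarith
  have htb : t ∈ ball (0 : ℂ) 5 := by rw [mem_ball_zero_iff]; linarith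
  have htb' : t' ∈ ball (0 : ℂ) 5 := by rw [mem_ball_zero_iff]; linarith
  have hkey : u t' ≤ 3 * u t := by
    apply le_of_forall_pos_le_add
    intro ε hε
    obtain ⟨M, hM⟩ : ∃ M : ℝ, M = u t + ε / 2 := ⟨_, rfl⟩
    have hM0 : 0 < M := by have := hu0 t htb; linarith
    have hsub : ∀ s ∈ ball (0 : ℂ) 4, t + s ∈ ball (0 : ℂ) 5 := by
      intro s hs
      rw [mem_ball_zero_iff] at hs ⊢
      calc ‖t + s‖ ≤ ‖t‖ + ‖s‖ := norm_add_le _ _
        _ < 5 := by linarith
    have hgd : DifferentiableOn ℂ (fun s => g (t + s) - g t) (ball 0 4) := by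
      intro s hs
      have h1 := (hg (t + s) (hsub s hs)).differentiableAt
      have h2 : DifferentiableAt ℂ (fun s => g (t + s)) s := by
        have h3 : DifferentiableAt ℂ (fun s : ℂ => t + s) s := by fun_prop
        exact DifferentiableAt.comp s h1 h3
      exact (h2.sub_const _).differentiableWithinAt
    have hre : ∀ s, (g (t + s) - g t).re = u t - u (t + s) := by
      intro s
      rw [hu, Complex.sub_re]
      ring
    have hz : t' - t ∈ ball (0 : ℂ) 4 := by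
      rw [mem_ball_zero_iff]
      calc ‖t' - t‖ ≤ ‖t'‖ + ‖t‖ := norm_sub_le _ _
        _ < 4 := by linarith
    have hbc := Complex.borelCaratheodory_zero (f := fun s => g (t + s) - g t) (M := M) (R := 4)
      (z := t' - t) hM0 hgd (by
        intro s hs
        simp only [Set.mem_ofPred_eq]
        rw [hre]
        have := hu0 _ (hsub s hs)
        linarith) (by norm_num) hz (by simp)
    have hn2 : ‖t' - t‖ ≤ 2 := by
      calc ‖t' - t‖ ≤ ‖t'‖ + ‖t‖ := norm_sub_le _ _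
        _ ≤ 2 := by linarith
    have hb2 : 2 * M * ‖t' - t‖ / (4 - ‖t' - t‖) ≤ 2 * M := by
      rw [div_le_iff₀ (by linarith)]
      nlinarith
    have hre2 := Complex.abs_re_le_norm (g (t + (t' - t)) - g t)
    rw [hre, add_sub_cancel] at hre2
    simp only [add_sub_cancel] at hbc
    have := neg_abs_le (u t - u t')
    linarith
  rw [hnorm t htb, hnorm t' htb', mul_pow, ← Real.exp_nat_mul]
  have h3 : Real.exp (((3 : ℕ) : ℝ) * -u t) ≤ Real.exp (-u t') := by
    apply Real.exp_le_exp.2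
    push_cast
    linarith
  calc W ^ 3 * Real.exp (((3 : ℕ) : ℝ) * -u t) ≤ W ^ 3 * Real.exp (-u t') :=
        mul_le_mul_of_nonneg_left h3 (by positivity)
    _ = W ^ 2 * (W * Real.exp (-u t')) := by ring

end Pool.Agent.Work.MP_90e0ad_ag
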