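import Mathlib

/-!
MP_90e0ad_ag, module ROUND.
-/

namespace Pool.Agent.Work.MP_90e0ad_ag

open Metric

private theorem rounding_int (N : ℕ) (x : ℝ) (hx : |x| ≤ 3 / 2 * 4 ^ N) :
    |round x| ≤ 3 * 4 ^ N := by
  have h1 := abs_sub_round x
  have h2 : |(round x : ℝ)| ≤ 3 / 2 * 4 ^ N + 1 / 2 := by
    have h3 : (round x : ℝ) = x - (x - round x) := by ring
    rw [h3]
    exact (abs_sub _ _).trans (add_le_add hx h1)
  have h4 : (1 : ℝ) ≤ 4 ^ N := one_le_pow₀ (by norm_num)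
  have h5 : |(round x : ℝ)| ≤ 3 * 4 ^ N := by linarith
  exact_mod_cast h5

theorem rounding (N : ℕ) (hN : 1 ≤ N) (a : ℕ → ℂ) (ha : ∀ k, ‖a k‖ ≤ (3 / 2) / 2 ^ k) :
    ∃ C : ℕ → ℤ × ℤ, (∀ k ≤ N, |(C k).1| ≤ 3 * 4 ^ N ∧ |(C k).2| ≤ 3 * 4 ^ N ∧
        ‖(((C k).1 : ℂ) + ((C k).2 : ℂ) * Complex.I) / 4 ^ N - a k‖ ≤ 1 / 4 ^ N) ∧
      ∀ t x : ℂ, ‖t‖ ≤ 1 → HasSum (fun k => a k * t ^ k) x →
        ‖∑ k ∈ Finset.range (N + 1),
          (((C k).1 : ℂ) + ((C k).2 : ℂ) * Complex.I) / 4 ^ N * t ^ k - x‖ ≤ 3 / 2 ^ N := by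
  have h4 : (0 : ℝ) < 4 ^ N := by positivity
  have hak : ∀ k, ‖a k‖ ≤ 3 / 2 := fun k => (ha k).trans (by
    rw [div_le_iff₀ (by positivity)]
    have : (1 : ℝ) ≤ 2 ^ k := one_le_pow₀ (by norm_num)
    linarith)
  let C : ℕ → ℤ × ℤ := fun k => (round (4 ^ N * (a k).re), round (4 ^ N * (a k).im))
  have hC : ∀ k, ‖(((C k).1 : ℂ) + ((C k).2 : ℂ) * Complex.I) / 4 ^ N - a k‖ ≤ 1 / 4 ^ N := by
    intro k
    have e1 : (((C k).1 : ℂ) + ((C k).2 : ℂ) * Complex.I) / 4 ^ N - a k =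
        ((((C k).1 : ℂ) + ((C k).2 : ℂ) * Complex.I) - 4 ^ N * a k) / 4 ^ N := by
      field_simp
    have e2 : ‖(4 : ℂ) ^ N‖ = 4 ^ N := by
      rw [norm_pow]
      norm_num
    rw [e1, norm_div, e2]
    refine div_le_div_of_nonneg_right ?_ h4.le
    have hre : ((((C k).1 : ℂ) + ((C k).2 : ℂ) * Complex.I) - 4 ^ N * a k).re =
        ((C k).1 : ℝ) - 4 ^ N * (a k).re := by
      have : ((4 : ℂ) ^ N) = ((4 ^ N : ℝ) : ℂ) := by push_cast; rfl
      rw [this]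
      generalize (4 : ℝ) ^ N = r
      simp
    have him : ((((C k).1 : ℂ) + ((C k).2 : ℂ) * Complex.I) - 4 ^ N * a k).im =
        ((C k).2 : ℝ) - 4 ^ N * (a k).im := by
      have : ((4 : ℂ) ^ N) = ((4 ^ N : ℝ) : ℂ) := by push_cast; rfl
      rw [this]
      generalize (4 : ℝ) ^ N = r
      simp
    refine (Complex.norm_le_abs_re_add_abs_im _).trans ?_
    rw [hre, him]
    have r1 := abs_sub_round (4 ^ N * (a k).re)
    have r2 := abs_sub_round (4 ^ N * (a k).im)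
    rw [abs_sub_comm] at r1 r2
    simp only [C]
    linarith
  refine ⟨C, fun k _ => ⟨?_, ?_, hC k⟩, ?_⟩
  · refine rounding_int N _ ?_
    rw [abs_mul, abs_of_pos h4, mul_comm]
    exact mul_le_mul_of_nonneg_right ((Complex.abs_re_le_norm _).trans (hak k)) h4.le
  · refine rounding_int N _ ?_
    rw [abs_mul, abs_of_pos h4, mul_comm]
    exact mul_le_mul_of_nonneg_right ((Complex.abs_im_le_norm _).trans (hak k)) h4.le
  · intro t x ht hs
    have htk : ∀ k : ℕ, ‖t ^ k‖ ≤ 1 := fun k => by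
      rw [norm_pow]
      exact pow_le_one₀ (norm_nonneg _) ht
    have htail := (hasSum_nat_add_iff' (N + 1)).2 hs
    have hgeo := hasSum_geometric_two' ((3 / 2 : ℝ) / 2 ^ N)
    have hb : ‖x - ∑ k ∈ Finset.range (N + 1), a k * t ^ k‖ ≤ (3 / 2) / 2 ^ N := by
      refine htail.norm_le_of_bounded hgeo fun k => ?_
      rw [norm_mul]
      have h1 : ‖a (k + (N + 1))‖ * ‖t ^ (k + (N + 1))‖ ≤ (3 / 2) / 2 ^ (k + (N + 1)) * 1 :=
        mul_le_mul (ha _) (htk _) (norm_nonneg _) (by positivity)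
      refine h1.trans (le_of_eq ?_)
      rw [pow_add, pow_succ]
      field_simp
    have hmain : ‖∑ k ∈ Finset.range (N + 1),
        ((((C k).1 : ℂ) + ((C k).2 : ℂ) * Complex.I) / 4 ^ N * t ^ k - a k * t ^ k)‖ ≤
        (N + 1) * (1 / 4 ^ N) := by
      refine (norm_sum_le _ _).trans ?_
      refine (Finset.sum_le_sum (g := fun _ => (1 : ℝ) / 4 ^ N) fun k _ => ?_).trans ?_
      · rw [← sub_mul, norm_mul]
        calc _ ≤ (1 / 4 ^ N : ℝ) * 1 := mul_le_mul (hC k) (htk k) (norm_nonneg _) (by positivity)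
          _ = 1 / 4 ^ N := mul_one _
      · simp
    rw [Finset.sum_sub_distrib] at hmain
    have hN2 : ((N : ℝ) + 1) * (1 / 4 ^ N) ≤ 1 / 2 ^ N := by
      have h1 : (N + 1 : ℕ) ≤ 2 ^ N := Nat.lt_two_pow_self
      have h2 : ((N : ℝ) + 1) ≤ 2 ^ N := by exact_mod_cast h1
      have h3 : (4 : ℝ) ^ N = 2 ^ N * 2 ^ N := by
        rw [← mul_pow]
        norm_num
      rw [h3, mul_one_div, div_le_div_iff₀ (by positivity) (by positivity)]
      have h5 : (0 : ℝ) < 2 ^ N := by positivity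
      nlinarith
    have e3 : ∑ k ∈ Finset.range (N + 1),
          (((C k).1 : ℂ) + ((C k).2 : ℂ) * Complex.I) / 4 ^ N * t ^ k - x =
        (∑ k ∈ Finset.range (N + 1),
          (((C k).1 : ℂ) + ((C k).2 : ℂ) * Complex.I) / 4 ^ N * t ^ k -
          ∑ k ∈ Finset.range (N + 1), a k * t ^ k) -
        (x - ∑ k ∈ Finset.range (N + 1), a k * t ^ k) := by ring
    rw [e3]
    refine (norm_sub_le _ _).trans ((add_le_add hmain hb).trans ?_)
    refine (add_le_add hN2 le_rfl).trans ?_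
    rw [← add_div]
    exact div_le_div_of_nonneg_right (by norm_num) (by positivity)

end Pool.Agent.Work.MP_90e0ad_ag
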