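import Mathlib

/-!
MP_90e0ad_ag, module TAYLOR.
Power series of P at 0 (Cauchy), radius 5; coefficient bound on the circle of radius 2
(Complex.norm_iteratedDeriv_le_of_forall_mem_sphere_norm_le or cauchyPowerSeries),
a k = iteratedDeriv k P 0 / k!.
-/

namespace Pool.Agent.Work.MP_90e0ad_ag

open Metric

theorem taylor (P : ℂ → ℂ) (hP : DifferentiableOn ℂ P (ball 0 5))
    (hb : ∀ t ∈ ball (0 : ℂ) 5, ‖P t‖ ≤ 3 / 2) :
    ∃ a : ℕ → ℂ, (∀ k, ‖a k‖ ≤ (3 / 2) / 2 ^ k) ∧ a 0 = P 0 ∧ a 1 = deriv P 0 ∧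
      ∀ t : ℂ, ‖t‖ ≤ 1 → HasSum (fun k => a k * t ^ k) (P t) := by
  have hball : ball (0 : ℂ) 2 ⊆ ball 0 5 := ball_subset_ball (by norm_num)
  have hcb : closedBall (0 : ℂ) 2 ⊆ ball 0 5 := closedBall_subset_ball (by norm_num)
  have hdc : DiffContOnCl ℂ P (ball 0 2) := by
    refine DifferentiableOn.diffContOnCl ?_
    rw [closure_ball _ (by norm_num)]
    exact hP.mono hcb
  refine ⟨fun k => (k.factorial : ℂ)⁻¹ * iteratedDeriv k P 0, ?_, ?_, ?_, ?_⟩
  · intro k
    have h1 := Complex.norm_iteratedDeriv_le_of_forall_mem_sphere_norm_le k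
      (by norm_num : (0 : ℝ) < 2) hdc (C := 3 / 2)
      (fun z hz => hb z (hcb (sphere_subset_closedBall hz)))
    rw [norm_mul, norm_inv, Complex.norm_natCast]
    have hk : (0 : ℝ) < k.factorial := by positivity
    rw [inv_mul_le_iff₀ hk]
    refine h1.trans (le_of_eq ?_)
    ring
  · simp
  · simp
  · intro t ht
    have h1 := Complex.hasSum_taylorSeries_on_ball (f := P) (c := 0) (r := 5) (z := t) hP
      (by rw [mem_ball_zero_iff]; linarith)
    have h2 : (fun k : ℕ => (k.factorial : ℂ)⁻¹ * iteratedDeriv k P 0 * t ^ k) =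
        fun n : ℕ => (n.factorial : ℂ)⁻¹ • (t - 0) ^ n • iteratedDeriv n P 0 := by
      funext k
      rw [sub_zero, smul_eq_mul, smul_eq_mul]
      ring
    exact h2 ▸ h1

end Pool.Agent.Work.MP_90e0ad_ag
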