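import Mathlib
import Pool.Agent.Work.MP_90e0ad_ag.ChartsDef
import Pool.Agent.Work.MP_90e0ad_ag.FormEst
import Pool.Agent.Work.MP_90e0ad_ag.Taylor
import Pool.Agent.Work.MP_90e0ad_ag.Rounding
import Pool.Agent.Work.MP_90e0ad_ag.Harnack

/-!
MP_90e0ad_ag, module APPROX.
a k from taylor for each coordinate (‖P j‖ ≤ √2 ≤ 3/2), C from rounding;
δ = 3/2^N; all coordinates of the approximate vector have norm ≤ 3/2 + δ ≤ 2.
size: (3/2)/2^k + 1/4^N ≤ 3/2^k. nz: ∑|x|^2 ≥ ∑|P|^2 - 2 δ ∑ |P| ≥ 1 - 2 (n+1)(3/2) 3/2^N ≥ 1/2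
(N ≥ n+10). eqs: evalC_sub_le. compat: error ≤ 2 (2δ + (3/2) δ) = 7 δ ≤ 24/2^N.
nonconst: |c00 - P(0)|, |c01 - P'(0)| ≤ 4^-N, |P(0)_j| ≤ 3/2, |P'(0)_j| ≤ 3/4; each minor changes
by at most 8/4^N, |minor| ≤ 3, so |minor|^2 drops by at most 48/4^N;
2000 (n+1)^2 (1/(800 (n+1)^2) - 48 (n+1)^2/4^N) ≥ 2.5 - 96000 (n+1)^4/4^(n+10) ≥ 2.5 - 0.5.
avoid: φ = evalC G (P a b t), |φ| ≤ W = wt G, harnack (or φ ≡ 0): |φ t|^3 ≤ W^2 |φ t'|; the
approximate values ψ satisfy |ψ - φ| ≤ W δ, |ψ| ≤ W, so |ψ t|^3 ≤ |φ t|^3 + 3 W^2 (W δ)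
≤ W^2 |ψ t'| + 4 W^3 δ = W^2 |ψ t'| + 12 W^3/2^N; square: (x+y)^2 ≤ 2x^2+2y^2, 2*144 = 288 ≤ 300.
-/

namespace Pool.Agent.Work.MP_90e0ad_ag

open Metric

lemma approxOf_diff (n : ℕ) (G : Form) : Differentiable ℂ (evalC n G) := by
  unfold evalC
  induction G with
  | nil => simp
  | cons ce G ih =>
    simp only [List.map_cons, List.sum_cons]
    refine Differentiable.add ?_ ih
    fun_prop

lemma approxOf_num (n : ℕ) : ((n : ℝ) + 1) ^ 4 ≤ 26 * 4 ^ n := by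
  induction n with
  | zero => norm_num
  | succ n ih =>
    rcases Nat.lt_or_ge n 2 with h | h
    · interval_cases n <;> norm_num
    · have hn : (2 : ℝ) ≤ n := by exact_mod_cast h
      have h1 : (((n + 1 : ℕ) : ℝ) + 1) ^ 4 ≤ 4 * ((n : ℝ) + 1) ^ 4 := by
        have h2 : (((n + 1 : ℕ) : ℝ) + 1) ^ 2 ≤ 2 * ((n : ℝ) + 1) ^ 2 := by
          push_cast
          nlinarith
        calc (((n + 1 : ℕ) : ℝ) + 1) ^ 4 = ((((n + 1 : ℕ) : ℝ) + 1) ^ 2) ^ 2 := by ring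
          _ ≤ (2 * ((n : ℝ) + 1) ^ 2) ^ 2 := pow_le_pow_left₀ (by positivity) h2 2
          _ = 4 * ((n : ℝ) + 1) ^ 4 := by ring
      calc (((n + 1 : ℕ) : ℝ) + 1) ^ 4 ≤ 4 * ((n : ℝ) + 1) ^ 4 := h1
        _ ≤ 4 * (26 * 4 ^ n) := by linarith
        _ = 26 * 4 ^ (n + 1) := by ring

lemma approxOf_num2 (n N : ℕ) (hN : n + 10 ≤ N) : 1024 * ((n : ℝ) + 1) ≤ 2 ^ N := by
  have h1 : (n : ℝ) + 1 ≤ 2 ^ n := by
    have := Nat.lt_two_pow_self (n := n)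
    exact_mod_cast this
  calc 1024 * ((n : ℝ) + 1) ≤ 1024 * 2 ^ n := by linarith
    _ = 2 ^ (n + 10) := by rw [pow_add]; norm_num; ring
    _ ≤ 2 ^ N := pow_le_pow_right₀ (by norm_num) hN

theorem approx_of_charts (n : ℕ) (L Gs : List Form) (N : ℕ) (hN : n + 10 ≤ N)
    (P : ℤ → ℤ → ℂ → Fin (n + 1) → ℂ) (h : Charts n L Gs N P) :
    ∃ C : ℤ → ℤ → ℕ → Fin (n + 1) → ℤ × ℤ,
      (∀ a b : ℤ, |a| ≤ N → |b| ≤ N → ∀ k ≤ N, ∀ j,
        |(C a b k j).1| ≤ 3 * 4 ^ N ∧ |(C a b k j).2| ≤ 3 * 4 ^ N) ∧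
      Approx n L Gs N fun a b k j =>
        (((C a b k j).1 : ℂ) + ((C a b k j).2 : ℂ) * Complex.I) / 4 ^ N := by
  have hPle : ∀ a b : ℤ, |a| ≤ N → |b| ≤ N → ∀ t ∈ ball (0 : ℂ) 5, ∀ j,
      ‖P a b t j‖ ≤ 3 / 2 := by
    intro a b ha hb t ht j
    have h1 := h.hi a b ha hb t ht
    have h2 : ‖P a b t j‖ ^ 2 ≤ 2 :=
      (Finset.single_le_sum (f := fun j => ‖P a b t j‖ ^ 2) (fun _ _ => by positivity)
        (Finset.mem_univ j)).trans h1
    nlinarith [norm_nonneg (P a b t j)]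
  have hT : ∀ a b : ℤ, |a| ≤ N → |b| ≤ N → ∀ j, ∃ (α : ℕ → ℂ) (C : ℕ → ℤ × ℤ),
      (∀ k, ‖α k‖ ≤ (3 / 2) / 2 ^ k) ∧ α 0 = P a b 0 j ∧ α 1 = deriv (fun t => P a b t j) 0 ∧
      (∀ k ≤ N, |(C k).1| ≤ 3 * 4 ^ N ∧ |(C k).2| ≤ 3 * 4 ^ N ∧
        ‖(((C k).1 : ℂ) + ((C k).2 : ℂ) * Complex.I) / 4 ^ N - α k‖ ≤ 1 / 4 ^ N) ∧
      ∀ t : ℂ, ‖t‖ ≤ 1 → ‖∑ k ∈ Finset.range (N + 1),
          (((C k).1 : ℂ) + ((C k).2 : ℂ) * Complex.I) / 4 ^ N * t ^ k - P a b t j‖ ≤ 3 / 2 ^ N := by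
    intro a b ha hb j
    have hd : DifferentiableOn ℂ (fun t => P a b t j) (ball 0 5) :=
      fun t ht => (differentiableWithinAt_pi.1 (h.diff a b ha hb t ht)) j
    obtain ⟨α, h1, h2, h3, h4⟩ := taylor (fun t => P a b t j) hd
      (fun t ht => hPle a b ha hb t ht j)
    obtain ⟨C, h5, h6⟩ := rounding N (by omega) α h1
    exact ⟨α, C, h1, h2, h3, h5, fun t ht => h6 t _ ht (h4 t ht)⟩
  choose! α C hα0 hα1 hα2 hC1 hC2 using hT
  refine ⟨fun a b k j => C a b j k, fun a b ha hb k hk j =>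
    ⟨(hC1 a b ha hb j k hk).1, (hC1 a b ha hb j k hk).2.1⟩, ?_⟩
  set c : ℤ → ℤ → ℕ → Fin (n + 1) → ℂ := fun a b k j =>
    (((C a b j k).1 : ℂ) + ((C a b j k).2 : ℂ) * Complex.I) / 4 ^ N with hc
  set δ : ℝ := 3 / 2 ^ N with hδ
  have h2N : (0 : ℝ) < 2 ^ N := by positivity
  have h4N : (0 : ℝ) < 4 ^ N := by positivity
  have hnum := approxOf_num2 n N hN
  have hδ0 : 0 < δ := by positivity
  have hδ1 : δ * (n + 1) ≤ 3 / 1024 := by
    rw [hδ, div_mul_eq_mul_div, div_le_div_iff₀ h2N (by norm_num)]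
    linarith
  have hn0 : (0 : ℝ) ≤ n := Nat.cast_nonneg n
  have hδ2 : δ ≤ 3 / 1024 := by nlinarith
  have hball : ∀ t : ℂ, ‖t‖ ≤ 1 → t ∈ ball (0 : ℂ) 5 := by
    intro t ht
    rw [mem_ball_zero_iff]
    linarith
  have hpol : ∀ a b : ℤ, |a| ≤ N → |b| ≤ N → ∀ t : ℂ, ‖t‖ ≤ 1 → ∀ j,
      ‖pol N c a b t j - P a b t j‖ ≤ δ := by
    intro a b ha hb t ht j
    exact hC2 a b ha hb j t ht
  have hpolle : ∀ a b : ℤ, |a| ≤ N → |b| ≤ N → ∀ t : ℂ, ‖t‖ ≤ 1 → ∀ j,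
      ‖pol N c a b t j‖ ≤ 2 := by
    intro a b ha hb t ht j
    have h1 := hpol a b ha hb t ht j
    have h2 := hPle a b ha hb t (hball t ht) j
    have h3 := norm_le_norm_add_norm_sub' (pol N c a b t j) (P a b t j)
    linarith
  have hPle2 : ∀ a b : ℤ, |a| ≤ N → |b| ≤ N → ∀ t ∈ ball (0 : ℂ) 5, ∀ j, ‖P a b t j‖ ≤ 2 :=
    fun a b ha hb t ht j => (hPle a b ha hb t ht j).trans (by norm_num)
  have hmul : ∀ x y p q : ℂ, ∀ ε A B : ℝ, ‖x‖ ≤ A → ‖q‖ ≤ B → ‖x - p‖ ≤ ε → ‖y - q‖ ≤ ε →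
      ‖x * y - p * q‖ ≤ (A + B) * ε := by
    intro x y p q ε A B hx hq hxp hyq
    have e : x * y - p * q = x * (y - q) + (x - p) * q := by ring
    rw [e]
    calc ‖x * (y - q) + (x - p) * q‖ ≤ ‖x * (y - q)‖ + ‖(x - p) * q‖ := norm_add_le _ _
      _ = ‖x‖ * ‖y - q‖ + ‖x - p‖ * ‖q‖ := by rw [norm_mul, norm_mul]
      _ ≤ A * ε + ε * B := by
          have hA : 0 ≤ A := (norm_nonneg _).trans hx
          have hε : 0 ≤ ε := (norm_nonneg _).trans hxp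
          exact add_le_add (mul_le_mul hx hyq (norm_nonneg _) hA)
            (mul_le_mul hxp hq (norm_nonneg _) hε)
      _ = (A + B) * ε := by ring
  refine ⟨?_, ?_, ?_, ?_, ?_, ?_⟩
  · -- size
    intro a b ha hb k hk j
    have h1 := (hC1 a b ha hb j k hk).2.2
    have h2 := hα0 a b ha hb j k
    have h3 := norm_le_norm_add_norm_sub' (c a b k j) (α a b j k)
    have h4 : (1 : ℝ) / 4 ^ N ≤ 1 / 2 ^ k := by
      rw [div_le_div_iff₀ h4N (by positivity), one_mul, one_mul]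
      calc (2 : ℝ) ^ k ≤ 2 ^ N := pow_le_pow_right₀ (by norm_num) hk
        _ ≤ 4 ^ N := pow_le_pow_left₀ (by norm_num) (by norm_num) N
    have h5 : (3 : ℝ) / 2 ^ k = (3 / 2) / 2 ^ k + 1 / 2 ^ k + (1 / 2) / 2 ^ k := by ring
    have h6 : (0 : ℝ) ≤ (1 / 2) / 2 ^ k := by positivity
    show ‖c a b k j‖ ≤ 3 / 2 ^ k
    linarith
  · -- nz
    intro a b ha hb s u hsu
    set t := dy N s u with ht
    have h1 := h.lo a b ha hb t (hball t hsu)
    have h2 : ∀ j, ‖P a b t j‖ ^ 2 - 4 * δ ≤ ‖pol N c a b t j‖ ^ 2 := by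
      intro j
      have h3 := hpol a b ha hb t hsu j
      have h4 := hPle2 a b ha hb t (hball t hsu) j
      have h5 := hpolle a b ha hb t hsu j
      have h6 : ‖P a b t j‖ - ‖pol N c a b t j‖ ≤ δ := by
        have := norm_sub_norm_le (P a b t j) (pol N c a b t j)
        rw [norm_sub_rev] at this
        linarith
      have h7 := norm_nonneg (P a b t j)
      have h8 := norm_nonneg (pol N c a b t j)
      nlinarith
    have h3 : ∑ j, (‖P a b t j‖ ^ 2 - 4 * δ) ≤ ∑ j, ‖pol N c a b t j‖ ^ 2 :=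
      Finset.sum_le_sum fun j _ => h2 j
    rw [Finset.sum_sub_distrib, Finset.sum_const, Finset.card_univ, Fintype.card_fin,
      nsmul_eq_mul] at h3
    push_cast at h3
    nlinarith
  · -- eqs
    intro a b ha hb s u hsu Q hQ
    set t := dy N s u with ht
    have h1 := evalC_sub_le n Q (pol N c a b t) (P a b t) δ (hpolle a b ha hb t hsu)
      (hPle2 a b ha hb t (hball t hsu)) (hpol a b ha hb t hsu)
    rw [h.eqs a b ha hb t (hball t hsu) Q hQ, sub_zero] at h1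
    refine h1.trans (le_of_eq ?_)
    rw [hδ]
    ring
  · -- compat
    intro a b a' b' ha hb ha' hb' s u s' u' hs hu ht ht' i j
    set t := dy N s u with htd
    set t' := dy N s' u' with htd'
    have e : ((a : ℂ) + b * Complex.I) + t = (a' + b' * Complex.I) + t' := by
      rw [htd, htd']
      unfold dy
      have hs' : (a : ℂ) * 2 ^ N + s = a' * 2 ^ N + s' := by exact_mod_cast hs
      have hu' : (b : ℂ) * 2 ^ N + u = b' * 2 ^ N + u' := by exact_mod_cast hu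
      have h2 : (2 : ℂ) ^ N ≠ 0 := pow_ne_zero _ two_ne_zero
      field_simp
      linear_combination hs' + Complex.I * hu'
    have h0 := h.compat a b a' b' ha hb ha' hb' t (hball t ht) t' (hball t' ht') e i j
    have h1 := hmul _ _ _ _ δ 2 (3 / 2) (hpolle a b ha hb t ht i)
      (hPle a' b' ha' hb' t' (hball t' ht') j)
      (hpol a b ha hb t ht i) (hpol a' b' ha' hb' t' ht' j)
    have h2 := hmul _ _ _ _ δ 2 (3 / 2) (hpolle a b ha hb t ht j)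
      (hPle a' b' ha' hb' t' (hball t' ht') i)
      (hpol a b ha hb t ht j) (hpol a' b' ha' hb' t' ht' i)
    have e2 : pol N c a b t i * pol N c a' b' t' j - pol N c a b t j * pol N c a' b' t' i
        = (pol N c a b t i * pol N c a' b' t' j - P a b t i * P a' b' t' j)
          - (pol N c a b t j * pol N c a' b' t' i - P a b t j * P a' b' t' i)
          + (P a b t i * P a' b' t' j - P a b t j * P a' b' t' i) := by ring
    rw [e2, h0, add_zero]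
    have h3 := norm_sub_le (pol N c a b t i * pol N c a' b' t' j - P a b t i * P a' b' t' j)
      (pol N c a b t j * pol N c a' b' t' i - P a b t j * P a' b' t' i)
    have h4 : (24 : ℝ) / 2 ^ N = 8 * δ := by rw [hδ]; ring
    rw [h4]
    linarith
  · -- nonconst
    have h00 : |(0 : ℤ)| ≤ (N : ℤ) := by simp
    set ε : ℝ := 1 / 4 ^ N with hε
    have hε0 : 0 < ε := by positivity
    have h4 : (4 : ℝ) ^ (n + 10) ≤ 4 ^ N := pow_le_pow_right₀ (by norm_num) hN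
    have hε1 : ε * 1048576 ≤ 1 := by
      rw [hε, div_mul_eq_mul_div, div_le_one h4N, one_mul]
      calc (1048576 : ℝ) = 4 ^ 10 := by norm_num
        _ ≤ 4 ^ (n + 10) := pow_le_pow_right₀ (by norm_num) (by omega)
        _ ≤ 4 ^ N := h4
    have hε2 : 40000 * ((n : ℝ) + 1) ^ 4 * ε ≤ 1 := by
      rw [hε, mul_one_div, div_le_one h4N]
      have := approxOf_num n
      calc 40000 * ((n : ℝ) + 1) ^ 4 ≤ 40000 * (26 * 4 ^ n) := by linarith
        _ ≤ 1048576 * 4 ^ n := by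
            have : (0 : ℝ) < 4 ^ n := by positivity
            nlinarith
        _ = 4 ^ (n + 10) := by rw [pow_add]; norm_num; ring
        _ ≤ 4 ^ N := h4
    have hp : ∀ i, ‖α 0 0 i 0‖ ≤ 3 / 2 := by
      intro i
      have := hα0 0 0 h00 h00 i 0
      simpa using this
    have hq : ∀ i, ‖α 0 0 i 1‖ ≤ 3 / 4 := by
      intro i
      have := hα0 0 0 h00 h00 i 1
      norm_num at this
      exact this
    have hcp : ∀ i, ‖c 0 0 0 i - α 0 0 i 0‖ ≤ ε := fun i => (hC1 0 0 h00 h00 i 0 (by omega)).2.2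
    have hcq : ∀ i, ‖c 0 0 1 i - α 0 0 i 1‖ ≤ ε := fun i => (hC1 0 0 h00 h00 i 1 (by omega)).2.2
    have hcp2 : ∀ i, ‖c 0 0 0 i‖ ≤ 2 := by
      intro i
      have h3 := norm_le_norm_add_norm_sub' (c 0 0 0 i) (α 0 0 i 0)
      have := hp i
      have := hcp i
      linarith
    have hterm : ∀ i j, ‖P 0 0 0 i * deriv (fun t => P 0 0 t j) 0
        - P 0 0 0 j * deriv (fun t => P 0 0 t i) 0‖ ^ 2 - 30 * ε
        ≤ ‖c 0 0 0 i * c 0 0 1 j - c 0 0 0 j * c 0 0 1 i‖ ^ 2 := by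
      intro i j
      rw [← hα1 0 0 h00 h00 i, ← hα1 0 0 h00 h00 j, ← hα2 0 0 h00 h00 i, ← hα2 0 0 h00 h00 j]
      have h1 := hmul _ _ _ _ ε 2 (3 / 4) (hcp2 i) (hq j) (hcp i) (hcq j)
      have h2 := hmul _ _ _ _ ε 2 (3 / 4) (hcp2 j) (hq i) (hcp j) (hcq i)
      set m' := c 0 0 0 i * c 0 0 1 j - c 0 0 0 j * c 0 0 1 i with hm'
      set m := α 0 0 i 0 * α 0 0 j 1 - α 0 0 j 0 * α 0 0 i 1 with hm
      have h3 : ‖m' - m‖ ≤ 11 / 2 * ε := by
        have e : m' - m = (c 0 0 0 i * c 0 0 1 j - α 0 0 i 0 * α 0 0 j 1)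
            - (c 0 0 0 j * c 0 0 1 i - α 0 0 j 0 * α 0 0 i 1) := by rw [hm', hm]; ring
        rw [e]
        have := norm_sub_le (c 0 0 0 i * c 0 0 1 j - α 0 0 i 0 * α 0 0 j 1)
          (c 0 0 0 j * c 0 0 1 i - α 0 0 j 0 * α 0 0 i 1)
        linarith
      have h4 : ‖m‖ ≤ 9 / 4 := by
        have h5 : ‖α 0 0 i 0 * α 0 0 j 1‖ ≤ 3 / 2 * (3 / 4) := by
          rw [norm_mul]
          exact mul_le_mul (hp i) (hq j) (norm_nonneg _) (by norm_num)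
        have h6 : ‖α 0 0 j 0 * α 0 0 i 1‖ ≤ 3 / 2 * (3 / 4) := by
          rw [norm_mul]
          exact mul_le_mul (hp j) (hq i) (norm_nonneg _) (by norm_num)
        have := norm_sub_le (α 0 0 i 0 * α 0 0 j 1) (α 0 0 j 0 * α 0 0 i 1)
        linarith
      have h5 : ‖m‖ - ‖m'‖ ≤ 11 / 2 * ε := by
        have h9 := norm_sub_norm_le m m'
        have h10 := norm_sub_rev m m'
        linarith
      have h6 : ‖m'‖ ≤ 9 / 4 + 11 / 2 * ε := by
        have := norm_le_norm_add_norm_sub' m' m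
        linarith
      have h7 := norm_nonneg m
      have h8 := norm_nonneg m'
      nlinarith
    have hsum : ∑ i, ∑ j, (‖P 0 0 0 i * deriv (fun t => P 0 0 t j) 0
        - P 0 0 0 j * deriv (fun t => P 0 0 t i) 0‖ ^ 2 - 30 * ε)
        ≤ ∑ i, ∑ j, ‖c 0 0 0 i * c 0 0 1 j - c 0 0 0 j * c 0 0 1 i‖ ^ 2 :=
      Finset.sum_le_sum fun i _ => Finset.sum_le_sum fun j _ => hterm i j
    simp only [Finset.sum_sub_distrib, Finset.sum_const, Finset.card_univ, Fintype.card_fin,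
      nsmul_eq_mul] at hsum
    push_cast at hsum
    have hnc := h.nonconst
    set A := ∑ i, ∑ j, ‖P 0 0 0 i * deriv (fun t => P 0 0 t j) 0
        - P 0 0 0 j * deriv (fun t => P 0 0 t i) 0‖ ^ 2 with hA
    set B := ∑ i, ∑ j, ‖c 0 0 0 i * c 0 0 1 j - c 0 0 0 j * c 0 0 1 i‖ ^ 2 with hB
    have h5 : A - 30 * ε * ((n : ℝ) + 1) ^ 2 ≤ B := by nlinarith
    have h6 : 2000 * ((n : ℝ) + 1) ^ 2 * (A - 30 * ε * ((n : ℝ) + 1) ^ 2)
        ≤ 2000 * ((n : ℝ) + 1) ^ 2 * B := mul_le_mul_of_nonneg_left h5 (by positivity)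
    have h7 : 2000 * ((n : ℝ) + 1) ^ 2 * (A - 30 * ε * ((n : ℝ) + 1) ^ 2)
        = 5 / 2 * (800 * ((n : ℝ) + 1) ^ 2 * A) - 3 / 2 * (40000 * ((n : ℝ) + 1) ^ 4 * ε) := by
      ring
    rw [h7] at h6
    show 1 ≤ 2000 * ((n : ℝ) + 1) ^ 2 * B
    linarith
  · -- avoid
    intro a b ha hb s u s' u' ht ht' G hG
    set t := dy N s u with htd
    set t' := dy N s' u' with htd'
    set Wt : ℝ := (wt G : ℝ) with hWt
    have hW0 : 0 ≤ Wt := Nat.cast_nonneg _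
    have hφd : DifferentiableOn ℂ (fun t => evalC n G (P a b t)) (ball 0 5) :=
      (approxOf_diff n G).comp_differentiableOn (h.diff a b ha hb)
    have hφle : ∀ t ∈ ball (0 : ℂ) 5, ‖evalC n G (P a b t)‖ ≤ Wt := fun t ht =>
      evalC_le n G _ (hPle2 a b ha hb t ht)
    have hH : ‖evalC n G (P a b t)‖ ^ 3 ≤ Wt ^ 2 * ‖evalC n G (P a b t')‖ := by
      rcases h.avoid a b ha hb G hG with h0 | h0
      · rw [h0 t (hball t ht), h0 t' (hball t' ht')]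
        simp
      · exact harnack (fun t => evalC n G (P a b t)) Wt hφd h0 hφle t t' ht ht'
    have h1 := evalC_sub_le n G (pol N c a b t) (P a b t) δ (hpolle a b ha hb t ht)
      (hPle2 a b ha hb t (hball t ht)) (hpol a b ha hb t ht)
    have h2 := evalC_sub_le n G (pol N c a b t') (P a b t') δ (hpolle a b ha hb t' ht')
      (hPle2 a b ha hb t' (hball t' ht')) (hpol a b ha hb t' ht')
    have h3 : ‖evalC n G (pol N c a b t)‖ ≤ Wt := evalC_le n G _ (hpolle a b ha hb t ht)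
    have h4 := hφle t (hball t ht)
    set x := ‖evalC n G (pol N c a b t)‖ with hx
    set y := ‖evalC n G (pol N c a b t')‖ with hy
    set p := ‖evalC n G (P a b t)‖ with hp
    set q := ‖evalC n G (P a b t')‖ with hq
    have hx0 : 0 ≤ x := norm_nonneg _
    have hy0 : 0 ≤ y := norm_nonneg _
    have hp0 : 0 ≤ p := norm_nonneg _
    have hq0 : 0 ≤ q := norm_nonneg _
    have h5 : x - p ≤ Wt * δ := (norm_sub_norm_le _ _).trans h1
    have h6 : q - y ≤ Wt * δ := by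
      have := norm_sub_norm_le (evalC n G (P a b t')) (evalC n G (pol N c a b t'))
      rw [norm_sub_rev] at this
      exact this.trans h2
    have hWδ : 0 ≤ Wt * δ := by positivity
    have h7 : x ^ 3 ≤ p ^ 3 + 3 * Wt ^ 2 * (Wt * δ) := by
      have e : x ^ 3 - p ^ 3 = (x - p) * (x ^ 2 + x * p + p ^ 2) := by ring
      have h8 : x ^ 2 + x * p + p ^ 2 ≤ 3 * Wt ^ 2 := by nlinarith
      have h9 : 0 ≤ x ^ 2 + x * p + p ^ 2 := by positivity
      have h10 : (x - p) * (x ^ 2 + x * p + p ^ 2) ≤ (Wt * δ) * (3 * Wt ^ 2) :=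
        mul_le_mul h5 h8 h9 hWδ
      nlinarith
    have h8 : Wt ^ 2 * q ≤ Wt ^ 2 * y + Wt ^ 2 * (Wt * δ) := by
      have : Wt ^ 2 * q ≤ Wt ^ 2 * (y + Wt * δ) :=
        mul_le_mul_of_nonneg_left (by linarith) (by positivity)
      linarith
    have h9 : x ^ 3 ≤ Wt ^ 2 * y + 12 * Wt ^ 3 / 2 ^ N := by
      have e : 12 * Wt ^ 3 / 2 ^ N = 4 * Wt ^ 2 * (Wt * δ) := by rw [hδ]; ring
      rw [e]
      linarith
    have h10 : (x ^ 3) ^ 2 ≤ (Wt ^ 2 * y + 12 * Wt ^ 3 / 2 ^ N) ^ 2 :=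
      pow_le_pow_left₀ (by positivity) h9 2
    have e6 : x ^ 6 = (x ^ 3) ^ 2 := by ring
    have e4 : (4 : ℝ) ^ N = 2 ^ N * 2 ^ N := by rw [← mul_pow]; norm_num
    show x ^ 6 ≤ 2 * Wt ^ 4 * y ^ 2 + 300 * Wt ^ 6 / 4 ^ N
    rw [e6, e4]
    set D : ℝ := Wt ^ 3 / 2 ^ N with hD
    have e7 : 12 * Wt ^ 3 / 2 ^ N = 12 * D := by rw [hD]; ring
    have e8 : 300 * Wt ^ 6 / (2 ^ N * 2 ^ N) = 300 * D ^ 2 := by rw [hD]; ring
    rw [e7] at h10
    rw [e8]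
    nlinarith [sq_nonneg (Wt ^ 2 * y - 12 * D), sq_nonneg D]

end Pool.Agent.Work.MP_90e0ad_ag
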