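import Mathlib
import Pool.Agent.Work.MP_90e0ad_ag.Defs

/-!
MP_90e0ad_ag, Gaussian integers as differences of naturals, and the decidable condition.
-/

namespace Pool.Agent.Work.MP_90e0ad_ag

/-- ((re+, re-), (im+, im-)) -/
abbrev G4 := (ℕ × ℕ) × (ℕ × ℕ)

def g0 : G4 := ((0, 0), (0, 0))
def gnat (k : ℕ) : G4 := ((k, 0), (0, 0))
def gint (z : ℤ) : G4 := ((z.toNat, (-z).toNat), (0, 0))
def gadd (x y : G4) : G4 := ((x.1.1 + y.1.1, x.1.2 + y.1.2), (x.2.1 + y.2.1, x.2.2 + y.2.2))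
def gneg (x : G4) : G4 := ((x.1.2, x.1.1), (x.2.2, x.2.1))
def gmul (x y : G4) : G4 :=
  ((x.1.1 * y.1.1 + x.1.2 * y.1.2 + x.2.1 * y.2.2 + x.2.2 * y.2.1,
    x.1.1 * y.1.2 + x.1.2 * y.1.1 + x.2.1 * y.2.1 + x.2.2 * y.2.2),
   (x.1.1 * y.2.1 + x.1.2 * y.2.2 + x.2.1 * y.1.1 + x.2.2 * y.1.2,
    x.1.1 * y.2.2 + x.1.2 * y.2.1 + x.2.1 * y.1.2 + x.2.2 * y.1.1))
def gpow (x : G4) (k : ℕ) : G4 := Nat.rec (gnat 1) (fun _ y => gmul x y) k
def gsum (K : ℕ) (f : ℕ → G4) : G4 := Nat.rec g0 (fun k y => gadd y (f k)) K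
def gprod (K : ℕ) (f : ℕ → G4) : G4 := Nat.rec (gnat 1) (fun k y => gmul y (f k)) K
def nsum (K : ℕ) (f : ℕ → ℕ) : ℕ := Nat.rec 0 (fun k y => y + f k) K
/-- squared absolute value -/
def nsq (x : G4) : ℕ :=
  ((x.1.1 - x.1.2) + (x.1.2 - x.1.1)) ^ 2 + ((x.2.1 - x.2.2) + (x.2.2 - x.2.1)) ^ 2

noncomputable def val (x : G4) : ℂ :=
  ((x.1.1 : ℂ) - (x.1.2 : ℂ)) + ((x.2.1 : ℂ) - (x.2.2 : ℂ)) * Complex.I

def evalG (n : ℕ) (P : Form) (v : ℕ → G4) : G4 :=
  P.foldr (fun ce acc => gadd (gmul (gint ce.1) (gprod (n + 1) fun i => gpow (v i) (ce.2.getD i 0)))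
    acc) g0

/-- degree of the first monomial -/
def deg0 (P : Form) : ℕ := (P.headD (0, [])).2.sum

/-! ### the condition on a code m -/

def off (N : ℕ) : ℕ := 3 * 4 ^ N
def base (N : ℕ) : ℕ := 2 * off N + 1
def dig (B m i : ℕ) : ℕ := m / B ^ i % B
def idx (n N a b k j : ℕ) : ℕ := ((a * (2 * N + 1) + b) * (N + 1) + k) * (n + 1) + j
/-- coefficient (times 4^N), centre (a - N) + (b - N) i -/
def coef (n N m a b k j : ℕ) : G4 :=
  ((dig (base N) m (2 * idx n N a b k j), off N), (dig (base N) m (2 * idx n N a b k j + 1), off N))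
/-- number of digits -/
def ndig (n N : ℕ) : ℕ := 2 * ((2 * N + 1) * (2 * N + 1) * (N + 1) * (n + 1))
/-- 2^N times the dyadic point -/
def gT (N s u : ℕ) : G4 := ((s, 2 ^ N), (u, 2 ^ N))
def BB (N : ℕ) : ℕ := 2 ^ (N * N + 2 * N)
/-- BB N times the value of the Taylor polynomial -/
def gV (n N m a b s u j : ℕ) : G4 :=
  gsum (N + 1) fun k => gmul (gmul (coef n N m a b k j) (gpow (gT N s u) k))
    (gnat (2 ^ (N * (N - k))))
/-- minor x y' - y x' -/
def gminor (x y x' y' : G4) : G4 := gadd (gmul x y') (gneg (gmul y x'))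

def condSize (n N m : ℕ) : Prop :=
  ∀ a < 2 * N + 1, ∀ b < 2 * N + 1, ∀ k < N + 1, ∀ j < n + 1,
    nsq (coef n N m a b k j) * 4 ^ k ≤ 9 * 16 ^ N

def condNz (n N m : ℕ) : Prop :=
  ∀ a < 2 * N + 1, ∀ b < 2 * N + 1, ∀ s < 2 * 2 ^ N + 1, ∀ u < 2 * 2 ^ N + 1,
    nsq (gT N s u) ≤ 4 ^ N → BB N ^ 2 ≤ 2 * nsum (n + 1) fun j => nsq (gV n N m a b s u j)

def condEqs (n : ℕ) (L : List Form) (N m : ℕ) : Prop :=
  ∀ a < 2 * N + 1, ∀ b < 2 * N + 1, ∀ s < 2 * 2 ^ N + 1, ∀ u < 2 * 2 ^ N + 1,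
    nsq (gT N s u) ≤ 4 ^ N → ∀ P ∈ L,
      nsq (evalG n P fun j => gV n N m a b s u j) * 4 ^ N ≤ 9 * wt P ^ 2 * BB N ^ (2 * deg0 P)

def condCompat (n N m : ℕ) : Prop :=
  ∀ a < 2 * N + 1, ∀ b < 2 * N + 1, ∀ a' < 2 * N + 1, ∀ b' < 2 * N + 1,
  ∀ s < 2 * 2 ^ N + 1, ∀ u < 2 * 2 ^ N + 1, ∀ s' < 2 * 2 ^ N + 1, ∀ u' < 2 * 2 ^ N + 1,
    a * 2 ^ N + s = a' * 2 ^ N + s' → b * 2 ^ N + u = b' * 2 ^ N + u' →
    nsq (gT N s u) ≤ 4 ^ N → nsq (gT N s' u') ≤ 4 ^ N → ∀ i < n + 1, ∀ j < n + 1,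
      nsq (gminor (gV n N m a b s u i) (gV n N m a b s u j)
        (gV n N m a' b' s' u' i) (gV n N m a' b' s' u' j)) * 4 ^ N ≤ 576 * BB N ^ 4

def condNonconst (n N m : ℕ) : Prop :=
  256 ^ N ≤ 2000 * (n + 1) ^ 2 * nsum (n + 1) fun i => nsum (n + 1) fun j =>
    nsq (gminor (coef n N m N N 0 i) (coef n N m N N 0 j)
      (coef n N m N N 1 i) (coef n N m N N 1 j))

def condAvoid (n : ℕ) (Gs : List Form) (N m : ℕ) : Prop :=
  ∀ a < 2 * N + 1, ∀ b < 2 * N + 1,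
  ∀ s < 2 * 2 ^ N + 1, ∀ u < 2 * 2 ^ N + 1, ∀ s' < 2 * 2 ^ N + 1, ∀ u' < 2 * 2 ^ N + 1,
    nsq (gT N s u) ≤ 4 ^ N → nsq (gT N s' u') ≤ 4 ^ N → ∀ G ∈ Gs,
      nsq (evalG n G fun j => gV n N m a b s u j) ^ 3 * 4 ^ N ≤
        2 * wt G ^ 4 * nsq (evalG n G fun j => gV n N m a b s' u' j) * BB N ^ (4 * deg0 G) * 4 ^ N
          + 300 * wt G ^ 6 * BB N ^ (6 * deg0 G)

def Cond (n : ℕ) (L Gs : List Form) (N m : ℕ) : Prop :=
  condSize n N m ∧ condNz n N m ∧ condEqs n L N m ∧ condCompat n N m ∧ condNonconst n N m ∧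
    condAvoid n Gs N m

/-- scaled integer coefficients decoded from m -/
noncomputable def decode (n N m : ℕ) : ℤ → ℤ → ℕ → Fin (n + 1) → ℂ := fun a b k j =>
  val (coef n N m (a + N).toNat (b + N).toNat k j) / 4 ^ N

/-! ### basic lemmas (module GAUSS) -/

theorem val_gadd (x y : G4) : val (gadd x y) = val x + val y := by
  simp only [val, gadd]; push_cast; ring

theorem val_gneg (x : G4) : val (gneg x) = - val x := by
  simp only [val, gneg]; ring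

theorem val_gmul (x y : G4) : val (gmul x y) = val x * val y := by
  simp only [val, gmul]; push_cast
  ring_nf
  simp only [Complex.I_sq]
  ring

theorem val_g0 : val g0 = 0 := by simp [val, g0]

theorem val_gnat (k : ℕ) : val (gnat k) = k := by simp [val, gnat]

theorem val_gint (z : ℤ) : val (gint z) = z := by
  simp only [val, gint]
  have h : ((z.toNat : ℕ) : ℂ) - (((-z).toNat : ℕ) : ℂ) = z := by
    have h2 : ((z.toNat : ℤ)) - (((-z).toNat : ℤ)) = z := Int.toNat_sub_toNat_neg z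
    exact_mod_cast congrArg (Int.cast : ℤ → ℂ) h2
  rw [h]; simp

theorem val_gpow (x : G4) (k : ℕ) : val (gpow x k) = val x ^ k := by
  induction k with
  | zero => simp [gpow, val_gnat]
  | succ k ih =>
    have : gpow x (k + 1) = gmul x (gpow x k) := rfl
    rw [this, val_gmul, ih]; ring

theorem val_gsum (K : ℕ) (f : ℕ → G4) : val (gsum K f) = ∑ k ∈ Finset.range K, val (f k) := by
  induction K with
  | zero => simp [gsum, val_g0]
  | succ k ih =>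
    have : gsum (k + 1) f = gadd (gsum k f) (f k) := rfl
    rw [this, val_gadd, ih, Finset.sum_range_succ]

theorem val_gprod (K : ℕ) (f : ℕ → G4) : val (gprod K f) = ∏ k ∈ Finset.range K, val (f k) := by
  induction K with
  | zero => simp [gprod, val_gnat]
  | succ k ih =>
    have : gprod (k + 1) f = gmul (gprod k f) (f k) := rfl
    rw [this, val_gmul, ih, Finset.prod_range_succ]

theorem nsum_eq (K : ℕ) (f : ℕ → ℕ) : nsum K f = ∑ k ∈ Finset.range K, f k := by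
  induction K with
  | zero => simp [nsum]
  | succ k ih =>
    have : nsum (k + 1) f = nsum k f + f k := rfl
    rw [this, ih, Finset.sum_range_succ]

theorem norm_val_sq (x : G4) : ‖val x‖ ^ 2 = (nsq x : ℝ) := by
  have key : ∀ p q : ℕ, (((p - q : ℕ) : ℝ) + ((q - p : ℕ) : ℝ)) ^ 2 = ((p : ℝ) - q) ^ 2 := by
    intro p q
    rcases le_total p q with h | h
    · rw [Nat.sub_eq_zero_of_le h, Nat.cast_sub h]; push_cast; ring
    · rw [Nat.sub_eq_zero_of_le h, Nat.cast_sub h]; push_cast; ring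
  rw [← Complex.normSq_eq_norm_sq, Complex.normSq_apply]
  simp only [val, nsq]
  push_cast
  rw [key, key]
  simp
  ring

theorem val_evalG (n : ℕ) (P : Form) (v : ℕ → G4) :
    val (evalG n P v) = evalC n P fun i => val (v i) := by
  induction P with
  | nil => simp [evalG, evalC, val_g0]
  | cons ce P ih =>
    have h1 : evalG n (ce :: P) v =
      gadd (gmul (gint ce.1) (gprod (n + 1) fun i => gpow (v i) (ce.2.getD i 0))) (evalG n P v) := rfl
    rw [h1, val_gadd, val_gmul, val_gint, val_gprod, ih]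
    simp only [evalC, List.map_cons, List.sum_cons, val_gpow]
    rw [Finset.prod_range]

end Pool.Agent.Work.MP_90e0ad_ag
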