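import Mathlib
import Pool.Agent.Work.MP_90e0ad_ag.Gauss

/-!
MP_90e0ad_ag, module BRIDGE: the decidable condition Cond on a code m is equivalent to
Approx for the decoded coefficients.
-/

namespace Pool.Agent.Work.MP_90e0ad_ag

theorem br_sum_getD (l : List ℕ) : ∑ i ∈ Finset.range l.length, l.getD i 0 = l.sum := by
  induction l with
  | nil => simp
  | cons x l ih =>
    rw [List.length_cons, Finset.sum_range_succ', List.sum_cons, add_comm]
    simpa using ih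

theorem evalC_smul (n : ℕ) (P : Form) (d : ℕ) (h : ∀ ce ∈ P, ce.2.length = n + 1 ∧ ce.2.sum = d)
    (lam : ℂ) (v : Fin (n + 1) → ℂ) :
    evalC n P (fun i => lam * v i) = lam ^ d * evalC n P v := by
  induction P with
  | nil => simp [evalC]
  | cons ce P ih =>
    have h1 := h ce (List.mem_cons_self)
    have h2 := ih fun ce' hce' => h ce' (List.mem_cons_of_mem _ hce')
    unfold evalC at h2 ⊢
    rw [List.map_cons, List.sum_cons, List.map_cons, List.sum_cons, h2, mul_add]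
    congr 1
    have h3 : ∏ i : Fin (n + 1), (lam * v i) ^ ce.2.getD (i : ℕ) 0
        = lam ^ d * ∏ i : Fin (n + 1), v i ^ ce.2.getD (i : ℕ) 0 := by
      rw [← h1.2, ← br_sum_getD, h1.1, Finset.sum_range, ← Finset.prod_pow_eq_pow_sum,
        ← Finset.prod_mul_distrib]
      exact Finset.prod_congr rfl fun i _ => mul_pow _ _ _
    rw [h3]; ring

theorem br_evalC (n : ℕ) (P : Form) (hP : IsForm n P) (lam : ℂ) (v : Fin (n + 1) → ℂ) :
    evalC n P (fun i => lam * v i) = lam ^ deg0 P * evalC n P v := by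
  obtain ⟨d, hd⟩ := hP
  cases P with
  | nil => simp [evalC]
  | cons ce P =>
    have h1 : deg0 (ce :: P) = d := (hd ce List.mem_cons_self).2
    rw [h1]
    exact evalC_smul n _ d hd lam v

theorem br_qa (N : ℕ) (P : ℤ → Prop) :
    (∀ a : ℤ, |a| ≤ N → P a) ↔ ∀ a < 2 * N + 1, P ((a : ℤ) - N) := by
  constructor
  · intro h a ha
    refine h _ ?_
    rw [abs_le]
    omega
  · intro h a ha
    rw [abs_le] at ha
    have h1 := h (a + N).toNat (by omega)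
    have h2 : (((a + N).toNat : ℕ) : ℤ) - N = a := by omega
    rwa [h2] at h1

theorem br_val_gT (N s u : ℕ) :
    val (gT N s u) = 2 ^ N * dy N ((s : ℤ) - 2 ^ N) ((u : ℤ) - 2 ^ N) := by
  unfold val gT dy
  push_cast
  field_simp

theorem br_dy_norm (N s u : ℕ) :
    nsq (gT N s u) ≤ 4 ^ N ↔ ‖dy N ((s : ℤ) - 2 ^ N) ((u : ℤ) - 2 ^ N)‖ ≤ 1 := by
  have h1 := norm_val_sq (gT N s u)
  rw [br_val_gT, norm_mul, norm_pow, mul_pow] at h1
  have h2 : ((‖(2 : ℂ)‖ ^ N) ^ 2 : ℝ) = 4 ^ N := by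
    rw [Complex.norm_ofNat, ← pow_mul, mul_comm, pow_mul]; norm_num
  rw [h2] at h1
  set r := ‖dy N ((s : ℤ) - 2 ^ N) ((u : ℤ) - 2 ^ N)‖ with hr
  have hr0 : 0 ≤ r := norm_nonneg _
  have h3 : (nsq (gT N s u) ≤ 4 ^ N) ↔ ((nsq (gT N s u) : ℝ) ≤ 4 ^ N) := by
    constructor
    · intro h; exact_mod_cast h
    · intro h; exact_mod_cast h
  rw [h3, ← h1]
  have h4 : (0 : ℝ) < 4 ^ N := by positivity
  constructor
  · intro h
    have h5 : r ^ 2 ≤ 1 := by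
      by_contra hcon
      push Not at hcon
      nlinarith
    nlinarith
  · intro h
    have h5 : r ^ 2 ≤ 1 := by nlinarith
    nlinarith

theorem br_dy_bound (N : ℕ) (s u : ℤ) (h : ‖dy N s u‖ ≤ 1) : |s| ≤ 2 ^ N ∧ |u| ≤ 2 ^ N := by
  have hre : (dy N s u).re = (s : ℝ) / 2 ^ N := by
    unfold dy
    have : ((2 : ℂ) ^ N) = (((2 : ℝ) ^ N : ℝ) : ℂ) := by push_cast; rfl
    rw [this, Complex.div_ofReal_re]
    simp
  have him : (dy N s u).im = (u : ℝ) / 2 ^ N := by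
    unfold dy
    have : ((2 : ℂ) ^ N) = (((2 : ℝ) ^ N : ℝ) : ℂ) := by push_cast; rfl
    rw [this, Complex.div_ofReal_im]
    simp
  have h1 := (Complex.abs_re_le_norm (dy N s u)).trans h
  have h2 := (Complex.abs_im_le_norm (dy N s u)).trans h
  have hpos : (0 : ℝ) < 2 ^ N := by positivity
  rw [hre, abs_div, abs_of_pos hpos, div_le_one hpos] at h1
  rw [him, abs_div, abs_of_pos hpos, div_le_one hpos] at h2
  constructor
  · exact_mod_cast h1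
  · exact_mod_cast h2

theorem br_qd (N : ℕ) (Q : ℤ → ℤ → Prop) :
    (∀ s u : ℤ, ‖dy N s u‖ ≤ 1 → Q s u) ↔
      ∀ s < 2 * 2 ^ N + 1, ∀ u < 2 * 2 ^ N + 1, nsq (gT N s u) ≤ 4 ^ N →
        Q ((s : ℤ) - 2 ^ N) ((u : ℤ) - 2 ^ N) := by
  constructor
  · intro h s _ u _ hn
    exact h _ _ ((br_dy_norm N s u).1 hn)
  · intro h s u hsu
    obtain ⟨h1, h2⟩ := br_dy_bound N s u hsu
    rw [abs_le] at h1 h2
    have e1 : (((s + 2 ^ N).toNat : ℕ) : ℤ) = s + 2 ^ N := Int.toNat_of_nonneg (by linarith)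
    have e2 : (((u + 2 ^ N).toNat : ℕ) : ℤ) = u + 2 ^ N := Int.toNat_of_nonneg (by linarith)
    have e3 : (((s + 2 ^ N).toNat : ℕ) : ℤ) - 2 ^ N = s := by rw [e1]; ring
    have e4 : (((u + 2 ^ N).toNat : ℕ) : ℤ) - 2 ^ N = u := by rw [e2]; ring
    have b1 : (s + 2 ^ N).toNat < 2 * 2 ^ N + 1 := by
      zify
      rw [e1]
      linarith
    have b2 : (u + 2 ^ N).toNat < 2 * 2 ^ N + 1 := by
      zify
      rw [e2]
      linarith
    have h3 := h (s + 2 ^ N).toNat b1 (u + 2 ^ N).toNat b2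
      ((br_dy_norm N _ _).2 (by rw [e3, e4]; exact hsu))
    rwa [e3, e4] at h3

theorem br_decode (n N m a b k : ℕ) (j : Fin (n + 1)) :
    decode n N m ((a : ℤ) - N) ((b : ℤ) - N) k j = val (coef n N m a b k j) / 4 ^ N := by
  unfold decode
  have h1 : ((a : ℤ) - N + N).toNat = a := by omega
  have h2 : ((b : ℤ) - N + N).toNat = b := by omega
  rw [h1, h2]

theorem br_pol (n N m a b s u : ℕ) (j : Fin (n + 1)) :
    val (gV n N m a b s u j) = (BB N : ℂ) * pol N (decode n N m) ((a : ℤ) - N) ((b : ℤ) - N)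
      (dy N ((s : ℤ) - 2 ^ N) ((u : ℤ) - 2 ^ N)) j := by
  unfold gV pol
  rw [val_gsum, Finset.mul_sum]
  refine Finset.sum_congr rfl fun k hk => ?_
  have hk' : k ≤ N := Nat.lt_succ_iff.1 (Finset.mem_range.1 hk)
  rw [val_gmul, val_gmul, val_gpow, val_gnat, br_val_gT, br_decode]
  unfold BB
  obtain ⟨e, rfl⟩ := Nat.exists_eq_add_of_le hk'
  have h1 : k + e - k = e := by omega
  rw [h1, mul_pow]
  have h2 : ((2 : ℂ) ^ ((k + e) * (k + e) + 2 * (k + e)))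
      = (2 ^ (k + e)) ^ k * 2 ^ ((k + e) * e) * 4 ^ (k + e) := by
    have : (4 : ℂ) = 2 ^ 2 := by norm_num
    rw [this, ← pow_mul, ← pow_mul, ← pow_add, ← pow_add]
    congr 1
    ring
  push_cast
  rw [h2]
  have h4 : (4 : ℂ) ^ (k + e) ≠ 0 := pow_ne_zero _ (by norm_num)
  field_simp

theorem br_BB_pos (N : ℕ) : (0 : ℝ) < BB N := by
  unfold BB
  positivity

theorem br_nsq_gV (n N m a b s u : ℕ) (j : Fin (n + 1)) :
    (nsq (gV n N m a b s u j) : ℝ) = (BB N : ℝ) ^ 2 * ‖pol N (decode n N m) ((a : ℤ) - N)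
      ((b : ℤ) - N) (dy N ((s : ℤ) - 2 ^ N) ((u : ℤ) - 2 ^ N)) j‖ ^ 2 := by
  rw [← norm_val_sq, br_pol, norm_mul, Complex.norm_natCast, mul_pow]

theorem br_nsq_evalG (n N m a b s u : ℕ) (P : Form) (hP : IsForm n P) :
    (nsq (evalG n P fun j => gV n N m a b s u j) : ℝ) = (BB N : ℝ) ^ (2 * deg0 P) *
      ‖evalC n P (pol N (decode n N m) ((a : ℤ) - N)
      ((b : ℤ) - N) (dy N ((s : ℤ) - 2 ^ N) ((u : ℤ) - 2 ^ N)))‖ ^ 2 := by
  rw [← norm_val_sq, val_evalG]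
  have h1 : (fun i : Fin (n + 1) => val (gV n N m a b s u (i : ℕ)))
      = fun i => (BB N : ℂ) * pol N (decode n N m) ((a : ℤ) - N) ((b : ℤ) - N)
      (dy N ((s : ℤ) - 2 ^ N) ((u : ℤ) - 2 ^ N)) i := funext fun i => br_pol n N m a b s u i
  rw [h1, br_evalC n P hP, norm_mul, norm_pow, Complex.norm_natCast, mul_pow, ← pow_mul,
    mul_comm (deg0 P) 2]

theorem br_sq_le {x y : ℝ} (hx : 0 ≤ x) (hy : 0 ≤ y) : x ≤ y ↔ x ^ 2 ≤ y ^ 2 :=
  (pow_le_pow_iff_left₀ hx hy two_ne_zero).symm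

theorem br_pow4 (N : ℕ) : ((2 : ℝ) ^ N) ^ 2 = 4 ^ N := by
  rw [← pow_mul, mul_comm, pow_mul]; norm_num

theorem br_size (n N m a b k : ℕ) (j : Fin (n + 1)) :
    ‖decode n N m ((a : ℤ) - N) ((b : ℤ) - N) k j‖ ≤ 3 / 2 ^ k ↔
      nsq (coef n N m a b k j) * 4 ^ k ≤ 9 * 16 ^ N := by
  rw [br_sq_le (norm_nonneg _) (by positivity), br_decode, norm_div, div_pow, norm_val_sq, norm_pow,
    div_pow, br_pow4, Complex.norm_ofNat]
  have h1 : (((4 : ℝ) ^ N) ^ 2) = 16 ^ N := by rw [← pow_mul, mul_comm, pow_mul]; norm_num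
  rw [h1, div_le_div_iff₀ (by positivity) (by positivity)]
  constructor
  · intro h
    have h2 : (nsq (coef n N m a b k j) : ℝ) * 4 ^ k ≤ 9 * 16 ^ N := by
      norm_num at h ⊢; linarith
    exact_mod_cast h2
  · intro h
    have h2 : (nsq (coef n N m a b k j) : ℝ) * 4 ^ k ≤ 9 * 16 ^ N := by exact_mod_cast h
    norm_num at h2 ⊢; linarith

theorem br_nz (n N m a b s u : ℕ) :
    ((1 : ℝ) / 2 ≤ ∑ j, ‖pol N (decode n N m) ((a : ℤ) - N) ((b : ℤ) - N)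
      (dy N ((s : ℤ) - 2 ^ N) ((u : ℤ) - 2 ^ N)) j‖ ^ 2) ↔
      BB N ^ 2 ≤ 2 * nsum (n + 1) fun j => nsq (gV n N m a b s u j) := by
  have h1 : ((nsum (n + 1) fun j => nsq (gV n N m a b s u j) : ℕ) : ℝ)
      = (BB N : ℝ) ^ 2 * ∑ j, ‖pol N (decode n N m) ((a : ℤ) - N) ((b : ℤ) - N)
      (dy N ((s : ℤ) - 2 ^ N) ((u : ℤ) - 2 ^ N)) j‖ ^ 2 := by
    rw [nsum_eq, Finset.sum_range, Nat.cast_sum, Finset.mul_sum]
    exact Finset.sum_congr rfl fun j _ => br_nsq_gV n N m a b s u j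
  have h2 : (BB N ^ 2 ≤ 2 * nsum (n + 1) fun j => nsq (gV n N m a b s u j)) ↔
      ((BB N : ℝ) ^ 2 ≤ 2 * ((nsum (n + 1) fun j => nsq (gV n N m a b s u j) : ℕ) : ℝ)) := by
    constructor
    · intro h; exact_mod_cast h
    · intro h; exact_mod_cast h
  rw [h2, h1]
  have h3 : (0 : ℝ) < (BB N : ℝ) ^ 2 := pow_pos (br_BB_pos N) 2
  constructor
  · intro h; nlinarith
  · intro h
    by_contra hcon
    push Not at hcon
    nlinarith

theorem br_eqs (n N m a b s u : ℕ) (P : Form) (hP : IsForm n P) :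
    ‖evalC n P (pol N (decode n N m) ((a : ℤ) - N) ((b : ℤ) - N)
      (dy N ((s : ℤ) - 2 ^ N) ((u : ℤ) - 2 ^ N)))‖ ≤ 3 * (wt P : ℝ) / 2 ^ N ↔
      nsq (evalG n P fun j => gV n N m a b s u j) * 4 ^ N ≤ 9 * wt P ^ 2 * BB N ^ (2 * deg0 P) := by
  have h1 := br_nsq_evalG n N m a b s u P hP
  have h2 : (nsq (evalG n P fun j => gV n N m a b s u j) * 4 ^ N
        ≤ 9 * wt P ^ 2 * BB N ^ (2 * deg0 P)) ↔
      ((nsq (evalG n P fun j => gV n N m a b s u j) : ℝ) * 4 ^ N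
        ≤ 9 * (wt P : ℝ) ^ 2 * (BB N : ℝ) ^ (2 * deg0 P)) := by
    constructor
    · intro h; exact_mod_cast h
    · intro h; exact_mod_cast h
  rw [h2, h1, br_sq_le (norm_nonneg _) (by positivity), div_pow, br_pow4]
  have h3 : (0 : ℝ) < (BB N : ℝ) ^ (2 * deg0 P) := pow_pos (br_BB_pos N) _
  set E := ‖evalC n P (pol N (decode n N m) ((a : ℤ) - N) ((b : ℤ) - N)
      (dy N ((s : ℤ) - 2 ^ N) ((u : ℤ) - 2 ^ N)))‖ ^ 2 with hE
  rw [le_div_iff₀ (by positivity)]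
  constructor
  · intro h
    nlinarith
  · intro h
    by_contra hcon
    push Not at hcon
    nlinarith

theorem br_minor (x y x' y' : G4) :
    val (gminor x y x' y') = val x * val y' - val y * val x' := by
  unfold gminor
  rw [val_gadd, val_gmul, val_gneg, val_gmul]
  ring

theorem br_compat (n N m a b s u a' b' s' u' : ℕ) (i j : Fin (n + 1)) :
    ‖pol N (decode n N m) ((a : ℤ) - N) ((b : ℤ) - N)
          (dy N ((s : ℤ) - 2 ^ N) ((u : ℤ) - 2 ^ N)) i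
        * pol N (decode n N m) ((a' : ℤ) - N) ((b' : ℤ) - N)
          (dy N ((s' : ℤ) - 2 ^ N) ((u' : ℤ) - 2 ^ N)) j
      - pol N (decode n N m) ((a : ℤ) - N) ((b : ℤ) - N)
          (dy N ((s : ℤ) - 2 ^ N) ((u : ℤ) - 2 ^ N)) j
        * pol N (decode n N m) ((a' : ℤ) - N) ((b' : ℤ) - N)
          (dy N ((s' : ℤ) - 2 ^ N) ((u' : ℤ) - 2 ^ N)) i‖ ≤ 24 / 2 ^ N ↔
      nsq (gminor (gV n N m a b s u i) (gV n N m a b s u j)
        (gV n N m a' b' s' u' i) (gV n N m a' b' s' u' j)) * 4 ^ N ≤ 576 * BB N ^ 4 := by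
  have h1 := norm_val_sq (gminor (gV n N m a b s u i) (gV n N m a b s u j)
        (gV n N m a' b' s' u' i) (gV n N m a' b' s' u' j))
  rw [br_minor, br_pol, br_pol, br_pol, br_pol] at h1
  set p := pol N (decode n N m) ((a : ℤ) - N) ((b : ℤ) - N)
          (dy N ((s : ℤ) - 2 ^ N) ((u : ℤ) - 2 ^ N))
  set p' := pol N (decode n N m) ((a' : ℤ) - N) ((b' : ℤ) - N)
          (dy N ((s' : ℤ) - 2 ^ N) ((u' : ℤ) - 2 ^ N))
  have h2 : (BB N : ℂ) * p i * ((BB N : ℂ) * p' j) - (BB N : ℂ) * p j * ((BB N : ℂ) * p' i)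
      = (BB N : ℂ) ^ 2 * (p i * p' j - p j * p' i) := by ring
  rw [h2, norm_mul, norm_pow, Complex.norm_natCast, mul_pow, ← pow_mul] at h1
  set M := nsq (gminor (gV n N m a b s u i) (gV n N m a b s u j)
        (gV n N m a' b' s' u' i) (gV n N m a' b' s' u' j)) with hM
  have h3 : (M * 4 ^ N ≤ 576 * BB N ^ 4) ↔ ((M : ℝ) * 4 ^ N ≤ 576 * (BB N : ℝ) ^ 4) := by
    constructor
    · intro h; exact_mod_cast h
    · intro h; exact_mod_cast h
  rw [h3, ← h1, br_sq_le (norm_nonneg _) (by positivity), div_pow, br_pow4,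
    le_div_iff₀ (by positivity)]
  have h4 : (0 : ℝ) < (BB N : ℝ) ^ (2 * 2) := pow_pos (br_BB_pos N) _
  have h5 : (BB N : ℝ) ^ 4 = (BB N : ℝ) ^ (2 * 2) := by norm_num
  rw [h5]
  set E := ‖p i * p' j - p j * p' i‖ ^ 2
  constructor
  · intro h
    norm_num at h
    nlinarith
  · intro h
    by_contra hcon
    push Not at hcon
    norm_num at hcon
    nlinarith

theorem br_nonconst (n N m : ℕ) :
    (1 ≤ 2000 * ((n : ℝ) + 1) ^ 2 * ∑ i, ∑ j, ‖decode n N m 0 0 0 i * decode n N m 0 0 1 j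
      - decode n N m 0 0 0 j * decode n N m 0 0 1 i‖ ^ 2) ↔ condNonconst n N m := by
  have hdec : ∀ (k : ℕ) (j : Fin (n + 1)), decode n N m 0 0 k j
      = val (coef n N m N N k j) / 4 ^ N := by
    intro k j
    unfold decode
    simp
  have h1 : ∀ i j : Fin (n + 1), ((nsq (gminor (coef n N m N N 0 i) (coef n N m N N 0 j)
      (coef n N m N N 1 i) (coef n N m N N 1 j)) : ℕ) : ℝ)
      = 256 ^ N * ‖decode n N m 0 0 0 i * decode n N m 0 0 1 j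
      - decode n N m 0 0 0 j * decode n N m 0 0 1 i‖ ^ 2 := by
    intro i j
    rw [← norm_val_sq, br_minor, hdec, hdec, hdec, hdec]
    have h2 : val (coef n N m N N 0 i) / 4 ^ N * (val (coef n N m N N 1 j) / 4 ^ N)
        - val (coef n N m N N 0 j) / 4 ^ N * (val (coef n N m N N 1 i) / 4 ^ N)
        = (val (coef n N m N N 0 i) * val (coef n N m N N 1 j)
        - val (coef n N m N N 0 j) * val (coef n N m N N 1 i)) / 16 ^ N := by
      have h3 : (16 : ℂ) ^ N = 4 ^ N * 4 ^ N := by rw [← mul_pow]; norm_num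
      rw [h3]
      field_simp
    rw [h2, norm_div, div_pow, norm_pow, Complex.norm_ofNat]
    have h4 : (((16 : ℝ) ^ N) ^ 2) = 256 ^ N := by rw [← pow_mul, mul_comm, pow_mul]; norm_num
    rw [h4]
    field_simp
  unfold condNonconst
  have h5 : (256 ^ N ≤ 2000 * (n + 1) ^ 2 * nsum (n + 1) fun i => nsum (n + 1) fun j =>
    nsq (gminor (coef n N m N N 0 i) (coef n N m N N 0 j)
      (coef n N m N N 1 i) (coef n N m N N 1 j))) ↔
      ((256 : ℝ) ^ N ≤ 2000 * ((n : ℝ) + 1) ^ 2 * ∑ i : Fin (n + 1), ∑ j : Fin (n + 1),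
        ((nsq (gminor (coef n N m N N 0 i) (coef n N m N N 0 j)
      (coef n N m N N 1 i) (coef n N m N N 1 j)) : ℕ) : ℝ)) := by
    simp only [nsum_eq, Finset.sum_range]
    constructor
    · intro h; exact_mod_cast h
    · intro h; exact_mod_cast h
  rw [h5]
  simp only [h1, ← Finset.mul_sum]
  have h6 : (0 : ℝ) < 256 ^ N := by positivity
  set E := ∑ i, ∑ j, ‖decode n N m 0 0 0 i * decode n N m 0 0 1 j
      - decode n N m 0 0 0 j * decode n N m 0 0 1 i‖ ^ 2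
  have h7 : 2000 * ((n : ℝ) + 1) ^ 2 * (256 ^ N * E) = 256 ^ N * (2000 * ((n : ℝ) + 1) ^ 2 * E) := by
    ring
  rw [h7]
  constructor
  · intro h; nlinarith
  · intro h
    by_contra hcon
    push Not at hcon
    nlinarith

theorem br_avoid (n N m a b s u s' u' : ℕ) (G : Form) (hG : IsForm n G) :
    ‖evalC n G (pol N (decode n N m) ((a : ℤ) - N) ((b : ℤ) - N)
      (dy N ((s : ℤ) - 2 ^ N) ((u : ℤ) - 2 ^ N)))‖ ^ 6 ≤
      2 * (wt G : ℝ) ^ 4 * ‖evalC n G (pol N (decode n N m) ((a : ℤ) - N) ((b : ℤ) - N)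
      (dy N ((s' : ℤ) - 2 ^ N) ((u' : ℤ) - 2 ^ N)))‖ ^ 2
        + 300 * (wt G : ℝ) ^ 6 / 4 ^ N ↔
      nsq (evalG n G fun j => gV n N m a b s u j) ^ 3 * 4 ^ N ≤
        2 * wt G ^ 4 * nsq (evalG n G fun j => gV n N m a b s' u' j) * BB N ^ (4 * deg0 G) * 4 ^ N
          + 300 * wt G ^ 6 * BB N ^ (6 * deg0 G) := by
  have h1 := br_nsq_evalG n N m a b s u G hG
  have h2 := br_nsq_evalG n N m a b s' u' G hG
  set E := ‖evalC n G (pol N (decode n N m) ((a : ℤ) - N) ((b : ℤ) - N)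
      (dy N ((s : ℤ) - 2 ^ N) ((u : ℤ) - 2 ^ N)))‖
  set E' := ‖evalC n G (pol N (decode n N m) ((a : ℤ) - N) ((b : ℤ) - N)
      (dy N ((s' : ℤ) - 2 ^ N) ((u' : ℤ) - 2 ^ N)))‖
  set M := nsq (evalG n G fun j => gV n N m a b s u j)
  set M' := nsq (evalG n G fun j => gV n N m a b s' u' j)
  have h3 : (M ^ 3 * 4 ^ N ≤ 2 * wt G ^ 4 * M' * BB N ^ (4 * deg0 G) * 4 ^ N
          + 300 * wt G ^ 6 * BB N ^ (6 * deg0 G)) ↔
      ((M : ℝ) ^ 3 * 4 ^ N ≤ 2 * (wt G : ℝ) ^ 4 * M' * (BB N : ℝ) ^ (4 * deg0 G) * 4 ^ N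
          + 300 * (wt G : ℝ) ^ 6 * (BB N : ℝ) ^ (6 * deg0 G)) := by
    constructor
    · intro h; exact_mod_cast h
    · intro h; exact_mod_cast h
  rw [h3, h1, h2]
  set B := (BB N : ℝ) ^ deg0 G with hB
  have hBpos : 0 < B := pow_pos (br_BB_pos N) _
  have e2 : (BB N : ℝ) ^ (2 * deg0 G) = B ^ 2 := by rw [hB, ← pow_mul, mul_comm]
  have e4 : (BB N : ℝ) ^ (4 * deg0 G) = B ^ 4 := by rw [hB, ← pow_mul, mul_comm]
  have e6 : (BB N : ℝ) ^ (6 * deg0 G) = B ^ 6 := by rw [hB, ← pow_mul, mul_comm]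
  rw [e2, e4, e6]
  have hN4 : (0 : ℝ) < 4 ^ N := by positivity
  have hK : (0 : ℝ) < B ^ 6 * 4 ^ N := by positivity
  have l1 : (B ^ 2 * E ^ 2) ^ 3 * 4 ^ N = (B ^ 6 * 4 ^ N) * E ^ 6 := by ring
  have l2 : 2 * (wt G : ℝ) ^ 4 * (B ^ 2 * E' ^ 2) * B ^ 4 * 4 ^ N + 300 * (wt G : ℝ) ^ 6 * B ^ 6
      = (B ^ 6 * 4 ^ N) * (2 * (wt G : ℝ) ^ 4 * E' ^ 2 + 300 * (wt G : ℝ) ^ 6 / 4 ^ N) := by
    field_simp
  rw [l1, l2]
  exact (mul_le_mul_iff_right₀ hK).symm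

theorem cond_iff_approx (n : ℕ) (L Gs : List Form) (N m : ℕ) (hN : 1 ≤ N)
    (hL : ∀ P ∈ L, IsForm n P) (hG : ∀ G ∈ Gs, IsForm n G) :
    Cond n L Gs N m ↔ Approx n L Gs N (decode n N m) := by
  have _ := hN
  -- converting the quantifiers over centres
  have qab : ∀ P : ℤ → ℤ → Prop, (∀ a b : ℤ, |a| ≤ N → |b| ≤ N → P a b) ↔
      ∀ a < 2 * N + 1, ∀ b < 2 * N + 1, P ((a : ℤ) - N) ((b : ℤ) - N) := by
    intro P
    have h1 := br_qa N (fun a => ∀ b : ℤ, |b| ≤ N → P a b)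
    constructor
    · intro h a ha b hb
      exact (br_qa N (fun b => P ((a : ℤ) - N) b)).1
        (h1.1 (fun a ha b hb => h a b ha hb) a ha) b hb
    · intro h a b ha hb
      exact h1.2 (fun a ha => (br_qa N (fun b => P ((a : ℤ) - N) b)).2 (h a ha)) a ha b hb
  constructor
  · rintro ⟨c1, c2, c3, c4, c5, c6⟩
    refine ⟨?_, ?_, ?_, ?_, ?_, ?_⟩
    · refine (qab fun a b => ∀ k ≤ N, ∀ j, ‖decode n N m a b k j‖ ≤ 3 / 2 ^ k).2 ?_
      intro a ha b hb k hk j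
      exact (br_size n N m a b k j).2 (c1 a ha b hb k (Nat.lt_succ_of_le hk) j j.isLt)
    · refine (qab fun a b => ∀ s u : ℤ, ‖dy N s u‖ ≤ 1 →
        (1 : ℝ) / 2 ≤ ∑ j, ‖pol N (decode n N m) a b (dy N s u) j‖ ^ 2).2 ?_
      intro a ha b hb
      rw [br_qd N (fun s u => (1 : ℝ) / 2 ≤ ∑ j, ‖pol N (decode n N m) ((a : ℤ) - N) ((b : ℤ) - N)
        (dy N s u) j‖ ^ 2)]
      intro s hs u hu hn
      exact (br_nz n N m a b s u).2 (c2 a ha b hb s hs u hu hn)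
    · refine (qab fun a b => ∀ s u : ℤ, ‖dy N s u‖ ≤ 1 →
        ∀ P ∈ L, ‖evalC n P (pol N (decode n N m) a b (dy N s u))‖ ≤ 3 * (wt P : ℝ) / 2 ^ N).2 ?_
      intro a ha b hb
      rw [br_qd N (fun s u => ∀ P ∈ L, ‖evalC n P (pol N (decode n N m) ((a : ℤ) - N) ((b : ℤ) - N)
        (dy N s u))‖ ≤ 3 * (wt P : ℝ) / 2 ^ N)]
      intro s hs u hu hn P hP
      exact (br_eqs n N m a b s u P (hL P hP)).2 (c3 a ha b hb s hs u hu hn P hP)
    · intro A B A' B' hA hB hA' hB' S U S' U' e1 e2 n1 n2 i j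
      obtain ⟨h1, h2⟩ := br_dy_bound N S U n1
      obtain ⟨h3, h4⟩ := br_dy_bound N S' U' n2
      rw [abs_le] at hA hB hA' hB' h1 h2 h3 h4
      obtain ⟨a, rfl⟩ : ∃ a : ℕ, A = (a : ℤ) - N := ⟨(A + N).toNat, by omega⟩
      obtain ⟨b, rfl⟩ : ∃ b : ℕ, B = (b : ℤ) - N := ⟨(B + N).toNat, by omega⟩
      obtain ⟨a', rfl⟩ : ∃ a : ℕ, A' = (a : ℤ) - N := ⟨(A' + N).toNat, by omega⟩
      obtain ⟨b', rfl⟩ : ∃ b : ℕ, B' = (b : ℤ) - N := ⟨(B' + N).toNat, by omega⟩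
      have hex : ∀ S : ℤ, -2 ^ N ≤ S → ∃ s : ℕ, S = (s : ℤ) - 2 ^ N := by
        intro S hS
        refine ⟨(S + 2 ^ N).toNat, ?_⟩
        rw [Int.toNat_of_nonneg (by linarith)]; ring
      obtain ⟨s, rfl⟩ := hex S h1.1
      obtain ⟨u, rfl⟩ := hex U h2.1
      obtain ⟨s', rfl⟩ := hex S' h3.1
      obtain ⟨u', rfl⟩ := hex U' h4.1
      have hb2 : ∀ s : ℕ, (s : ℤ) - 2 ^ N ≤ 2 ^ N → s < 2 * 2 ^ N + 1 := by
        intro s hs
        zify
        linarith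
      refine (br_compat n N m a b s u a' b' s' u' i j).2 (c4 a (by omega) b (by omega) a'
        (by omega) b' (by omega) s (hb2 s h1.2) u (hb2 u h2.2) s' (hb2 s' h3.2) u'
        (hb2 u' h4.2) ?_ ?_ ((br_dy_norm N s u).2 n1) ((br_dy_norm N s' u').2 n2) i i.isLt j j.isLt)
      · zify
        linarith
      · zify
        linarith
    · exact (br_nonconst n N m).2 c5
    · intro A B hA hB S U S' U' n1 n2 G hGm
      obtain ⟨h1, h2⟩ := br_dy_bound N S U n1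
      obtain ⟨h3, h4⟩ := br_dy_bound N S' U' n2
      rw [abs_le] at hA hB h1 h2 h3 h4
      obtain ⟨a, rfl⟩ : ∃ a : ℕ, A = (a : ℤ) - N := ⟨(A + N).toNat, by omega⟩
      obtain ⟨b, rfl⟩ : ∃ b : ℕ, B = (b : ℤ) - N := ⟨(B + N).toNat, by omega⟩
      have hex : ∀ S : ℤ, -2 ^ N ≤ S → ∃ s : ℕ, S = (s : ℤ) - 2 ^ N := by
        intro S hS
        refine ⟨(S + 2 ^ N).toNat, ?_⟩
        rw [Int.toNat_of_nonneg (by linarith)]; ring
      obtain ⟨s, rfl⟩ := hex S h1.1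
      obtain ⟨u, rfl⟩ := hex U h2.1
      obtain ⟨s', rfl⟩ := hex S' h3.1
      obtain ⟨u', rfl⟩ := hex U' h4.1
      have hb2 : ∀ s : ℕ, (s : ℤ) - 2 ^ N ≤ 2 ^ N → s < 2 * 2 ^ N + 1 := by
        intro s hs
        zify
        linarith
      exact (br_avoid n N m a b s u s' u' G (hG G hGm)).2 (c6 a (by omega) b (by omega)
        s (hb2 s h1.2) u (hb2 u h2.2) s' (hb2 s' h3.2) u' (hb2 u' h4.2)
        ((br_dy_norm N s u).2 n1) ((br_dy_norm N s' u').2 n2) G hGm)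
  · rintro ⟨c1, c2, c3, c4, c5, c6⟩
    have hNa : ∀ a : ℕ, a < 2 * N + 1 → |(a : ℤ) - N| ≤ N := by
      intro a ha
      rw [abs_le]; omega
    refine ⟨?_, ?_, ?_, ?_, ?_, ?_⟩
    · intro a ha b hb k hk j hj
      exact (br_size n N m a b k ⟨j, hj⟩).1 (c1 _ _ (hNa a ha) (hNa b hb) k
        (Nat.lt_succ_iff.1 hk) ⟨j, hj⟩)
    · intro a ha b hb s _ u _ hn
      exact (br_nz n N m a b s u).1 (c2 _ _ (hNa a ha) (hNa b hb) _ _ ((br_dy_norm N s u).1 hn))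
    · intro a ha b hb s _ u _ hn P hP
      exact (br_eqs n N m a b s u P (hL P hP)).1 (c3 _ _ (hNa a ha) (hNa b hb) _ _
        ((br_dy_norm N s u).1 hn) P hP)
    · intro a ha b hb a' ha' b' hb' s _ u _ s' _ u' _ e1 e2 n1 n2 i hi j hj
      refine (br_compat n N m a b s u a' b' s' u' ⟨i, hi⟩ ⟨j, hj⟩).1 (c4 _ _ _ _ (hNa a ha)
        (hNa b hb) (hNa a' ha') (hNa b' hb') _ _ _ _ ?_ ?_ ((br_dy_norm N s u).1 n1)
        ((br_dy_norm N s' u').1 n2) ⟨i, hi⟩ ⟨j, hj⟩)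
      · zify at e1
        linarith
      · zify at e2
        linarith
    · exact (br_nonconst n N m).1 c5
    · intro a ha b hb s _ u _ s' _ u' _ n1 n2 G hGm
      exact (br_avoid n N m a b s u s' u' G (hG G hGm)).1 (c6 _ _ (hNa a ha) (hNa b hb) _ _ _ _
        ((br_dy_norm N s u).1 n1) ((br_dy_norm N s' u').1 n2) G hGm)

end Pool.Agent.Work.MP_90e0ad_ag
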