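import Mathlib
import Pool.Agent.Work.MP_90e0ad_ag.Defs

/-!
MP_90e0ad_ag, module EMB: the embedding of projective space into matrices, [v] ↦ v v^* / |v|^2.

emb_mk: rep = lam • v (Projectivization.mk_rep / exists_smul_eq_mk_rep), the scalar cancels.
emb_injective: if v v^*/|v|^2 = w w^*/|w|^2 choose j with w j ≠ 0; then
v i * conj (v j) = (|v|^2/|w|^2) * conj (w j) * w i, and taking i = j shows v j ≠ 0: so v is a
multiple of w.
emb_contDiff: ContDiff ℝ 1 is local; near z the map is z ↦ F i z * conj (F j z) / ∑ |F k z|^2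
with F holomorphic (hence ContDiffAt ℝ), nonvanishing.
-/

namespace Pool.Agent.Work.MP_90e0ad_ag

open ComplexConjugate Filter Topology

noncomputable def emb (n : ℕ) (x : PP n) : Fin (n + 1) → Fin (n + 1) → ℂ := fun i j =>
  x.rep i * conj (x.rep j) / ((∑ k, ‖x.rep k‖ ^ 2 : ℝ) : ℂ)

private theorem sumsq_pos (n : ℕ) (v : Fin (n + 1) → ℂ) (hv : v ≠ 0) : 0 < ∑ k, ‖v k‖ ^ 2 := by
  obtain ⟨i, hi⟩ := Function.ne_iff.1 hv
  have h1 : 0 < ‖v i‖ ^ 2 := by
    have : 0 < ‖v i‖ := norm_pos_iff.2 hi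
    positivity
  exact lt_of_lt_of_le h1 (Finset.single_le_sum (f := fun k => ‖v k‖ ^ 2)
    (fun k _ => by positivity) (Finset.mem_univ i))

theorem emb_mk (n : ℕ) (v : Fin (n + 1) → ℂ) (hv : v ≠ 0) :
    emb n (Projectivization.mk ℂ v hv) =
      fun i j => v i * conj (v j) / ((∑ k, ‖v k‖ ^ 2 : ℝ) : ℂ) := by
  obtain ⟨a, ha⟩ := Projectivization.exists_smul_eq_mk_rep ℂ v hv
  have h1 : (Projectivization.mk ℂ v hv).rep = fun i => (a : ℂ) * v i := by
    rw [← ha]; rfl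
  funext i j
  unfold emb
  rw [h1]
  have hpos := sumsq_pos n v hv
  have ha0 : (a : ℂ) ≠ 0 := a.ne_zero
  have hs : (∑ k, ‖(a : ℂ) * v k‖ ^ 2) = ‖(a : ℂ)‖ ^ 2 * ∑ k, ‖v k‖ ^ 2 := by
    rw [Finset.mul_sum]
    apply Finset.sum_congr rfl
    intro k _
    rw [norm_mul, mul_pow]
  rw [hs]
  have hS : ((∑ k, ‖v k‖ ^ 2 : ℝ) : ℂ) ≠ 0 := by exact_mod_cast hpos.ne'
  have hna : ((‖(a : ℂ)‖ ^ 2 : ℝ) : ℂ) = (a : ℂ) * conj (a : ℂ) := by
    rw [Complex.mul_conj, Complex.normSq_eq_norm_sq]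
  have hca : conj (a : ℂ) ≠ 0 := by simpa using ha0
  rw [Complex.ofReal_mul, hna, map_mul]
  field_simp

theorem emb_injective (n : ℕ) : Function.Injective (emb n) := by
  intro x y hxy
  induction x using Projectivization.ind with
  | h v hv =>
  induction y using Projectivization.ind with
  | h w hw =>
  rw [emb_mk, emb_mk] at hxy
  obtain ⟨j, hj⟩ := Function.ne_iff.1 hw
  have hj' : w j ≠ 0 := by simpa using hj
  have hSv := sumsq_pos n v hv
  have hSw := sumsq_pos n w hw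
  set Sv : ℂ := ((∑ k, ‖v k‖ ^ 2 : ℝ) : ℂ) with hSvd
  set Sw : ℂ := ((∑ k, ‖w k‖ ^ 2 : ℝ) : ℂ) with hSwd
  have hSv0 : Sv ≠ 0 := by rw [hSvd]; exact_mod_cast hSv.ne'
  have hSw0 : Sw ≠ 0 := by rw [hSwd]; exact_mod_cast hSw.ne'
  have key : ∀ i, v i * conj (v j) / Sv = w i * conj (w j) / Sw := fun i =>
    congrFun (congrFun hxy i) j
  have hvj : conj (v j) ≠ 0 := by
    intro h0
    have := key j
    rw [h0, mul_zero, zero_div, eq_comm, div_eq_zero_iff] at this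
    rcases this with h | h
    · rcases mul_eq_zero.1 h with h | h
      · exact hj' h
      · exact hj' (by simpa using h)
    · exact hSw0 h
  have hwj : conj (w j) ≠ 0 := by simpa using hj'
  rw [Projectivization.mk_eq_mk_iff']
  refine ⟨(conj (w j) * Sv) / (conj (v j) * Sw), ?_⟩
  funext i
  have hk := key i
  rw [div_eq_div_iff hSv0 hSw0] at hk
  simp only [Pi.smul_apply, smul_eq_mul]
  rw [div_mul_eq_mul_div, div_eq_iff (mul_ne_zero hvj hSw0)]
  linear_combination -hk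

theorem emb_contDiff (n : ℕ) (f : ℂ → PP n) (hf : IsHolo n f) :
    ContDiff ℝ 1 fun z => emb n (f z) := by
  rw [contDiff_iff_contDiffAt]
  intro z
  obtain ⟨F, U, hU, hF, hmk⟩ := hf z
  obtain ⟨V, hVU, hVo, hzV⟩ := mem_nhds_iff.1 hU
  have hFc : ContDiffAt ℝ 1 F z := by
    have h1 : AnalyticAt ℂ F z := (hF.mono hVU).analyticAt (hVo.mem_nhds hzV)
    exact (h1.contDiffAt (n := 1)).restrict_scalars ℝ
  have hFi : ∀ i, ContDiffAt ℝ 1 (fun z => F z i) z := fun i => contDiffAt_pi.1 hFc i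
  have heq : (fun z => emb n (f z)) =ᶠ[𝓝 z]
      fun z => fun i j => F z i * conj (F z j) / ((∑ k, ‖F z k‖ ^ 2 : ℝ) : ℂ) := by
    filter_upwards [hU] with w hw
    obtain ⟨h0, h1⟩ := hmk w hw
    rw [h1, emb_mk]
  refine ContDiffAt.congr_of_eventuallyEq ?_ heq
  obtain ⟨h0, -⟩ := hmk z (mem_of_mem_nhds hU)
  have hpos := sumsq_pos n (F z) h0
  rw [contDiffAt_pi]
  intro i
  rw [contDiffAt_pi]
  intro j
  have hconj : ContDiffAt ℝ 1 (fun z => conj (F z j)) z :=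
    (Complex.conjCLE.contDiff.contDiffAt).comp z (hFi j)
  have hsum : ContDiffAt ℝ 1 (fun z => ((∑ k, ‖F z k‖ ^ 2 : ℝ) : ℂ)) z := by
    have h2 : ContDiffAt ℝ 1 (fun z => (∑ k, ‖F z k‖ ^ 2 : ℝ)) z := by
      apply ContDiffAt.sum
      intro k _
      exact (hFi k).norm_sq ℝ
    exact (Complex.ofRealCLM.contDiff.contDiffAt).comp z h2
  simp only [div_eq_mul_inv]
  refine ((hFi i).mul hconj).mul (hsum.inv ?_)
  exact_mod_cast hpos.ne'

end Pool.Agent.Work.MP_90e0ad_ag
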