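import Mathlib
import Pool.Agent.Work.MP_90e0ad_ag.Emb

/-!
MP_90e0ad_ag, module CHART: a bounded holomorphic lift on a disc where emb varies little.

Let u = (f p).rep / |(f p).rep| (Euclidean norm), a unit vector representing f p. For x = f ζ let
h(x) = ∑ i, x.rep i * conj (u i). Since ∑ i, ∑ j, conj (u i) * emb x i j * u j = |h(x)|^2 / |x.rep|^2
and the same sum for f p is 1, the difference is at most
∑∑ |u i| |u j| ‖emb (f ζ) - emb (f p)‖ ≤ (n+1) ‖emb (f ζ) - emb (f p)‖ ≤ 1/2 (Cauchy-Schwarz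
(∑|u i|)^2 ≤ (n+1) ∑ |u i|^2). So |h|^2 ≥ |x.rep|^2 / 2 > 0 on the ball.
P ζ = (f ζ).rep / h (f ζ): independent of the representative, so locally equal to F / <F,u>
with F the local holomorphic lift: holomorphic. Norms: ∑ |P j|^2 = |rep|^2/|h|^2 ∈ [1, 2]
(≥ 1 by Cauchy-Schwarz |h| ≤ |rep|).
Derivative: ∑ P i conj (u i) = 1 identically, P p = u, so ∑ P'(p) i conj (u i) = 0. With
N(z) = ∑ |P|^2, N(p) = 1, the real derivative of N at p vanishes; so the real derivative of
emb∘f = P P^*/N at p in direction w is (w P')_i conj(u_j) + u_i conj(w P'_j), of sup norm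
≤ 2 |w| max |P'|. Hence ‖fderiv‖ ≤ 2 max|P'|, ‖fderiv‖^2 ≤ 4 ∑|P'_j|^2, while by Lagrange's
identity and orthogonality ∑∑ |u_i P'_j - u_j P'_i|^2 = 2 ∑ |P'_j|^2.
-/

namespace Pool.Agent.Work.MP_90e0ad_ag

open Metric ComplexConjugate Filter Topology

private noncomputable def HH (n : ℕ) (u : Fin (n + 1) → ℂ) (v : Fin (n + 1) → ℂ) : ℂ :=
  ∑ i, v i * conj (u i)

private theorem HH_smul (n : ℕ) (u v : Fin (n + 1) → ℂ) (a : ℂ) :
    HH n u (fun i => a * v i) = a * HH n u v := by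
  unfold HH
  rw [Finset.mul_sum]
  exact Finset.sum_congr rfl fun i _ => by ring

/-- Cauchy-Schwarz -/
private theorem HH_le (n : ℕ) (u v : Fin (n + 1) → ℂ) (hu : ∑ i, ‖u i‖ ^ 2 = 1) :
    ‖HH n u v‖ ^ 2 ≤ ∑ i, ‖v i‖ ^ 2 := by
  have h1 : ‖HH n u v‖ ≤ ∑ i, ‖v i‖ * ‖u i‖ := by
    unfold HH
    refine (norm_sum_le _ _).trans (le_of_eq ?_)
    exact Finset.sum_congr rfl fun i _ => by rw [norm_mul, Complex.norm_conj]
  calc ‖HH n u v‖ ^ 2 ≤ (∑ i, ‖v i‖ * ‖u i‖) ^ 2 := by
        gcongr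
    _ ≤ (∑ i, ‖v i‖ ^ 2) * ∑ i, ‖u i‖ ^ 2 := Finset.sum_mul_sq_le_sq_mul_sq _ _ _
    _ = ∑ i, ‖v i‖ ^ 2 := by rw [hu, mul_one]

private theorem quad (n : ℕ) (u v : Fin (n + 1) → ℂ) (S : ℂ) :
    ∑ i, ∑ j, conj (u i) * (v i * conj (v j) / S) * u j = HH n u v * conj (HH n u v) / S := by
  unfold HH
  rw [map_sum, Finset.sum_mul, Finset.sum_div]
  apply Finset.sum_congr rfl
  intro i _
  rw [Finset.mul_sum, Finset.sum_div]
  apply Finset.sum_congr rfl
  intro j _
  rw [map_mul, Complex.conj_conj]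
  ring

private theorem lagrange (n : ℕ) (u q : Fin (n + 1) → ℂ) (hu : ∑ i, ‖u i‖ ^ 2 = 1)
    (h0 : ∑ i, q i * conj (u i) = 0) :
    ∑ i, ∑ j, ‖u i * q j - u j * q i‖ ^ 2 = 2 * ∑ i, ‖q i‖ ^ 2 := by
  have key : ∀ i j, ((‖u i * q j - u j * q i‖ ^ 2 : ℝ) : ℂ)
      = ((‖u i‖ ^ 2 : ℝ) : ℂ) * ((‖q j‖ ^ 2 : ℝ) : ℂ) + ((‖u j‖ ^ 2 : ℝ) : ℂ) * ((‖q i‖ ^ 2 : ℝ) : ℂ)
        - (conj (q i) * u i) * (q j * conj (u j)) - (q i * conj (u i)) * (conj (q j) * u j) := by
    intro i j
    have e : ∀ z : ℂ, ((‖z‖ ^ 2 : ℝ) : ℂ) = z * conj z := by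
      intro z; rw [Complex.mul_conj, Complex.normSq_eq_norm_sq]
    rw [e, e, e, e, e]
    simp only [map_sub, map_mul]
    ring
  have hc : ∑ i, conj (q i) * u i = 0 := by
    have := congrArg conj h0
    rw [map_sum, map_zero] at this
    rw [← this]
    exact Finset.sum_congr rfl fun i _ => by rw [map_mul, Complex.conj_conj]
  have hmain : ((∑ i, ∑ j, ‖u i * q j - u j * q i‖ ^ 2 : ℝ) : ℂ) = ((2 * ∑ i, ‖q i‖ ^ 2 : ℝ) : ℂ) := by
    rw [Complex.ofReal_sum]
    simp_rw [Complex.ofReal_sum, key]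
    simp_rw [Finset.sum_sub_distrib, Finset.sum_add_distrib, ← Finset.mul_sum, ← Finset.sum_mul]
    rw [h0, hc]
    rw [← Complex.ofReal_sum, ← Complex.ofReal_sum, hu]
    push_cast
    ring
  exact_mod_cast hmain

theorem chart (n : ℕ) (f : ℂ → PP n) (hf : IsHolo n f) (p : ℂ) (R : ℝ) (hR : 0 < R)
    (h : ∀ ζ ∈ ball p R, ((n : ℝ) + 1) * ‖emb n (f ζ) - emb n (f p)‖ ≤ 1 / 2) :
    ∃ P : ℂ → Fin (n + 1) → ℂ, DifferentiableOn ℂ P (ball p R) ∧
      (∀ ζ ∈ ball p R, ∃ h0 : P ζ ≠ 0, f ζ = Projectivization.mk ℂ (P ζ) h0) ∧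
      (∀ ζ ∈ ball p R, 1 ≤ ∑ j, ‖P ζ j‖ ^ 2 ∧ ∑ j, ‖P ζ j‖ ^ 2 ≤ 2) ∧
      ‖fderiv ℝ (fun z => emb n (f z)) p‖ ^ 2 ≤
        2 * ∑ i, ∑ j, ‖P p i * deriv (fun z => P z j) p - P p j * deriv (fun z => P z i) p‖ ^ 2 := by
  have hpos : ∀ v : Fin (n + 1) → ℂ, v ≠ 0 → 0 < ∑ k, ‖v k‖ ^ 2 := by
    intro v hv
    obtain ⟨i, hi⟩ := Function.ne_iff.1 hv
    have h1 : 0 < ‖v i‖ ^ 2 := by
      have : 0 < ‖v i‖ := norm_pos_iff.2 hi
      positivity
    exact lt_of_lt_of_le h1 (Finset.single_le_sum (f := fun k => ‖v k‖ ^ 2)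
      (fun k _ => by positivity) (Finset.mem_univ i))
  have hrep : ∀ x : PP n, x.rep ≠ 0 := fun x => x.rep_nonzero
  -- unit vector
  set v0 := (f p).rep with hv0
  have hS0 : 0 < ∑ k, ‖v0 k‖ ^ 2 := hpos v0 (hrep _)
  set s : ℝ := Real.sqrt (∑ k, ‖v0 k‖ ^ 2) with hs
  have hspos : 0 < s := Real.sqrt_pos.2 hS0
  have hs2 : s ^ 2 = ∑ k, ‖v0 k‖ ^ 2 := Real.sq_sqrt hS0.le
  have hsC : (s : ℂ) ≠ 0 := by exact_mod_cast hspos.ne'
  set u : Fin (n + 1) → ℂ := fun i => v0 i / s with hu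
  have hu1 : ∑ i, ‖u i‖ ^ 2 = 1 := by
    have : ∀ i, ‖u i‖ ^ 2 = ‖v0 i‖ ^ 2 / s ^ 2 := by
      intro i
      simp only [hu]
      rw [norm_div, Complex.norm_real, Real.norm_eq_abs, abs_of_pos hspos, div_pow]
    simp_rw [this]
    rw [← Finset.sum_div, ← hs2, div_self (by positivity)]
  have hule : ∀ i, ‖u i‖ ≤ 1 := by
    intro i
    have : ‖u i‖ ^ 2 ≤ 1 := by
      rw [← hu1]
      exact Finset.single_le_sum (f := fun k => ‖u k‖ ^ 2) (fun k _ => by positivity)
        (Finset.mem_univ i)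
    nlinarith [norm_nonneg (u i)]
  have hembp : ∀ i j, emb n (f p) i j = u i * conj (u j) := by
    intro i j
    unfold emb
    rw [← hv0, ← hs2]
    simp only [hu]
    rw [map_div₀, Complex.conj_ofReal]
    push_cast
    field_simp
  -- lower bound for H
  have hlow : ∀ ζ ∈ ball p R, (1 : ℝ) / 2 * ∑ k, ‖(f ζ).rep k‖ ^ 2 ≤ ‖HH n u (f ζ).rep‖ ^ 2 := by
    intro ζ hζ
    have hSpos := hpos _ (hrep (f ζ))
    set S : ℝ := ∑ k, ‖(f ζ).rep k‖ ^ 2 with hSd
    have hSC : (S : ℂ) ≠ 0 := by exact_mod_cast hSpos.ne'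
    have q1 : ∑ i, ∑ j, conj (u i) * emb n (f ζ) i j * u j
        = HH n u (f ζ).rep * conj (HH n u (f ζ).rep) / S := by
      rw [← quad]; rfl
    have q2 : ∑ i, ∑ j, conj (u i) * emb n (f p) i j * u j = 1 := by
      have : ∀ i j, conj (u i) * emb n (f p) i j * u j
          = ((‖u i‖ ^ 2 : ℝ) : ℂ) * ((‖u j‖ ^ 2 : ℝ) : ℂ) := by
        intro i j
        rw [hembp]
        have e : ∀ z : ℂ, ((‖z‖ ^ 2 : ℝ) : ℂ) = z * conj z := by
          intro z; rw [Complex.mul_conj, Complex.normSq_eq_norm_sq]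
        rw [e, e]; ring
      simp_rw [this, ← Finset.mul_sum]
      rw [← Finset.sum_mul, ← Complex.ofReal_sum, hu1]
      simp
    have hdiff : ‖HH n u (f ζ).rep * conj (HH n u (f ζ).rep) / S - 1‖ ≤ 1 / 2 := by
      rw [← q1, ← q2, ← Finset.sum_sub_distrib]
      simp_rw [← Finset.sum_sub_distrib]
      have hterm : ∀ i j, ‖conj (u i) * emb n (f ζ) i j * u j - conj (u i) * emb n (f p) i j * u j‖
          ≤ ‖u i‖ * ‖u j‖ * ‖emb n (f ζ) - emb n (f p)‖ := by
        intro i j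
        have e : conj (u i) * emb n (f ζ) i j * u j - conj (u i) * emb n (f p) i j * u j
            = conj (u i) * (emb n (f ζ) i j - emb n (f p) i j) * u j := by ring
        rw [e, norm_mul, norm_mul, Complex.norm_conj]
        have hn : ‖emb n (f ζ) i j - emb n (f p) i j‖ ≤ ‖emb n (f ζ) - emb n (f p)‖ := by
          have h1 := norm_le_pi_norm (emb n (f ζ) - emb n (f p)) i
          have h2 := norm_le_pi_norm ((emb n (f ζ) - emb n (f p)) i) j
          exact h2.trans h1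
        calc ‖u i‖ * ‖emb n (f ζ) i j - emb n (f p) i j‖ * ‖u j‖
            ≤ ‖u i‖ * ‖emb n (f ζ) - emb n (f p)‖ * ‖u j‖ := by gcongr
          _ = ‖u i‖ * ‖u j‖ * ‖emb n (f ζ) - emb n (f p)‖ := by ring
      calc ‖∑ i, ∑ j, (conj (u i) * emb n (f ζ) i j * u j - conj (u i) * emb n (f p) i j * u j)‖
          ≤ ∑ i, ∑ j, ‖u i‖ * ‖u j‖ * ‖emb n (f ζ) - emb n (f p)‖ := by
            refine norm_sum_le_of_le _ fun i _ => norm_sum_le_of_le _ fun j _ => hterm i j
        _ = (∑ i, ‖u i‖) ^ 2 * ‖emb n (f ζ) - emb n (f p)‖ := by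
            rw [sq, Finset.sum_mul_sum, Finset.sum_mul]
            exact Finset.sum_congr rfl fun i _ => by rw [Finset.sum_mul]
        _ ≤ (((n : ℝ) + 1) * 1) * ‖emb n (f ζ) - emb n (f p)‖ := by
            gcongr
            have := sq_sum_le_card_mul_sum_sq (s := (Finset.univ : Finset (Fin (n + 1))))
              (f := fun i => ‖u i‖)
            rw [hu1] at this
            simpa using this
        _ ≤ 1 / 2 := by rw [mul_one]; exact h ζ hζ
    have hreal : HH n u (f ζ).rep * conj (HH n u (f ζ).rep) / S - 1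
        = ((‖HH n u (f ζ).rep‖ ^ 2 / S - 1 : ℝ) : ℂ) := by
      rw [Complex.mul_conj, Complex.normSq_eq_norm_sq]
      push_cast
      ring
    rw [hreal, Complex.norm_real, Real.norm_eq_abs] at hdiff
    have := (abs_le.1 hdiff).1
    have h2 : (1 : ℝ) / 2 ≤ ‖HH n u (f ζ).rep‖ ^ 2 / S := by linarith
    rw [le_div_iff₀ hSpos] at h2
    exact h2
  have hHne : ∀ ζ ∈ ball p R, HH n u (f ζ).rep ≠ 0 := by
    intro ζ hζ h0
    have := hlow ζ hζ
    rw [h0] at this
    have h2 := hpos _ (hrep (f ζ))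
    simp at this
    linarith
  set P : ℂ → Fin (n + 1) → ℂ := fun ζ j => (f ζ).rep j / HH n u (f ζ).rep with hP
  -- local formula
  have hloc : ∀ (ζ : ℂ) (v : Fin (n + 1) → ℂ) (hv : v ≠ 0), f ζ = Projectivization.mk ℂ v hv →
      (∀ j, P ζ j = v j / HH n u v) ∧ (HH n u v = 0 ↔ HH n u (f ζ).rep = 0) := by
    intro ζ v hv hfv
    obtain ⟨a, ha⟩ := Projectivization.exists_smul_eq_mk_rep ℂ v hv
    have h1 : (f ζ).rep = fun i => (a : ℂ) * v i := by
      rw [hfv, ← ha]; rfl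
    have ha0 : (a : ℂ) ≠ 0 := a.ne_zero
    constructor
    · intro j
      simp only [hP]
      rw [h1, HH_smul]
      exact mul_div_mul_left _ _ ha0
    · rw [h1, HH_smul]
      simp [ha0]
  have hPmk : ∀ ζ ∈ ball p R, ∃ h0 : P ζ ≠ 0, f ζ = Projectivization.mk ℂ (P ζ) h0 := by
    intro ζ hζ
    have hH := hHne ζ hζ
    have hPe : P ζ = (HH n u (f ζ).rep)⁻¹ • (f ζ).rep := by
      funext j
      simp only [hP, Pi.smul_apply, smul_eq_mul]
      rw [div_eq_inv_mul]
    have h0 : P ζ ≠ 0 := by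
      rw [hPe]
      exact smul_ne_zero (inv_ne_zero hH) (hrep _)
    refine ⟨h0, ?_⟩
    conv_lhs => rw [← (f ζ).mk_rep]
    rw [Projectivization.mk_eq_mk_iff']
    refine ⟨HH n u (f ζ).rep, ?_⟩
    rw [hPe, smul_smul, mul_inv_cancel₀ hH, one_smul]
  have hPdiff : ∀ ζ ∈ ball p R, DifferentiableAt ℂ P ζ := by
    intro ζ hζ
    obtain ⟨F, U, hU, hF, hmk⟩ := hf ζ
    obtain ⟨h0, h1⟩ := hmk ζ (mem_of_mem_nhds hU)
    have hFd : DifferentiableAt ℂ F ζ := hF.differentiableAt hU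
    have hFj : ∀ j, DifferentiableAt ℂ (fun z => F z j) ζ := fun j => differentiableAt_pi.1 hFd j
    have hHF : HH n u (F ζ) ≠ 0 := fun h => hHne ζ hζ (((hloc ζ (F ζ) h0 h1).2).1 h)
    have hHd : DifferentiableAt ℂ (fun z => HH n u (F z)) ζ := by
      unfold HH
      apply DifferentiableAt.fun_sum
      intro i _
      exact (hFj i).mul_const _
    have heq : P =ᶠ[𝓝 ζ] fun z => fun j => F z j / HH n u (F z) := by
      filter_upwards [hU] with w hw
      obtain ⟨h2, h3⟩ := hmk w hw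
      funext j
      exact (hloc w (F w) h2 h3).1 j
    refine DifferentiableAt.congr_of_eventuallyEq ?_ heq
    rw [differentiableAt_pi]
    intro j
    exact (hFj j).div hHd hHF
  have hPn : ∀ ζ ∈ ball p R, ∑ j, ‖P ζ j‖ ^ 2
      = (∑ k, ‖(f ζ).rep k‖ ^ 2) / ‖HH n u (f ζ).rep‖ ^ 2 := by
    intro ζ _
    rw [Finset.sum_div]
    exact Finset.sum_congr rfl fun j _ => by simp only [hP]; rw [norm_div, div_pow]
  refine ⟨P, fun ζ hζ => (hPdiff ζ hζ).differentiableWithinAt, hPmk, ?_, ?_⟩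
  · intro ζ hζ
    rw [hPn ζ hζ]
    have hH : 0 < ‖HH n u (f ζ).rep‖ ^ 2 := by
      have := norm_pos_iff.2 (hHne ζ hζ)
      positivity
    constructor
    · rw [le_div_iff₀ hH, one_mul]
      exact HH_le n u _ hu1
    · rw [div_le_iff₀ hH]
      have := hlow ζ hζ
      linarith
  · -- derivative
    have hpb : p ∈ ball p R := mem_ball_self hR
    set q : Fin (n + 1) → ℂ := fun j => deriv (fun z => P z j) p with hq
    have hPd : ∀ j, HasDerivAt (fun z => P z j) (q j) p := fun j =>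
      ((differentiableAt_pi.1 (hPdiff p hpb)) j).hasDerivAt
    have hPp : ∀ j, P p j = u j := by
      intro j
      simp only [hP]
      have hH : HH n u (f p).rep = s := by
        unfold HH
        have e : ∀ i, (f p).rep i * conj (u i) = ((‖v0 i‖ ^ 2 : ℝ) : ℂ) / s := by
          intro i
          simp only [hu]
          rw [← hv0, map_div₀, Complex.conj_ofReal, mul_div_assoc', Complex.mul_conj,
            Complex.normSq_eq_norm_sq]
        simp_rw [e]
        rw [← Finset.sum_div, ← Complex.ofReal_sum, ← hs2]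
        push_cast
        field_simp
      rw [hH]
    have hone : ∀ ζ ∈ ball p R, ∑ i, P ζ i * conj (u i) = 1 := by
      intro ζ hζ
      simp only [hP]
      simp_rw [div_mul_eq_mul_div]
      rw [← Finset.sum_div]
      exact div_self (hHne ζ hζ)
    have horth : ∑ i, q i * conj (u i) = 0 := by
      have h1 : HasDerivAt (fun ζ => ∑ i, P ζ i * conj (u i)) (∑ i, q i * conj (u i)) p := by
        apply HasDerivAt.fun_sum
        intro i _
        exact (hPd i).mul_const _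
      have h2 : (fun ζ => ∑ i, P ζ i * conj (u i)) =ᶠ[𝓝 p] fun _ => (1 : ℂ) := by
        filter_upwards [ball_mem_nhds p hR] with ζ hζ using hone ζ hζ
      have h3 : HasDerivAt (fun _ : ℂ => (1 : ℂ)) (∑ i, q i * conj (u i)) p :=
        h1.congr_of_eventuallyEq h2.symm
      exact h3.unique (hasDerivAt_const p (1 : ℂ))
    -- directional derivatives of emb ∘ f
    have hdir : ∀ (w : ℂ) (i j : Fin (n + 1)), (fderiv ℝ (fun z => emb n (f z)) p) w i j
        = (w * q i) * conj (u j) + u i * conj (w * q j) := by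
      intro w i j
      have hE : DifferentiableAt ℝ (fun z => emb n (f z)) p :=
        (emb_contDiff n f hf).contDiffAt.differentiableAt (by simp)
      have hline : HasDerivAt (fun t : ℝ => p + t * w) w 0 := by
        have := ((Complex.ofRealCLM.hasDerivAt (x := (0 : ℝ))).mul_const w).const_add p
        simpa using this
      have hp0 : p + ((0 : ℝ) : ℂ) * w = p := by simp
      have hE' : HasFDerivAt (fun z => emb n (f z)) (fderiv ℝ (fun z => emb n (f z)) p)
          (p + ((0 : ℝ) : ℂ) * w) := by rw [hp0]; exact hE.hasFDerivAt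
      have hA0 := hE'.comp_hasDerivAt (0 : ℝ) hline
      have hA : HasDerivAt (fun t : ℝ => emb n (f (p + t * w)))
          (fderiv ℝ (fun z => emb n (f z)) p w) 0 := hA0
      have hAij : HasDerivAt (fun t : ℝ => emb n (f (p + t * w)) i j)
          (fderiv ℝ (fun z => emb n (f z)) p w i j) 0 :=
        (hasDerivAt_pi.1 ((hasDerivAt_pi.1 hA) i)) j
      have hPt : ∀ k, HasDerivAt (fun t : ℝ => P (p + t * w) k) (w * q k) 0 := by
        intro k
        have h1 : HasDerivAt (fun z => P z k) (q k) (p + ((0 : ℝ) : ℂ) * w) := by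
          rw [hp0]; exact hPd k
        have h2 := h1.comp (0 : ℝ) hline
        rw [mul_comm (q k) w] at h2
        exact h2
      have hPc : ∀ k, HasDerivAt (fun t : ℝ => conj (P (p + t * w) k)) (conj (w * q k)) 0 := by
        intro k
        have h1 : HasFDerivAt (fun z : ℂ => conj z) (Complex.conjCLE : ℂ →L[ℝ] ℂ)
            (P (p + ((0 : ℝ) : ℂ) * w) k) := Complex.conjCLE.hasFDerivAt
        exact h1.comp_hasDerivAt (0 : ℝ) (hPt k)
      have hnum := (hPt i).mul (hPc j)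
      have hden : HasDerivAt (fun t : ℝ => ∑ k, P (p + t * w) k * conj (P (p + t * w) k))
          (∑ k, ((w * q k) * conj (P (p + ((0 : ℝ) : ℂ) * w) k)
            + P (p + ((0 : ℝ) : ℂ) * w) k * conj (w * q k))) 0 := by
        apply HasDerivAt.fun_sum
        intro k _
        exact (hPt k).mul (hPc k)
      have hdz : (∑ k, ((w * q k) * conj (P (p + ((0 : ℝ) : ℂ) * w) k)
            + P (p + ((0 : ℝ) : ℂ) * w) k * conj (w * q k))) = 0 := by
        rw [hp0]
        simp_rw [hPp]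
        rw [Finset.sum_add_distrib]
        have e1 : ∑ k, w * q k * conj (u k) = 0 := by
          have : ∀ k, w * q k * conj (u k) = w * (q k * conj (u k)) := fun k => by ring
          simp_rw [this]
          rw [← Finset.mul_sum, horth, mul_zero]
        have e2 : ∑ k, u k * conj (w * q k) = 0 := by
          have := congrArg conj e1
          rw [map_sum, map_zero] at this
          rw [← this]
          exact Finset.sum_congr rfl fun k _ => by
            simp only [map_mul, Complex.conj_conj]; ring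
        rw [e1, e2, add_zero]
      have hd0 : (∑ k, P (p + ((0 : ℝ) : ℂ) * w) k * conj (P (p + ((0 : ℝ) : ℂ) * w) k)) = 1 := by
        rw [hp0]
        simp_rw [hPp]
        have e : ∀ z : ℂ, z * conj z = ((‖z‖ ^ 2 : ℝ) : ℂ) := by
          intro z; rw [Complex.mul_conj, Complex.normSq_eq_norm_sq]
        simp_rw [e]
        rw [← Complex.ofReal_sum, hu1]; simp
      rw [hdz] at hden
      have hquot := hnum.div hden (by rw [hd0]; exact one_ne_zero)
      have heq : (fun t : ℝ => emb n (f (p + t * w)) i j) =ᶠ[𝓝 0]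
          fun t : ℝ => (P (p + t * w) i * conj (P (p + t * w) j))
            / (∑ k, P (p + t * w) k * conj (P (p + t * w) k)) := by
        have hcont : ContinuousAt (fun t : ℝ => p + t * w) 0 := hline.continuousAt
        have hmem : ∀ᶠ t : ℝ in 𝓝 0, p + t * w ∈ ball p R := by
          apply hcont.preimage_mem_nhds
          rw [hp0]
          exact ball_mem_nhds p hR
        filter_upwards [hmem] with t ht
        obtain ⟨h0, h1⟩ := hPmk _ ht
        have hsum : ((∑ k, ‖P (p + t * w) k‖ ^ 2 : ℝ) : ℂ)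
            = ∑ k, P (p + t * w) k * conj (P (p + t * w) k) := by
          rw [Complex.ofReal_sum]
          exact Finset.sum_congr rfl fun k _ => by rw [Complex.mul_conj, Complex.normSq_eq_norm_sq]
        rw [h1, emb_mk, ← hsum]
      have hfin := hquot.congr_of_eventuallyEq heq
      have hu2 := hAij.unique hfin
      rw [hu2]
      simp only [Pi.mul_apply]
      rw [hd0, hp0, hPp, hPp]
      simp
    set m : ℝ := Real.sqrt (∑ k, ‖q k‖ ^ 2) with hm
    have hmnn : 0 ≤ m := Real.sqrt_nonneg _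
    have hm2 : m ^ 2 = ∑ k, ‖q k‖ ^ 2 := Real.sq_sqrt (Finset.sum_nonneg fun k _ => by positivity)
    have hqm : ∀ k, ‖q k‖ ≤ m := by
      intro k
      apply Real.le_sqrt_of_sq_le
      exact Finset.single_le_sum (f := fun k => ‖q k‖ ^ 2) (fun k _ => by positivity)
        (Finset.mem_univ k)
    have hop : ‖fderiv ℝ (fun z => emb n (f z)) p‖ ≤ 2 * m := by
      apply ContinuousLinearMap.opNorm_le_bound _ (by positivity)
      intro w
      rw [pi_norm_le_iff_of_nonneg (by positivity)]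
      intro i
      rw [pi_norm_le_iff_of_nonneg (by positivity)]
      intro j
      rw [hdir w i j]
      calc ‖w * q i * conj (u j) + u i * conj (w * q j)‖
          ≤ ‖w * q i * conj (u j)‖ + ‖u i * conj (w * q j)‖ := norm_add_le _ _
        _ = ‖w‖ * ‖q i‖ * ‖u j‖ + ‖u i‖ * (‖w‖ * ‖q j‖) := by
            rw [norm_mul, norm_mul, Complex.norm_conj, norm_mul, Complex.norm_conj, norm_mul]
        _ ≤ ‖w‖ * m * 1 + 1 * (‖w‖ * m) := by
            gcongr
            · exact hqm i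
            · exact hule j
            · exact hule i
            · exact hqm j
        _ = 2 * m * ‖w‖ := by ring
    have hlag := lagrange n u q hu1 horth
    simp_rw [hPp]
    change _ ≤ 2 * ∑ i, ∑ j, ‖u i * q j - u j * q i‖ ^ 2
    rw [hlag, ← hm2]
    calc ‖fderiv ℝ (fun z => emb n (f z)) p‖ ^ 2 ≤ (2 * m) ^ 2 := by gcongr
      _ = 2 * (2 * m ^ 2) := by ring

end Pool.Agent.Work.MP_90e0ad_ag
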