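import Mathlib

/-!
MP_90e0ad_ag, module RESCALE: Brody-Zalcman rescaling for a C^1 map.

g is not constant, so D = fderiv ℝ g is nonzero at some a; let c = ‖D a‖ > 0, R = 2 κ r / c.
The continuous function z ↦ (R - ‖z - a‖) * ‖D z‖ on closedBall a R attains its maximum m at z0;
m ≥ R c = 2 κ r > 0, so ‖z0 - a‖ < R and ‖D z0‖ > 0. Let ρ = κ / ‖D z0‖.
For ‖ζ‖ ≤ r: ρ r ≤ (R - ‖z0 - a‖) / 2 since (R - ‖z0-a‖) ‖D z0‖ = m ≥ 2 κ r. So
z = z0 + ρ ζ satisfies R - ‖z - a‖ ≥ (R - ‖z0 - a‖)/2 > 0 and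
‖D z‖ ≤ m / (R - ‖z-a‖) ≤ 2 m / (R - ‖z0 - a‖) = 2 ‖D z0‖.
-/

namespace Pool.Agent.Work.MP_90e0ad_ag

theorem rescale {E : Type*} [NormedAddCommGroup E] [NormedSpace ℝ E] (g : ℂ → E)
    (hg : ContDiff ℝ 1 g) (hne : ∃ z w, g z ≠ g w) {κ r : ℝ} (hκ : 0 < κ) (hr : 0 < r) :
    ∃ (z0 : ℂ) (ρ : ℝ), 0 < ρ ∧ ρ * ‖fderiv ℝ g z0‖ = κ ∧
      ∀ ζ : ℂ, ‖ζ‖ ≤ r → ρ * ‖fderiv ℝ g (z0 + ρ * ζ)‖ ≤ 2 * κ := by
  have hcont : Continuous (fderiv ℝ g) := hg.continuous_fderiv (by simp)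
  have hdiff : Differentiable ℝ g := hg.differentiable (by simp)
  obtain ⟨a, ha⟩ : ∃ a, fderiv ℝ g a ≠ 0 := by
    by_contra hall
    push Not at hall
    obtain ⟨z, w, hzw⟩ := hne
    exact hzw (is_const_of_fderiv_eq_zero hdiff hall z w)
  set c := ‖fderiv ℝ g a‖ with hc
  have hcpos : 0 < c := norm_pos_iff.2 ha
  set R := 2 * κ * r / c with hR
  have hRpos : 0 < R := by positivity
  set F : ℂ → ℝ := fun z => (R - ‖z - a‖) * ‖fderiv ℝ g z‖ with hF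
  have hFc : Continuous F := by
    apply Continuous.mul
    · exact continuous_const.sub ((continuous_id.sub continuous_const).norm)
    · exact hcont.norm
  obtain ⟨z0, hz0, hmax⟩ := (isCompact_closedBall a R).exists_isMaxOn
    ⟨a, Metric.mem_closedBall_self hRpos.le⟩ hFc.continuousOn
  have hm : 2 * κ * r ≤ F z0 := by
    have h1 : F a ≤ F z0 := hmax (Metric.mem_closedBall_self hRpos.le)
    have h2 : F a = 2 * κ * r := by
      simp only [hF, sub_self, norm_zero, sub_zero, ← hc, hR]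
      field_simp
    linarith
  have hmpos : 0 < F z0 := lt_of_lt_of_le (by positivity) hm
  have hz0' : ‖z0 - a‖ ≤ R := by simpa [dist_eq_norm] using hz0
  have hDnn : 0 ≤ ‖fderiv ℝ g z0‖ := norm_nonneg _
  have hRz : 0 < R - ‖z0 - a‖ := by
    rcases (sub_nonneg.2 hz0').lt_or_eq with h | h
    · exact h
    · exfalso
      simp only [hF] at hmpos
      rw [← h] at hmpos
      simp at hmpos
  have hD : 0 < ‖fderiv ℝ g z0‖ := by
    rcases hDnn.lt_or_eq with h | h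
    · exact h
    · exfalso
      simp only [hF] at hmpos
      rw [← h] at hmpos
      simp at hmpos
  refine ⟨z0, κ / ‖fderiv ℝ g z0‖, by positivity, by field_simp, fun ζ hζ => ?_⟩
  set ρ := κ / ‖fderiv ℝ g z0‖ with hρ
  have hρpos : 0 < ρ := by positivity
  have hρr : ρ * r ≤ (R - ‖z0 - a‖) / 2 := by
    rw [hρ, div_mul_eq_mul_div, div_le_iff₀ hD]
    simp only [hF] at hm
    linarith
  have hnorm : ‖(z0 + ρ * ζ) - a‖ ≤ ‖z0 - a‖ + (R - ‖z0 - a‖) / 2 := by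
    have e : (z0 + ρ * ζ) - a = (z0 - a) + ρ * ζ := by ring
    rw [e]
    refine (norm_add_le _ _).trans ?_
    have h3 : ‖(ρ : ℂ) * ζ‖ ≤ ρ * r := by
      rw [norm_mul, Complex.norm_real, Real.norm_eq_abs, abs_of_pos hρpos]
      exact mul_le_mul_of_nonneg_left hζ hρpos.le
    linarith
  have hin : z0 + ρ * ζ ∈ Metric.closedBall a R := by
    rw [Metric.mem_closedBall, dist_eq_norm]
    linarith
  have hFz : F (z0 + ρ * ζ) ≤ F z0 := hmax hin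
  have hlow : (R - ‖z0 - a‖) / 2 ≤ R - ‖(z0 + ρ * ζ) - a‖ := by linarith
  have hz : ‖fderiv ℝ g (z0 + ρ * ζ)‖ ≤ 2 * ‖fderiv ℝ g z0‖ := by
    by_contra hcon
    push Not at hcon
    have h5 : F z0 < F (z0 + ρ * ζ) := by
      simp only [hF]
      calc (R - ‖z0 - a‖) * ‖fderiv ℝ g z0‖ = (R - ‖z0 - a‖) / 2 * (2 * ‖fderiv ℝ g z0‖) := by ring
        _ < (R - ‖z0 - a‖) / 2 * ‖fderiv ℝ g (z0 + ρ * ζ)‖ := by
            apply mul_lt_mul_of_pos_left hcon; linarith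
        _ ≤ (R - ‖(z0 + ρ * ζ) - a‖) * ‖fderiv ℝ g (z0 + ρ * ζ)‖ :=
            mul_le_mul_of_nonneg_right hlow (norm_nonneg _)
    linarith
  calc ρ * ‖fderiv ℝ g (z0 + ρ * ζ)‖ ≤ ρ * (2 * ‖fderiv ℝ g z0‖) :=
        mul_le_mul_of_nonneg_left hz hρpos.le
    _ = 2 * κ := by rw [hρ]; field_simp

end Pool.Agent.Work.MP_90e0ad_ag
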