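import Mathlib
import Pool.Agent.Work.MP_90e0ad_ag.ChartsDef
import Pool.Agent.Work.MP_90e0ad_ag.Chart
import Pool.Agent.Work.MP_90e0ad_ag.Rescale
import Pool.Agent.Work.MP_90e0ad_ag.Bridge

/-!
MP_90e0ad_ag, module CHARTS.
κ = 1/(20(n+1)), r = 2N+10. rescale for g = emb ∘ f (emb_contDiff, nonconstant by
emb_injective) gives z0, ρ. Let f1 ζ = f (z0 + ρ ζ), again holomorphic with image in the same
sets. fderiv of emb ∘ f1 at ζ has norm ρ ‖fderiv (emb∘f) (z0+ρζ)‖ ≤ 2κ for ‖ζ‖ ≤ r. For |a|,|b| ≤ N,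
p = a + bi has ‖p‖ ≤ 2N, ball p 5 ⊂ ball 0 r, so ‖emb (f1 ζ) - emb (f1 p)‖ ≤ 2κ*5 =
1/(2(n+1)) (Convex.norm_image_sub_le_of_norm_fderiv_le). Apply chart with R = 5 and put
P a b t = (lift) (p + t). nonconst: at p = 0, κ^2 = ‖fderiv‖^2 ≤ 2 ΣΣ.., so ΣΣ ≥ κ^2/2 =
1/(800 (n+1)^2). compat: both vectors represent f1 of the same point, so they are proportional.
-/

namespace Pool.Agent.Work.MP_90e0ad_ag

open Metric

private theorem vanish_mk (n : ℕ) (Q : Form) (hQ : IsForm n Q) (v : Fin (n + 1) → ℂ) (hv : v ≠ 0) :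
    VanishAt n Q (Projectivization.mk ℂ v hv) ↔ evalC n Q v = 0 := by
  obtain ⟨d, hd⟩ := hQ
  obtain ⟨a, ha⟩ := Projectivization.exists_smul_eq_mk_rep ℂ v hv
  have h1 : (Projectivization.mk ℂ v hv).rep = fun i => (a : ℂ) * v i := by
    rw [← ha]; rfl
  unfold VanishAt
  rw [h1, evalC_smul n Q d hd]
  constructor
  · intro h
    rcases mul_eq_zero.1 h with h | h
    · exact absurd h (pow_ne_zero _ a.ne_zero)
    · exact h
  · intro h; rw [h, mul_zero]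

private theorem minors_of_mk (n : ℕ) (v w : Fin (n + 1) → ℂ) (hv : v ≠ 0) (hw : w ≠ 0)
    (h : Projectivization.mk ℂ v hv = Projectivization.mk ℂ w hw) (i j : Fin (n + 1)) :
    v i * w j - v j * w i = 0 := by
  rw [Projectivization.mk_eq_mk_iff] at h
  obtain ⟨a, ha⟩ := h
  have hi : v i = (a : ℂ) * w i := by rw [← ha]; rfl
  have hj : v j = (a : ℂ) * w j := by rw [← ha]; rfl
  rw [hi, hj]; ring

theorem exists_charts (n : ℕ) (L Gs : List Form) (hL : ∀ P ∈ L, IsForm n P)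
    (hG : ∀ G ∈ Gs, IsForm n G) (f : ℂ → PP n) (hf : Bad n L Gs f) (N : ℕ) :
    ∃ P, Charts n L Gs N P := by
  obtain ⟨hholo, hY, hS, z1, w1, hne⟩ := hf
  have hg := emb_contDiff n f hholo
  have hgd : Differentiable ℝ (fun z => emb n (f z)) := hg.differentiable (by simp)
  set κ : ℝ := 1 / (20 * ((n : ℝ) + 1)) with hκ
  have hκpos : 0 < κ := by positivity
  obtain ⟨z0, ρ, hρ, hρκ, hbd⟩ := rescale (fun z => emb n (f z)) hg
    ⟨z1, w1, fun h => hne (emb_injective n h)⟩ hκpos (r := 2 * (N : ℝ) + 10) (by positivity)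
  set f1 : ℂ → PP n := fun ζ => f (z0 + ρ * ζ) with hf1
  have haff : Differentiable ℂ (fun ζ : ℂ => z0 + ρ * ζ) := by fun_prop
  have hholo1 : IsHolo n f1 := by
    intro z
    obtain ⟨F, U, hU, hF, hmk⟩ := hholo (z0 + ρ * z)
    refine ⟨fun ζ => F (z0 + ρ * ζ), (fun ζ : ℂ => z0 + ρ * ζ) ⁻¹' U, ?_, ?_, ?_⟩
    · exact haff.continuous.continuousAt.preimage_mem_nhds hU
    · exact hF.comp haff.differentiableOn (fun x hx => hx)
    · intro w hw; exact hmk _ hw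
  have hder : ∀ ζ : ℂ, HasFDerivAt (fun ζ => emb n (f1 ζ))
      (ρ • fderiv ℝ (fun z => emb n (f z)) (z0 + ρ * ζ)) ζ := by
    intro ζ
    have h1 : HasFDerivAt (fun ζ : ℂ => z0 + (ρ : ℂ) * ζ) (ρ • ContinuousLinearMap.id ℝ ℂ) ζ := by
      have h2 : HasFDerivAt (fun ζ : ℂ => z0 + ρ • ζ) (ρ • ContinuousLinearMap.id ℝ ℂ) ζ :=
        ((hasFDerivAt_id ζ).const_smul ρ).const_add z0
      simpa [Complex.real_smul] using h2
    have h3 := ((hgd (z0 + ρ * ζ)).hasFDerivAt).comp ζ h1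
    have h4 : (fderiv ℝ (fun z => emb n (f z)) (z0 + ρ * ζ)).comp (ρ • ContinuousLinearMap.id ℝ ℂ)
        = ρ • fderiv ℝ (fun z => emb n (f z)) (z0 + ρ * ζ) := by
      ext x; simp
    rw [h4] at h3
    exact h3
  have hnorm : ∀ ζ : ℂ, ‖fderiv ℝ (fun ζ => emb n (f1 ζ)) ζ‖
      = ρ * ‖fderiv ℝ (fun z => emb n (f z)) (z0 + ρ * ζ)‖ := by
    intro ζ
    rw [(hder ζ).fderiv, norm_smul, Real.norm_eq_abs, abs_of_pos hρ]
  have hlip : ∀ x ∈ closedBall (0 : ℂ) (2 * (N : ℝ) + 10), ∀ y ∈ closedBall (0 : ℂ) (2 * (N : ℝ) + 10),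
      ‖emb n (f1 y) - emb n (f1 x)‖ ≤ 2 * κ * ‖y - x‖ := by
    intro x hx y hy
    refine (convex_closedBall (0 : ℂ) (2 * (N : ℝ) + 10)).norm_image_sub_le_of_norm_fderiv_le (𝕜 := ℝ)
      (f := fun ζ => emb n (f1 ζ)) (C := 2 * κ) (fun z _ => (hder z).differentiableAt) ?_ hx hy
    intro z hz
    rw [hnorm z]
    exact hbd z (by simpa using hz)
  have hcen : ∀ a b : ℤ, |a| ≤ N → |b| ≤ N → ‖(a : ℂ) + b * Complex.I‖ ≤ 2 * (N : ℝ) := by
    intro a b ha hb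
    have ha' : |(a : ℝ)| ≤ N := by exact_mod_cast ha
    have hb' : |(b : ℝ)| ≤ N := by exact_mod_cast hb
    calc ‖(a : ℂ) + b * Complex.I‖ ≤ ‖(a : ℂ)‖ + ‖(b : ℂ) * Complex.I‖ := norm_add_le _ _
      _ = |(a : ℝ)| + |(b : ℝ)| := by
          rw [norm_mul, Complex.norm_I, mul_one, Complex.norm_intCast, Complex.norm_intCast]
      _ ≤ 2 * (N : ℝ) := by linarith
  have hchart : ∀ a b : ℤ, ∃ P : ℂ → Fin (n + 1) → ℂ, |a| ≤ N → |b| ≤ N →
      DifferentiableOn ℂ P (ball ((a : ℂ) + b * Complex.I) 5) ∧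
      (∀ ζ ∈ ball ((a : ℂ) + b * Complex.I) 5, ∃ h0 : P ζ ≠ 0, f1 ζ = Projectivization.mk ℂ (P ζ) h0) ∧
      (∀ ζ ∈ ball ((a : ℂ) + b * Complex.I) 5, 1 ≤ ∑ j, ‖P ζ j‖ ^ 2 ∧ ∑ j, ‖P ζ j‖ ^ 2 ≤ 2) ∧
      ‖fderiv ℝ (fun z => emb n (f1 z)) ((a : ℂ) + b * Complex.I)‖ ^ 2 ≤
        2 * ∑ i, ∑ j, ‖P ((a : ℂ) + b * Complex.I) i
          * deriv (fun z => P z j) ((a : ℂ) + b * Complex.I)
          - P ((a : ℂ) + b * Complex.I) j * deriv (fun z => P z i) ((a : ℂ) + b * Complex.I)‖ ^ 2 := by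
    intro a b
    by_cases hab : |a| ≤ N ∧ |b| ≤ N
    · obtain ⟨ha, hb⟩ := hab
      obtain ⟨P, h1, h2, h3, h4⟩ := chart n f1 hholo1 ((a : ℂ) + b * Complex.I) 5 (by norm_num) (by
        intro ζ hζ
        have hc := hcen a b ha hb
        have hζ' : ‖ζ - ((a : ℂ) + b * Complex.I)‖ < 5 := by simpa [dist_eq_norm] using hζ
        have hζn : ‖ζ‖ ≤ 2 * (N : ℝ) + 10 := by
          have : ζ = (ζ - ((a : ℂ) + b * Complex.I)) + ((a : ℂ) + b * Complex.I) := by ring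
          rw [this]
          refine (norm_add_le _ _).trans ?_
          linarith
        have hl := hlip ((a : ℂ) + b * Complex.I) (by simpa using by linarith) ζ (by simpa using hζn)
        have hn1 : (0 : ℝ) < (n : ℝ) + 1 := by positivity
        calc ((n : ℝ) + 1) * ‖emb n (f1 ζ) - emb n (f1 ((a : ℂ) + b * Complex.I))‖
            ≤ ((n : ℝ) + 1) * (2 * κ * ‖ζ - ((a : ℂ) + b * Complex.I)‖) :=
              mul_le_mul_of_nonneg_left hl hn1.le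
          _ ≤ ((n : ℝ) + 1) * (2 * κ * 5) := by gcongr
          _ = 1 / 2 := by rw [hκ]; field_simp; norm_num)
      exact ⟨P, fun _ _ => ⟨h1, h2, h3, h4⟩⟩
    · exact ⟨0, fun ha hb => absurd ⟨ha, hb⟩ hab⟩
  choose Pf hPf using hchart
  have hmem : ∀ (a b : ℤ) (t : ℂ), t ∈ ball (0 : ℂ) 5 →
      (a : ℂ) + b * Complex.I + t ∈ ball ((a : ℂ) + b * Complex.I) 5 := by
    intro a b t ht
    simpa [dist_eq_norm] using ht
  refine ⟨fun a b t => Pf a b ((a : ℂ) + b * Complex.I + t), ?_, ?_, ?_, ?_, ?_, ?_, ?_⟩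
  · intro a b ha hb
    exact (hPf a b ha hb).1.comp (by fun_prop) (fun t ht => hmem a b t ht)
  · intro a b ha hb t ht
    exact ((hPf a b ha hb).2.2.1 _ (hmem a b t ht)).1
  · intro a b ha hb t ht
    exact ((hPf a b ha hb).2.2.1 _ (hmem a b t ht)).2
  · intro a b ha hb t ht Q hQ
    obtain ⟨h0, h1⟩ := (hPf a b ha hb).2.1 _ (hmem a b t ht)
    rw [← vanish_mk n Q (hL Q hQ) _ h0, ← h1]
    exact hY _ Q hQ
  · intro a b a' b' ha hb ha' hb' t ht t' ht' heq i j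
    obtain ⟨h0, h1⟩ := (hPf a b ha hb).2.1 _ (hmem a b t ht)
    obtain ⟨h0', h1'⟩ := (hPf a' b' ha' hb').2.1 _ (hmem a' b' t' ht')
    refine minors_of_mk n _ _ h0 h0' ?_ i j
    rw [← h1, ← h1', heq]
  · have h00 := (hPf 0 0 (by simp) (by simp)).2.2.2
    have e0 : ((0 : ℤ) : ℂ) + ((0 : ℤ) : ℂ) * Complex.I = 0 := by simp
    have e1 : ∀ t : ℂ, ((0 : ℤ) : ℂ) + ((0 : ℤ) : ℂ) * Complex.I + t = t := by intro t; simp
    rw [e0] at h00
    rw [hnorm 0, mul_zero, add_zero, hρκ] at h00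
    simp only [e1]
    have hn1 : (0 : ℝ) < (n : ℝ) + 1 := by positivity
    have hκ2 : κ ^ 2 = 1 / (400 * ((n : ℝ) + 1) ^ 2) := by rw [hκ]; field_simp; norm_num
    rw [hκ2] at h00
    rw [div_le_iff₀ (by positivity)] at h00
    nlinarith [h00]
  · intro a b ha hb G hGm
    rcases hS G hGm with h | h
    · left
      intro t ht
      obtain ⟨h0, h1⟩ := (hPf a b ha hb).2.1 _ (hmem a b t ht)
      rw [← vanish_mk n G (hG G hGm) _ h0, ← h1]
      exact h _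
    · right
      intro t ht hz
      obtain ⟨h0, h1⟩ := (hPf a b ha hb).2.1 _ (hmem a b t ht)
      rw [← vanish_mk n G (hG G hGm) _ h0, ← h1] at hz
      exact h _ hz

end Pool.Agent.Work.MP_90e0ad_ag
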