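import Mathlib
import Pool.Agent.Work.MP_90e0ad_ag.Gauss

/-!
MP_90e0ad_ag, module CODE.
-/

namespace Pool.Agent.Work.MP_90e0ad_ag

theorem co_digits (B : ℕ) (hB : 0 < B) (c : ℕ → ℕ) (hc : ∀ i, c i < B) (K : ℕ) :
    ∃ m < B ^ K, ∀ i < K, m / B ^ i % B = c i := by
  induction K with
  | zero => exact ⟨0, by simp, fun i hi => absurd hi (Nat.not_lt_zero i)⟩
  | succ K ih =>
    obtain ⟨m, hm, h⟩ := ih
    have hBK : 0 < B ^ K := pow_pos hB K
    refine ⟨m + B ^ K * c K, ?_, fun i hi => ?_⟩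
    · have h1 : B ^ K * (c K + 1) ≤ B ^ K * B := Nat.mul_le_mul_left _ (hc K)
      rw [pow_succ]
      rw [mul_add, mul_one] at h1
      omega
    · rcases Nat.lt_succ_iff_lt_or_eq.1 hi with hlt | rfl
      · obtain ⟨e, he⟩ : ∃ e, K = i + (e + 1) := ⟨K - i - 1, by omega⟩
        have hBi : 0 < B ^ i := pow_pos hB i
        have h2 : B ^ K * c K = B ^ i * (B * (B ^ e * c K)) := by
          rw [he]; ring
        rw [h2, Nat.add_mul_div_left _ _ hBi, Nat.add_mul_mod_self_left]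
        exact h i hlt
      · rw [Nat.add_mul_div_left _ _ hBK, Nat.div_eq_of_lt hm, zero_add, Nat.mod_eq_of_lt (hc _)]

theorem co_idx (n N a b k j : ℕ) (ha : a < 2 * N + 1) (hb : b < 2 * N + 1) (hk : k < N + 1)
    (hj : j < n + 1) :
    idx n N a b k j % (n + 1) = j ∧ idx n N a b k j / (n + 1) % (N + 1) = k ∧
      idx n N a b k j / (n + 1) / (N + 1) % (2 * N + 1) = b ∧
      idx n N a b k j / (n + 1) / (N + 1) / (2 * N + 1) = a ∧
      idx n N a b k j < (2 * N + 1) * (2 * N + 1) * (N + 1) * (n + 1) := by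
  unfold idx
  have e1 : (((a * (2 * N + 1) + b) * (N + 1) + k) * (n + 1) + j) % (n + 1) = j := by
    rw [Nat.add_comm, Nat.add_mul_mod_self_right, Nat.mod_eq_of_lt hj]
  have e2 : (((a * (2 * N + 1) + b) * (N + 1) + k) * (n + 1) + j) / (n + 1)
      = (a * (2 * N + 1) + b) * (N + 1) + k := by
    rw [Nat.add_comm, Nat.add_mul_div_right _ _ (Nat.succ_pos n), Nat.div_eq_of_lt hj, zero_add]
  have e3 : ((a * (2 * N + 1) + b) * (N + 1) + k) % (N + 1) = k := by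
    rw [Nat.add_comm, Nat.add_mul_mod_self_right, Nat.mod_eq_of_lt hk]
  have e4 : ((a * (2 * N + 1) + b) * (N + 1) + k) / (N + 1) = a * (2 * N + 1) + b := by
    rw [Nat.add_comm, Nat.add_mul_div_right _ _ (Nat.succ_pos N), Nat.div_eq_of_lt hk, zero_add]
  have e5 : (a * (2 * N + 1) + b) % (2 * N + 1) = b := by
    rw [Nat.add_comm, Nat.add_mul_mod_self_right, Nat.mod_eq_of_lt hb]
  have e6 : (a * (2 * N + 1) + b) / (2 * N + 1) = a := by
    rw [Nat.add_comm, Nat.add_mul_div_right _ _ (Nat.succ_pos _), Nat.div_eq_of_lt hb, zero_add]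
  rw [e2, e4]
  refine ⟨e1, e3, e5, e6, ?_⟩
  have h1 : a * (2 * N + 1) + b + 1 ≤ (2 * N + 1) * (2 * N + 1) := by
    have : (a + 1) * (2 * N + 1) ≤ (2 * N + 1) * (2 * N + 1) := Nat.mul_le_mul_right _ ha
    have e : (a + 1) * (2 * N + 1) = a * (2 * N + 1) + (2 * N + 1) := by ring
    omega
  have h2 : (a * (2 * N + 1) + b) * (N + 1) + k + 1 ≤ (2 * N + 1) * (2 * N + 1) * (N + 1) := by
    have h3 := Nat.mul_le_mul_right (N + 1) h1
    have e : (a * (2 * N + 1) + b + 1) * (N + 1) = (a * (2 * N + 1) + b) * (N + 1) + (N + 1) := by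
      ring
    omega
  have h4 := Nat.mul_le_mul_right (n + 1) h2
  have e : ((a * (2 * N + 1) + b) * (N + 1) + k + 1) * (n + 1)
      = ((a * (2 * N + 1) + b) * (N + 1) + k) * (n + 1) + (n + 1) := by ring
  omega

theorem exists_code (n N : ℕ) (C : ℤ → ℤ → ℕ → Fin (n + 1) → ℤ × ℤ)
    (hC : ∀ a b : ℤ, |a| ≤ N → |b| ≤ N → ∀ k ≤ N, ∀ j,
      |(C a b k j).1| ≤ 3 * 4 ^ N ∧ |(C a b k j).2| ≤ 3 * 4 ^ N) :
    ∃ m < base N ^ ndig n N, ∀ a b : ℤ, |a| ≤ N → |b| ≤ N → ∀ k ≤ N, ∀ j,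
      decode n N m a b k j =
        (((C a b k j).1 : ℂ) + ((C a b k j).2 : ℂ) * Complex.I) / 4 ^ N := by
  have hB : 0 < base N := Nat.succ_pos _
  let D : ℕ → ℤ × ℤ := fun t => C (((t / (n + 1) / (N + 1) / (2 * N + 1) : ℕ) : ℤ) - N)
    (((t / (n + 1) / (N + 1) % (2 * N + 1) : ℕ) : ℤ) - N) (t / (n + 1) % (N + 1))
    ⟨t % (n + 1), Nat.mod_lt _ (Nat.succ_pos n)⟩
  let c : ℕ → ℕ := fun i =>
    (if i % 2 = 0 then ((D (i / 2)).1 + off N).toNat else ((D (i / 2)).2 + off N).toNat) % base N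
  obtain ⟨m, hm, h⟩ := co_digits (base N) hB c (fun i => Nat.mod_lt _ hB) (ndig n N)
  refine ⟨m, hm, fun A B hA hB' k hk j => ?_⟩
  have hCC := hC A B hA hB' k hk j
  rw [abs_le] at hA hB'
  obtain ⟨a, rfl⟩ : ∃ a : ℕ, A = (a : ℤ) - N := ⟨(A + N).toNat, by omega⟩
  obtain ⟨b, rfl⟩ : ∃ b : ℕ, B = (b : ℤ) - N := ⟨(B + N).toNat, by omega⟩
  obtain ⟨i1, i2, i3, i4, i5⟩ := co_idx n N a b k j (by omega) (by omega) (Nat.lt_succ_of_le hk)
    j.isLt
  set t := idx n N a b k j with ht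
  have hD : D t = C ((a : ℤ) - N) ((b : ℤ) - N) k j := by
    show C _ _ _ _ = _
    rw [i2, i3, i4]
    congr 1
    exact Fin.ext i1
  have hoff : ((off N : ℕ) : ℤ) = 3 * 4 ^ N := by unfold off; push_cast; ring
  have hbase : base N = 2 * off N + 1 := rfl
  rw [abs_le, abs_le] at hCC
  have hd1 : dig (base N) m (2 * t) = ((C ((a : ℤ) - N) ((b : ℤ) - N) k j).1 + off N).toNat := by
    unfold dig
    rw [h (2 * t) (by unfold ndig; omega)]
    show (if 2 * t % 2 = 0 then ((D (2 * t / 2)).1 + off N).toNat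
      else ((D (2 * t / 2)).2 + off N).toNat) % base N = _
    rw [if_pos (by omega), show 2 * t / 2 = t by omega, hD, Nat.mod_eq_of_lt]
    rw [hbase]
    have := hCC.1
    omega
  have hd2 : dig (base N) m (2 * t + 1)
      = ((C ((a : ℤ) - N) ((b : ℤ) - N) k j).2 + off N).toNat := by
    unfold dig
    rw [h (2 * t + 1) (by unfold ndig; omega)]
    show (if (2 * t + 1) % 2 = 0 then ((D ((2 * t + 1) / 2)).1 + off N).toNat
      else ((D ((2 * t + 1) / 2)).2 + off N).toNat) % base N = _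
    rw [if_neg (by omega), show (2 * t + 1) / 2 = t by omega, hD, Nat.mod_eq_of_lt]
    rw [hbase]
    have := hCC.2
    omega
  unfold decode
  have e1 : ((a : ℤ) - N + N).toNat = a := by omega
  have e2 : ((b : ℤ) - N + N).toNat = b := by omega
  rw [e1, e2]
  unfold coef val
  simp only
  rw [← ht, hd1, hd2]
  have f1 : ((((C ((a : ℤ) - N) ((b : ℤ) - N) k j).1 + off N).toNat : ℕ) : ℂ)
      = ((C ((a : ℤ) - N) ((b : ℤ) - N) k j).1 : ℂ) + (off N : ℂ) := by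
    have h1 : ((((C ((a : ℤ) - N) ((b : ℤ) - N) k j).1 + off N).toNat : ℕ) : ℤ)
        = (C ((a : ℤ) - N) ((b : ℤ) - N) k j).1 + off N :=
      Int.toNat_of_nonneg (by have := hCC.1.1; omega)
    exact_mod_cast congrArg (Int.cast : ℤ → ℂ) h1
  have f2 : ((((C ((a : ℤ) - N) ((b : ℤ) - N) k j).2 + off N).toNat : ℕ) : ℂ)
      = ((C ((a : ℤ) - N) ((b : ℤ) - N) k j).2 : ℂ) + (off N : ℂ) := by
    have h1 : ((((C ((a : ℤ) - N) ((b : ℤ) - N) k j).2 + off N).toNat : ℕ) : ℤ)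
        = (C ((a : ℤ) - N) ((b : ℤ) - N) k j).2 + off N :=
      Int.toNat_of_nonneg (by have := hCC.2.1; omega)
    exact_mod_cast congrArg (Int.cast : ℤ → ℂ) h1
  rw [f1, f2]
  congr 1
  ring

theorem approx_congr (n : ℕ) (L Gs : List Form) (N : ℕ) (hN : 1 ≤ N)
    (c c' : ℤ → ℤ → ℕ → Fin (n + 1) → ℂ)
    (h : ∀ a b : ℤ, |a| ≤ N → |b| ≤ N → ∀ k ≤ N, ∀ j, c a b k j = c' a b k j)
    (hc : Approx n L Gs N c) : Approx n L Gs N c' := by
  have hpol : ∀ a b : ℤ, |a| ≤ N → |b| ≤ N → ∀ t, pol N c a b t = pol N c' a b t := by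
    intro a b ha hb t
    funext j
    unfold pol
    refine Finset.sum_congr rfl fun k hk => ?_
    rw [h a b ha hb k (Nat.lt_succ_iff.1 (Finset.mem_range.1 hk)) j]
  have h0 : |(0 : ℤ)| ≤ N := by simp
  obtain ⟨c1, c2, c3, c4, c5, c6⟩ := hc
  refine ⟨?_, ?_, ?_, ?_, ?_, ?_⟩
  · intro a b ha hb k hk j
    rw [← h a b ha hb k hk j]
    exact c1 a b ha hb k hk j
  · intro a b ha hb s u hsu
    rw [← hpol a b ha hb]
    exact c2 a b ha hb s u hsu
  · intro a b ha hb s u hsu P hP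
    rw [← hpol a b ha hb]
    exact c3 a b ha hb s u hsu P hP
  · intro a b a' b' ha hb ha' hb' s u s' u' e1 e2 n1 n2 i j
    rw [← hpol a b ha hb, ← hpol a' b' ha' hb']
    exact c4 a b a' b' ha hb ha' hb' s u s' u' e1 e2 n1 n2 i j
  · have e0 : ∀ j, c' 0 0 0 j = c 0 0 0 j := fun j => (h 0 0 h0 h0 0 (Nat.zero_le _) j).symm
    have e1 : ∀ j, c' 0 0 1 j = c 0 0 1 j := fun j => (h 0 0 h0 h0 1 hN j).symm
    simp only [e0, e1]
    exact c5
  · intro a b ha hb s u s' u' n1 n2 G hG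
    rw [← hpol a b ha hb, ← hpol a b ha hb]
    exact c6 a b ha hb s u s' u' n1 n2 G hG

end Pool.Agent.Work.MP_90e0ad_ag
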