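import Mathlib
import Pool.Agent.Work.MP_90e0ad_ag.Defs

/-!
MP_90e0ad_ag, module LIMIT: compactness.

Let c N (N = M + n + 10) be approximate objects. Let U = Filter.hyperfilter ℕ (an ultrafilter,
U ≤ atTop). For fixed a b k j the sequence M ↦ c_M a b k j satisfies ‖·‖ ≤ 3 / 2^k as soon as
M + n + 10 ≥ max |a| |b| k, so it converges along U (IsCompact.ultrafilter_le_nhds for
closedBall 0 (3/2^k), or choose via compactness) to a number c a b k j, ‖·‖ ≤ 3 / 2^k.
For ‖t‖ ≤ 1 the truncated sums pol converge along U to ser (tendsto_tsum_of_dominated_convergence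
with bound 3 / 2^k; write pol as a tsum with terms zero for k > N).
Fix a dyadic point t = (s + u i) / 2^r with ‖t‖ ≤ 1. For N ≥ r it equals
dy N (s 2^(N-r)) (u 2^(N-r)), so all conditions of Approx hold at t for large N and pass to the
limit (evalC is continuous; right-hand sides 3 wt/2^N, 24/2^N, 300 wt^6/4^N tend to 0).
For compat: if (a+bi)+t = (a'+b'i)+t' with t, t' dyadic with the same denominator 2^r then
a 2^N + s 2^(N-r) = a' 2^N + s' 2^(N-r) etc.
Finally ser is continuous on the open unit disc (indeed for ‖t‖ < 2) and dyadic points are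
dense in the open disc (for compat: dense in the set of t with ‖t‖<1 and ‖t + z‖<1, z Gaussian),
so the conditions hold for all t in the open unit disc.
-/

namespace Pool.Agent.Work.MP_90e0ad_ag

/-- Power series with vector coefficients. -/
noncomputable def ser {n : ℕ} (c : ℤ → ℤ → ℕ → Fin (n + 1) → ℂ) (a b : ℤ) (t : ℂ) :
    Fin (n + 1) → ℂ := fun j => ∑' k, c a b k j * t ^ k

/-- Limit object. -/
structure Lim (n : ℕ) (L Gs : List Form) (c : ℤ → ℤ → ℕ → Fin (n + 1) → ℂ) : Prop where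
  size : ∀ a b k j, ‖c a b k j‖ ≤ 3 / 2 ^ k
  nz : ∀ a b t, ‖t‖ < 1 → (1 : ℝ) / 2 ≤ ∑ j, ‖ser c a b t j‖ ^ 2
  eqs : ∀ a b t, ‖t‖ < 1 → ∀ P ∈ L, evalC n P (ser c a b t) = 0
  compat : ∀ a b a' b' : ℤ, ∀ t t' : ℂ, ((a : ℂ) + b * Complex.I) + t = (a' + b' * Complex.I) + t' →
    ‖t‖ < 1 → ‖t'‖ < 1 → ∀ i j,
    ser c a b t i * ser c a' b' t' j - ser c a b t j * ser c a' b' t' i = 0
  nonconst : ∃ i j, c 0 0 0 i * c 0 0 1 j - c 0 0 0 j * c 0 0 1 i ≠ 0
  avoid : ∀ a b t t', ‖t‖ < 1 → ‖t'‖ < 1 → ∀ G ∈ Gs,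
    ‖evalC n G (ser c a b t)‖ ^ 6 ≤ 2 * (wt G : ℝ) ^ 4 * ‖evalC n G (ser c a b t')‖ ^ 2

open Filter Topology

lemma limit_dy (r N : ℕ) (h : r ≤ N) (s u : ℤ) :
    dy N (s * 2 ^ (N - r)) (u * 2 ^ (N - r)) = dy r s u := by
  unfold dy
  have h1 : (2 : ℂ) ^ N = 2 ^ r * 2 ^ (N - r) := by rw [← pow_add, Nat.add_sub_cancel' h]
  have h2 : (2 : ℂ) ^ (N - r) ≠ 0 := pow_ne_zero _ two_ne_zero
  have h3 : (2 : ℂ) ^ r ≠ 0 := pow_ne_zero _ two_ne_zero
  rw [h1]
  push_cast
  field_simp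

/-- dyadic approximation of `t` -/
noncomputable def limit_D (r : ℕ) (t : ℂ) : ℂ := dy r ⌊(2 : ℝ) ^ r * t.re⌋ ⌊(2 : ℝ) ^ r * t.im⌋

lemma limit_D_tendsto (t : ℂ) : Tendsto (fun r => limit_D r t) atTop (𝓝 t) := by
  have hre : ∀ x : ℝ, Tendsto (fun r : ℕ => (⌊(2 : ℝ) ^ r * x⌋ : ℝ) / 2 ^ r) atTop (𝓝 x) := by
    intro x
    have h0 : Tendsto (fun r : ℕ => x - (1 / 2 : ℝ) ^ r) atTop (𝓝 x) := by
      have := (tendsto_pow_atTop_nhds_zero_of_lt_one (show (0 : ℝ) ≤ 1 / 2 by norm_num)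
        (by norm_num)).const_sub x
      simpa using this
    refine tendsto_of_tendsto_of_tendsto_of_le_of_le h0 tendsto_const_nhds ?_ ?_
    · intro r
      have h1 : (2 : ℝ) ^ r * x < ⌊(2 : ℝ) ^ r * x⌋ + 1 := Int.lt_floor_add_one _
      have h2 : (0 : ℝ) < 2 ^ r := by positivity
      show x - (1 / 2 : ℝ) ^ r ≤ (⌊(2 : ℝ) ^ r * x⌋ : ℝ) / 2 ^ r
      rw [le_div_iff₀ h2, sub_mul, ← mul_pow]
      norm_num
      linarith
    · intro r
      have h1 : (⌊(2 : ℝ) ^ r * x⌋ : ℝ) ≤ (2 : ℝ) ^ r * x := Int.floor_le _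
      have h2 : (0 : ℝ) < 2 ^ r := by positivity
      show (⌊(2 : ℝ) ^ r * x⌋ : ℝ) / 2 ^ r ≤ x
      rw [div_le_iff₀ h2]
      linarith
  have h1 : ∀ r, limit_D r t = (((⌊(2 : ℝ) ^ r * t.re⌋ : ℝ) / 2 ^ r : ℝ) : ℂ)
      + (((⌊(2 : ℝ) ^ r * t.im⌋ : ℝ) / 2 ^ r : ℝ) : ℂ) * Complex.I := by
    intro r
    unfold limit_D dy
    push_cast
    ring
  have h2 : Tendsto (fun r : ℕ => (((⌊(2 : ℝ) ^ r * t.re⌋ : ℝ) / 2 ^ r : ℝ) : ℂ)
      + (((⌊(2 : ℝ) ^ r * t.im⌋ : ℝ) / 2 ^ r : ℝ) : ℂ) * Complex.I) atTop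
      (𝓝 ((t.re : ℂ) + (t.im : ℂ) * Complex.I)) :=
    ((Complex.continuous_ofReal.tendsto _).comp (hre t.re)).add
      (((Complex.continuous_ofReal.tendsto _).comp (hre t.im)).mul_const _)
  rw [Complex.re_add_im] at h2
  exact h2.congr fun r => (h1 r).symm

lemma limit_D_mem (t : ℂ) (ht : ‖t‖ < 1) : ∀ᶠ r in atTop, ‖limit_D r t‖ ≤ 1 :=
  ((limit_D_tendsto t).norm.eventually (gt_mem_nhds ht)).mono fun _ h => le_of_lt h

lemma limit_evalC_cont (n : ℕ) (P : Form) : Continuous (evalC n P) := by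
  unfold evalC
  induction P with
  | nil => simpa using continuous_const
  | cons ce P ih =>
    simp only [List.map_cons, List.sum_cons]
    refine Continuous.add ?_ ih
    fun_prop

theorem exists_lim (n : ℕ) (L Gs : List Form)
    (h : ∀ M : ℕ, ∃ c, Approx n L Gs (M + n + 10) c) : ∃ c, Lim n L Gs c := by
  choose cc hcc using h
  set U : Ultrafilter ℕ := hyperfilter ℕ with hU
  have hUle : (U : Filter ℕ) ≤ atTop := Nat.hyperfilter_le_atTop
  have hlarge : ∀ K : ℤ, ∀ᶠ M : ℕ in (U : Filter ℕ), K ≤ ((M + n + 10 : ℕ) : ℤ) := by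
    intro K
    refine hUle (eventually_atTop.2 ⟨K.toNat, fun M hM => ?_⟩)
    push_cast
    omega
  have hlargeN : ∀ K : ℕ, ∀ᶠ M : ℕ in (U : Filter ℕ), K ≤ M + n + 10 := by
    intro K
    refine hUle (eventually_atTop.2 ⟨K, fun M hM => ?_⟩)
    omega
  have hlim : ∀ a b k j, ∃ x : ℂ, ‖x‖ ≤ 3 / 2 ^ k ∧
      Tendsto (fun M => cc M a b k j) U (𝓝 x) := by
    intro a b k j
    have hev : ∀ᶠ M in (U : Filter ℕ), cc M a b k j ∈ Metric.closedBall (0 : ℂ) (3 / 2 ^ k) := by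
      filter_upwards [hlarge |a|, hlarge |b|, hlargeN k] with M h1 h2 h3
      rw [mem_closedBall_zero_iff]
      exact (hcc M).size a b h1 h2 k h3 j
    obtain ⟨x, hx, hxU⟩ := (isCompact_closedBall (0 : ℂ) (3 / 2 ^ k)).ultrafilter_le_nhds
      (U.map fun M => cc M a b k j) (le_principal_iff.2 hev)
    exact ⟨x, mem_closedBall_zero_iff.1 hx, hxU⟩
  choose c hcsize hc using hlim
  have hsumm : Summable fun k : ℕ => (3 : ℝ) / 2 ^ k := by
    have := (summable_geometric_of_lt_one (show (0 : ℝ) ≤ 1 / 2 by norm_num)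
      (by norm_num)).mul_left 3
    refine this.congr fun k => ?_
    rw [one_div, inv_pow, ← div_eq_mul_inv]
  -- convergence of the polynomials
  have hconvj : ∀ a b (t : ℂ), ‖t‖ ≤ 1 → ∀ j,
      Tendsto (fun M => pol (M + n + 10) (cc M) a b t j) U (𝓝 (ser c a b t j)) := by
    intro a b t ht j
    have e : ∀ M, pol (M + n + 10) (cc M) a b t j
        = ∑' k, (if k ∈ Finset.range (M + n + 10 + 1) then cc M a b k j * t ^ k else 0) := by
      intro M
      unfold pol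
      rw [tsum_eq_sum (s := Finset.range (M + n + 10 + 1))]
      · exact Finset.sum_congr rfl fun k hk => by rw [if_pos hk]
      · intro k hk
        rw [if_neg hk]
    simp_rw [e]
    unfold ser
    refine tendsto_tsum_of_dominated_convergence hsumm ?_ ?_
    · intro k
      refine ((hc a b k j).mul_const (t ^ k)).congr' ?_
      filter_upwards [hlargeN k] with M hM
      rw [if_pos (Finset.mem_range.2 (by omega))]
    · filter_upwards [hlarge |a|, hlarge |b|] with M h1 h2 k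
      by_cases hk : k ∈ Finset.range (M + n + 10 + 1)
      · rw [if_pos hk, norm_mul, norm_pow]
        have h3 := (hcc M).size a b h1 h2 k (by have := Finset.mem_range.1 hk; omega) j
        calc ‖cc M a b k j‖ * ‖t‖ ^ k ≤ (3 / 2 ^ k) * 1 :=
              mul_le_mul h3 (pow_le_one₀ (norm_nonneg _) ht) (by positivity) (by positivity)
          _ = 3 / 2 ^ k := mul_one _
      · rw [if_neg hk, norm_zero]
        positivity
  have hconv : ∀ a b (t : ℂ), ‖t‖ ≤ 1 →
      Tendsto (fun M => pol (M + n + 10) (cc M) a b t) U (𝓝 (ser c a b t)) := fun a b t ht =>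
    tendsto_pi_nhds.2 fun j => hconvj a b t ht j
  -- continuity of the limit
  have hcont : ∀ a b, ContinuousOn (ser c a b) (Metric.closedBall 0 1) := by
    intro a b
    refine continuousOn_pi.2 fun j => ?_
    unfold ser
    refine continuousOn_tsum (fun k => ?_) hsumm ?_
    · exact (continuous_const.mul (continuous_pow k)).continuousOn
    · intro k t ht
      rw [mem_closedBall_zero_iff] at ht
      rw [norm_mul, norm_pow]
      calc ‖c a b k j‖ * ‖t‖ ^ k ≤ (3 / 2 ^ k) * 1 :=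
            mul_le_mul (hcsize a b k j) (pow_le_one₀ (norm_nonneg _) ht) (by positivity)
              (by positivity)
        _ = 3 / 2 ^ k := mul_one _
  have hserD : ∀ a b (t : ℂ), ‖t‖ < 1 →
      Tendsto (fun r => ser c a b (limit_D r t)) atTop (𝓝 (ser c a b t)) := by
    intro a b t ht
    have h1 : Metric.closedBall (0 : ℂ) 1 ∈ 𝓝 t := by
      refine mem_of_superset (Metric.isOpen_ball.mem_nhds (mem_ball_zero_iff.2 ht)) ?_
      exact Metric.ball_subset_closedBall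
    exact ((hcont a b).continuousAt h1).tendsto.comp (limit_D_tendsto t)
  have hpow2 : Tendsto (fun M : ℕ => (2 : ℝ) ^ (M + n + 10)) atTop atTop := by
    refine (tendsto_pow_atTop_atTop_of_one_lt (show (1 : ℝ) < 2 by norm_num)).comp ?_
    exact tendsto_atTop_mono (fun M => by simp only [id]; omega) tendsto_id
  have hpow4 : Tendsto (fun M : ℕ => (4 : ℝ) ^ (M + n + 10)) atTop atTop := by
    refine (tendsto_pow_atTop_atTop_of_one_lt (show (1 : ℝ) < 4 by norm_num)).comp ?_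
    exact tendsto_atTop_mono (fun M => by simp only [id]; omega) tendsto_id
  have hzero2 : ∀ A : ℝ, Tendsto (fun M : ℕ => A / (2 : ℝ) ^ (M + n + 10)) U (𝓝 0) := fun A =>
    (hpow2.const_div_atTop A).mono_left hUle
  have hzero4 : ∀ A : ℝ, Tendsto (fun M : ℕ => A / (4 : ℝ) ^ (M + n + 10)) U (𝓝 0) := fun A =>
    (hpow4.const_div_atTop A).mono_left hUle
  refine ⟨c, ?_, ?_, ?_, ?_, ?_, ?_⟩
  · exact hcsize
  · -- nz
    intro a b t ht
    have hcs : Continuous (fun v : Fin (n + 1) → ℂ => ∑ j, ‖v j‖ ^ 2) := by fun_prop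
    refine ge_of_tendsto ((hcs.tendsto _).comp (hserD a b t ht)) ?_
    filter_upwards [limit_D_mem t ht] with r hr
    refine ge_of_tendsto ((hcs.tendsto _).comp (hconv a b _ hr)) ?_
    filter_upwards [hlarge |a|, hlarge |b|, hlargeN r] with M h1 h2 h3
    have h4 := (hcc M).nz a b h1 h2 (⌊(2 : ℝ) ^ r * t.re⌋ * 2 ^ (M + n + 10 - r))
      (⌊(2 : ℝ) ^ r * t.im⌋ * 2 ^ (M + n + 10 - r))
    rw [limit_dy r _ h3] at h4
    exact h4 hr
  · -- eqs
    intro a b t ht P hP
    have h0 : ∀ r, ‖limit_D r t‖ ≤ 1 → evalC n P (ser c a b (limit_D r t)) = 0 := by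
      intro r hr
      have h1 := (((limit_evalC_cont n P).tendsto _).comp (hconv a b _ hr)).norm
      have h2 : ‖evalC n P (ser c a b (limit_D r t))‖ ≤ 0 := by
        refine le_of_tendsto_of_tendsto h1 (hzero2 (3 * (wt P : ℝ))) ?_
        filter_upwards [hlarge |a|, hlarge |b|, hlargeN r] with M h1 h2 h3
        have h4 := (hcc M).eqs a b h1 h2 (⌊(2 : ℝ) ^ r * t.re⌋ * 2 ^ (M + n + 10 - r))
          (⌊(2 : ℝ) ^ r * t.im⌋ * 2 ^ (M + n + 10 - r))
        rw [limit_dy r _ h3] at h4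
        exact h4 hr P hP
      exact norm_le_zero_iff.1 h2
    have h1 := ((limit_evalC_cont n P).tendsto _).comp (hserD a b t ht)
    refine tendsto_nhds_unique h1 ?_
    refine tendsto_const_nhds.congr' ?_
    filter_upwards [limit_D_mem t ht] with r hr
    exact (h0 r hr).symm
  · -- compat
    intro a b a' b' t t' htt ht ht' i j
    have hre : t'.re = t.re + ((a - a' : ℤ) : ℝ) := by
      have := congrArg Complex.re htt
      simp at this
      push_cast
      linarith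
    have him : t'.im = t.im + ((b - b' : ℤ) : ℝ) := by
      have := congrArg Complex.im htt
      simp at this
      push_cast
      linarith
    have hfl : ∀ (x : ℝ) (z : ℤ) (r : ℕ), ⌊(2 : ℝ) ^ r * (x + (z : ℝ))⌋ = ⌊(2 : ℝ) ^ r * x⌋ + 2 ^ r * z := by
      intro x z r
      have : (2 : ℝ) ^ r * (x + (z : ℝ)) = (2 : ℝ) ^ r * x + ((2 ^ r * z : ℤ) : ℝ) := by
        push_cast
        ring
      rw [this, Int.floor_add_intCast]
    have hcf : Continuous (fun p : (Fin (n + 1) → ℂ) × (Fin (n + 1) → ℂ) =>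
      p.1 i * p.2 j - p.1 j * p.2 i) := by fun_prop
    have h0 : ∀ r, ‖limit_D r t‖ ≤ 1 → ‖limit_D r t'‖ ≤ 1 →
        ser c a b (limit_D r t) i * ser c a' b' (limit_D r t') j
          - ser c a b (limit_D r t) j * ser c a' b' (limit_D r t') i = 0 := by
      intro r hr hr'
      have h1 := ((hcf.tendsto _).comp ((hconv a b _ hr).prodMk_nhds (hconv a' b' _ hr'))).norm
      have h2 : ‖ser c a b (limit_D r t) i * ser c a' b' (limit_D r t') j
          - ser c a b (limit_D r t) j * ser c a' b' (limit_D r t') i‖ ≤ 0 := by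
        refine le_of_tendsto_of_tendsto h1 (hzero2 24) ?_
        filter_upwards [hlarge |a|, hlarge |b|, hlarge |a'|, hlarge |b'|, hlargeN r]
          with M h1 h2 h1' h2' h3
        have h4 := (hcc M).compat a b a' b' h1 h2 h1' h2'
          (⌊(2 : ℝ) ^ r * t.re⌋ * 2 ^ (M + n + 10 - r))
          (⌊(2 : ℝ) ^ r * t.im⌋ * 2 ^ (M + n + 10 - r))
          (⌊(2 : ℝ) ^ r * t'.re⌋ * 2 ^ (M + n + 10 - r))
          (⌊(2 : ℝ) ^ r * t'.im⌋ * 2 ^ (M + n + 10 - r))
        rw [limit_dy r _ h3, limit_dy r _ h3] at h4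
        have hp : (2 : ℤ) ^ (M + n + 10) = 2 ^ r * 2 ^ (M + n + 10 - r) := by
          rw [← pow_add, Nat.add_sub_cancel' h3]
        refine h4 ?_ ?_ hr hr' i j
        · rw [hre, hfl, hp]
          ring
        · rw [him, hfl, hp]
          ring
      exact norm_le_zero_iff.1 h2
    have h1 := (hcf.tendsto _).comp ((hserD a b t ht).prodMk_nhds (hserD a' b' t' ht'))
    refine tendsto_nhds_unique h1 ?_
    refine tendsto_const_nhds.congr' ?_
    filter_upwards [limit_D_mem t ht, limit_D_mem t' ht'] with r hr hr'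
    exact (h0 r hr hr').symm
  · -- nonconst
    by_contra hcon
    push Not at hcon
    have h1 : Tendsto (fun M => 2000 * ((n : ℝ) + 1) ^ 2 *
        ∑ i, ∑ j, ‖cc M 0 0 0 i * cc M 0 0 1 j - cc M 0 0 0 j * cc M 0 0 1 i‖ ^ 2) U
        (𝓝 (2000 * ((n : ℝ) + 1) ^ 2 *
        ∑ i, ∑ j, ‖c 0 0 0 i * c 0 0 1 j - c 0 0 0 j * c 0 0 1 i‖ ^ 2)) := by
      refine Tendsto.const_mul _ (tendsto_finsetSum _ fun i _ => tendsto_finsetSum _ fun j _ => ?_)
      exact ((((hc 0 0 0 i).mul (hc 0 0 1 j)).sub ((hc 0 0 0 j).mul (hc 0 0 1 i))).norm).pow 2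
    have h2 := ge_of_tendsto h1 (Eventually.of_forall fun M => (hcc M).nonconst)
    have h3 : ∑ i, ∑ j, ‖c 0 0 0 i * c 0 0 1 j - c 0 0 0 j * c 0 0 1 i‖ ^ 2 = 0 := by
      refine Finset.sum_eq_zero fun i _ => Finset.sum_eq_zero fun j _ => ?_
      rw [hcon i j]
      simp
    rw [h3, mul_zero] at h2
    linarith
  · -- avoid
    intro a b t t' ht ht' G hG
    have hcl : Continuous (fun v : Fin (n + 1) → ℂ => ‖evalC n G v‖ ^ 6) :=
      ((limit_evalC_cont n G).norm).pow 6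
    have hcr : Continuous (fun v : Fin (n + 1) → ℂ => 2 * (wt G : ℝ) ^ 4 * ‖evalC n G v‖ ^ 2) :=
      continuous_const.mul (((limit_evalC_cont n G).norm).pow 2)
    refine le_of_tendsto_of_tendsto ((hcl.tendsto _).comp (hserD a b t ht))
      ((hcr.tendsto _).comp (hserD a b t' ht')) ?_
    filter_upwards [limit_D_mem t ht, limit_D_mem t' ht'] with r hr hr'
    have hR := ((hcr.tendsto _).comp (hconv a b _ hr')).add (hzero4 (300 * (wt G : ℝ) ^ 6))
    rw [add_zero] at hR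
    refine le_of_tendsto_of_tendsto ((hcl.tendsto _).comp (hconv a b _ hr)) hR ?_
    filter_upwards [hlarge |a|, hlarge |b|, hlargeN r] with M h1 h2 h3
    have h4 := (hcc M).avoid a b h1 h2
      (⌊(2 : ℝ) ^ r * t.re⌋ * 2 ^ (M + n + 10 - r))
      (⌊(2 : ℝ) ^ r * t.im⌋ * 2 ^ (M + n + 10 - r))
      (⌊(2 : ℝ) ^ r * t'.re⌋ * 2 ^ (M + n + 10 - r))
      (⌊(2 : ℝ) ^ r * t'.im⌋ * 2 ^ (M + n + 10 - r))
    rw [limit_dy r _ h3, limit_dy r _ h3] at h4
    exact h4 hr hr' G hG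

end Pool.Agent.Work.MP_90e0ad_ag
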