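import Mathlib
import Pool.Agent.Work.MP_90e0ad_ag.Limit

/-!
MP_90e0ad_ag, module CURVE: a limit object gives a bad entire curve.

For z choose the Gaussian integer p z = round z.re + (round z.im) i; then ‖z - p z‖ ≤ 1/√2 < 1.
Put f z = mk (ser c (round z.re) (round z.im) (z - p z)), nonzero by nz.
By compat (all 2x2 minors vanish and both vectors are nonzero) f z = mk (ser c a b (z - (a+bi)))
for every Gaussian integer a+bi with ‖z-(a+bi)‖ < 1 (Projectivization.mk_eq_mk_iff').
So near z0 the map t ↦ ser c a b (z - (a+bi)), (a,b) = p z0, is a holomorphic lift on the unit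
disc about p z0 (power series with ‖coefficients‖ ≤ 3/2^k converge for ‖t‖<2).
VanishAt P (f z) iff evalC P (lift) = 0, by homogeneity (rep = lam * lift, lam ≠ 0).
For G in Gs: on each unit disc either evalC G (ser) vanishes identically or nowhere (avoid:
if it vanishes at t' then ‖..t..‖^6 ≤ 0). So {z | VanishAt G (f z)} and its complement are open,
hence one is empty (ℂ is connected, isClopen_iff).
Nonconstant: otherwise ser c 0 0 t is proportional to ser c 0 0 0 for all ‖t‖<1, i.e. all minors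
of (ser c 0 0 0, ser c 0 0 t) vanish; dividing by t and letting t → 0 (derivative at 0 of
ser is c 0 0 1 j, value is c 0 0 0 j) gives nonconst false.
-/

namespace Pool.Agent.Work.MP_90e0ad_ag

open Metric Filter Topology

private theorem cv_getD_sum : ∀ (m : ℕ) (e : List ℕ), e.length = m →
    ∑ i : Fin m, e.getD (i : ℕ) 0 = e.sum := by
  intro m
  induction m with
  | zero =>
    intro e he
    have : e = [] := List.length_eq_zero_iff.1 he
    subst this
    simp
  | succ m ih =>
    intro e he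
    rcases e with _ | ⟨x, e⟩
    · simp at he
    · rw [Fin.sum_univ_succ]
      simp only [List.length_cons, Nat.add_right_cancel_iff] at he
      have := ih e he
      simp only [Fin.val_zero, List.getD_cons_zero, Fin.val_succ, List.getD_cons_succ,
        List.sum_cons]
      rw [this]

private theorem cv_eval_smul {n : ℕ} {P : Form} (hP : IsForm n P) : ∃ d : ℕ,
    ∀ (lam : ℂ) (v : Fin (n + 1) → ℂ), evalC n P (lam • v) = lam ^ d * evalC n P v := by
  obtain ⟨d, hd⟩ := hP
  refine ⟨d, fun lam v => ?_⟩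
  unfold evalC
  induction P with
  | nil => simp
  | cons ce P ih =>
    simp only [List.map_cons, List.sum_cons]
    rw [ih (fun ce' h => hd ce' (List.mem_cons_of_mem _ h)), mul_add]
    congr 1
    obtain ⟨h1, h2⟩ := hd ce (List.mem_cons_self ..)
    have h3 : ∏ i : Fin (n + 1), (lam • v) i ^ ce.2.getD (i : ℕ) 0 =
        lam ^ d * ∏ i : Fin (n + 1), v i ^ ce.2.getD (i : ℕ) 0 := by
      simp only [Pi.smul_apply, smul_eq_mul, mul_pow]
      rw [Finset.prod_mul_distrib, Finset.prod_pow_eq_pow_sum, cv_getD_sum (n + 1) ce.2 h1, h2]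
    rw [h3]
    ring

private theorem cv_vanish {n : ℕ} {P : Form} (hP : IsForm n P) (v : Fin (n + 1) → ℂ)
    (hv : v ≠ 0) : VanishAt n P (Projectivization.mk ℂ v hv) ↔ evalC n P v = 0 := by
  obtain ⟨d, hd⟩ := cv_eval_smul hP
  obtain ⟨lam, hlam⟩ := Projectivization.exists_smul_eq_mk_rep ℂ v hv
  unfold VanishAt
  have h1 : (lam : ℂ) • v = (Projectivization.mk ℂ v hv).rep := hlam
  rw [← h1, hd, mul_eq_zero]
  constructor
  · rintro (h | h)
    · exact absurd h (pow_ne_zero _ lam.ne_zero)
    · exact h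
  · exact fun h => Or.inr h

private theorem cv_prop {m : ℕ} (v w : Fin m → ℂ) (hw : w ≠ 0)
    (h : ∀ i j, v i * w j - v j * w i = 0) : ∃ a : ℂ, a • w = v := by
  obtain ⟨j, hj⟩ := Function.ne_iff.1 hw
  simp only [Pi.zero_apply] at hj
  refine ⟨v j / w j, ?_⟩
  funext i
  rw [Pi.smul_apply, smul_eq_mul]
  have := h i j
  field_simp
  linear_combination -this

private theorem cv_hasDeriv (c : ℕ → ℂ) (hc : ∀ k, ‖c k‖ ≤ 3 / 2 ^ k) (y : ℂ) (hy : ‖y‖ < 1) :
    HasDerivAt (fun t => ∑' k, c k * t ^ k) (∑' k, c k * (k * y ^ (k - 1))) y := by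
  have hu : Summable fun k : ℕ => 3 * ((k : ℝ) ^ 1 * (1 / 2) ^ k) :=
    (summable_pow_mul_geometric_of_norm_lt_one 1 (by norm_num : ‖(1 / 2 : ℝ)‖ < 1)).mul_left 3
  refine hasDerivAt_tsum_of_isPreconnected (u := fun k : ℕ => 3 * ((k : ℝ) ^ 1 * (1 / 2) ^ k))
    (g := fun k (z : ℂ) => c k * z ^ k) (g' := fun k (z : ℂ) => c k * (k * z ^ (k - 1)))
    (t := ball (0 : ℂ) 1) (y₀ := (0 : ℂ)) hu isOpen_ball (convex_ball _ _).isPreconnected ?_ ?_
    (by simp) ?_ (by rwa [mem_ball_zero_iff])
  · intro k z _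
    exact (hasDerivAt_pow k z).const_mul _
  · intro k z hz
    rw [mem_ball_zero_iff] at hz
    rw [norm_mul, norm_mul, Complex.norm_natCast, norm_pow]
    have h1 : ‖z‖ ^ (k - 1) ≤ 1 := pow_le_one₀ (norm_nonneg _) hz.le
    have hk : (0 : ℝ) ≤ k := Nat.cast_nonneg _
    calc ‖c k‖ * (k * ‖z‖ ^ (k - 1)) ≤ 3 / 2 ^ k * (k * 1) := by
          apply mul_le_mul (hc k) _ (by positivity) (by positivity)
          exact mul_le_mul_of_nonneg_left h1 hk
      _ = 3 * ((k : ℝ) ^ 1 * (1 / 2) ^ k) := by
          rw [div_pow]; ring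
  · apply summable_of_ne_finset_zero (s := {0})
    intro k hk
    rw [Finset.mem_singleton] at hk
    rw [zero_pow hk, mul_zero]

private theorem cv_val_zero (c : ℕ → ℂ) : ∑' k, c k * (0 : ℂ) ^ k = c 0 := by
  rw [tsum_eq_single 0]
  · simp
  · intro k hk
    rw [zero_pow hk, mul_zero]

private theorem cv_deriv_zero (c : ℕ → ℂ) : ∑' k : ℕ, c k * (k * (0 : ℂ) ^ (k - 1)) = c 1 := by
  rw [tsum_eq_single 1]
  · simp
  · intro k hk
    rcases Nat.lt_or_ge 1 k with h | h
    · rw [zero_pow (by omega)]; simp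
    · have : k = 0 := by omega
      rw [this]; simp

theorem exists_bad (n : ℕ) (L Gs : List Form) (c : ℤ → ℤ → ℕ → Fin (n + 1) → ℂ)
    (hL : ∀ P ∈ L, IsForm n P) (hG : ∀ G ∈ Gs, IsForm n G)
    (h : Lim n L Gs c) : ∃ f, Bad n L Gs f := by
  classical
  have hne : ∀ a b t, ‖t‖ < 1 → ser c a b t ≠ 0 := by
    intro a b t ht h0
    have := h.nz a b t ht
    rw [h0] at this
    norm_num at this
  obtain ⟨cen, hcen⟩ : ∃ cen : ℤ → ℤ → ℂ, cen = fun (a b : ℤ) => (a : ℂ) + b * Complex.I := ⟨_, rfl⟩
  have hround : ∀ z : ℂ, ‖z - cen (round z.re) (round z.im)‖ < 1 := by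
    intro z
    have h1 := abs_sub_round z.re
    have h2 := abs_sub_round z.im
    have hre : (z - cen (round z.re) (round z.im)).re = z.re - round z.re := by
      rw [hcen]; simp
    have him : (z - cen (round z.re) (round z.im)).im = z.im - round z.im := by
      rw [hcen]; simp
    rw [Complex.norm_def, Complex.normSq_apply, hre, him]
    rw [Real.sqrt_lt' one_pos]
    rw [abs_le] at h1 h2
    nlinarith [h1.1, h1.2, h2.1, h2.2]
  obtain ⟨f, hf⟩ : ∃ f : ℂ → PP n, f = fun z => Projectivization.mk ℂ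
    (ser c (round z.re) (round z.im) (z - cen (round z.re) (round z.im)))
    (hne _ _ _ (hround z)) := ⟨_, rfl⟩
  have hfz : ∀ (a b : ℤ) (z : ℂ) (hz : ‖z - cen a b‖ < 1),
      f z = Projectivization.mk ℂ (ser c a b (z - cen a b)) (hne _ _ _ hz) := by
    intro a b z hz
    rw [hf]
    simp only
    rw [Projectivization.mk_eq_mk_iff']
    apply cv_prop _ _ (hne _ _ _ hz)
    intro i j
    refine h.compat (round z.re) (round z.im) a b _ _ ?_ (hround z) hz i j
    rw [hcen]
    simp only
    ring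
  have hvan : ∀ (P : Form), IsForm n P → ∀ (a b : ℤ) (z : ℂ), ‖z - cen a b‖ < 1 →
      (VanishAt n P (f z) ↔ evalC n P (ser c a b (z - cen a b)) = 0) := by
    intro P hP a b z hz
    rw [hfz a b z hz]
    exact cv_vanish hP _ _
  have hmemball : ∀ (a b : ℤ) (z : ℂ), z ∈ ball (cen a b) 1 ↔ ‖z - cen a b‖ < 1 := by
    intro a b z
    rw [mem_ball, dist_eq_norm]
  refine ⟨f, ?_, ?_, ?_, ?_⟩
  · intro z
    refine ⟨fun w => ser c (round z.re) (round z.im) (w - cen (round z.re) (round z.im)),
      ball (cen (round z.re) (round z.im)) 1,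
      isOpen_ball.mem_nhds ((hmemball _ _ _).2 (hround z)), ?_, ?_⟩
    · rw [differentiableOn_pi]
      intro j w hw
      rw [hmemball] at hw
      have h1 := cv_hasDeriv (fun k => c (round z.re) (round z.im) k j)
        (fun k => h.size _ _ _ _) _ hw
      have h2 : HasDerivAt (fun w : ℂ => w - cen (round z.re) (round z.im)) 1 w :=
        (hasDerivAt_id w).sub_const _
      have h3 := HasDerivAt.comp w h1 h2
      exact h3.differentiableAt.differentiableWithinAt
    · intro w hw
      rw [hmemball] at hw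
      exact ⟨hne _ _ _ hw, hfz _ _ w hw⟩
  · intro z P hP
    rw [hvan P (hL P hP) (round z.re) (round z.im) z (hround z)]
    exact h.eqs _ _ _ (hround z) P hP
  · intro G hGm
    have htrans : ∀ (a b : ℤ) (z w : ℂ), ‖z - cen a b‖ < 1 → ‖w - cen a b‖ < 1 →
        VanishAt n G (f z) → VanishAt n G (f w) := by
      intro a b z w hz hw hv
      rw [hvan G (hG G hGm) a b z hz] at hv
      rw [hvan G (hG G hGm) a b w hw]
      have h1 := h.avoid a b (w - cen a b) (z - cen a b) hw hz G hGm
      rw [hv, norm_zero] at h1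
      have h2 : ‖evalC n G (ser c a b (w - cen a b))‖ ^ 6 ≤ 0 := by simpa using h1
      have h3 : ‖evalC n G (ser c a b (w - cen a b))‖ ^ 6 = 0 := le_antisymm h2 (by positivity)
      exact norm_eq_zero.1 (pow_eq_zero_iff (by norm_num) |>.1 h3)
    have hclopen : IsClopen {z | VanishAt n G (f z)} := by
      constructor
      · rw [← isOpen_compl_iff, isOpen_iff_mem_nhds]
        intro z hz
        refine mem_of_superset (isOpen_ball.mem_nhds ((hmemball (round z.re) (round z.im) z).2
          (hround z))) ?_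
        intro w hw hcon
        rw [hmemball] at hw
        exact hz (htrans _ _ w z hw (hround z) hcon)
      · rw [isOpen_iff_mem_nhds]
        intro z hz
        refine mem_of_superset (isOpen_ball.mem_nhds ((hmemball (round z.re) (round z.im) z).2
          (hround z))) ?_
        intro w hw
        rw [hmemball] at hw
        exact htrans _ _ z w (hround z) hw hz
    rcases isClopen_iff.1 hclopen with h1 | h1
    · right
      intro z hz
      have : z ∈ {z | VanishAt n G (f z)} := hz
      rw [h1] at this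
      exact this
    · left
      intro z
      have : z ∈ {z | VanishAt n G (f z)} := by rw [h1]; trivial
      exact this
  · by_contra hcon
    push Not at hcon
    obtain ⟨i, j, hij⟩ := h.nonconst
    apply hij
    have hc0 : cen 0 0 = 0 := by rw [hcen]; simp
    have hmin : ∀ t : ℂ, ‖t‖ < 1 →
        c 0 0 0 i * ser c 0 0 t j - c 0 0 0 j * ser c 0 0 t i = 0 := by
      intro t ht
      have ht' : ‖t - cen 0 0‖ < 1 := by rw [hc0, sub_zero]; exact ht
      have h0' : ‖(0 : ℂ) - cen 0 0‖ < 1 := by rw [hc0]; simp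
      have h1 := hcon t 0
      rw [hfz 0 0 t ht', hfz 0 0 0 h0', Projectivization.mk_eq_mk_iff'] at h1
      obtain ⟨a, ha⟩ := h1
      rw [hc0, sub_zero, sub_zero] at ha
      have hs0 : ∀ l, ser c 0 0 0 l = c 0 0 0 l := fun l =>
        cv_val_zero (fun k => c 0 0 k l)
      rw [← ha]
      simp only [Pi.smul_apply, smul_eq_mul, hs0]
      ring
    have hd : ∀ l, HasDerivAt (fun t => ser c 0 0 t l) (c 0 0 1 l) 0 := by
      intro l
      have h1 := cv_hasDeriv (fun k => c 0 0 k l) (fun k => h.size _ _ _ _) 0 (by simp)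
      rw [cv_deriv_zero (fun k => c 0 0 k l)] at h1
      exact h1
    have h1 := ((hd j).const_mul (c 0 0 0 i)).sub ((hd i).const_mul (c 0 0 0 j))
    have h2 : (fun t => c 0 0 0 i * ser c 0 0 t j - c 0 0 0 j * ser c 0 0 t i) =ᶠ[𝓝 0]
        fun _ => (0 : ℂ) := by
      filter_upwards [isOpen_ball.mem_nhds (show (0 : ℂ) ∈ ball (0 : ℂ) 1 by simp)] with t ht
      rw [mem_ball_zero_iff] at ht
      exact hmin t ht
    have h3 : HasDerivAt (fun t => c 0 0 0 i * ser c 0 0 t j - c 0 0 0 j * ser c 0 0 t i)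
        (0 : ℂ) 0 := (hasDerivAt_const (0 : ℂ) (0 : ℂ)).congr_of_eventuallyEq h2
    exact h1.unique h3

end Pool.Agent.Work.MP_90e0ad_ag
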