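import Mathlib
import Pool.Agent.Work.MP_90e0ad_ag.Gauss

/-!
MP_90e0ad_ag, module PRIMBASE: primitive recursive closure properties and the arithmetic
of G4. All functions below are built from natural number arithmetic (Primrec.nat_add,
nat_mul, nat_sub, nat_div, nat_mod), pairs, Nat.rec (Primrec.nat_rec), list folds
(Primrec.list_foldr, list_foldl, list_map, list_range, list_headD / list_head?, list_getD / list_getElem?).
For the integers: Primcodable Z comes from Denumerable Z (Int.instDenumerable, i.e.
Equiv.intEquivNat: n maps to 2n, -(n+1) maps to 2n+1); toNat, (-z).toNat and natAbs are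
primitive recursive functions of the code: use Primrec.encode / Primrec.dom_denumerable and
case distinction on parity of the code.
-/

namespace Pool.Agent.Work.MP_90e0ad_ag

open Primrec

variable {α β : Type} [Primcodable α] [Primcodable β]

theorem ballLt {g : α → ℕ} {p : α → ℕ → Prop} (hg : Primrec g) (hp : PrimrecRel p) :
    PrimrecPred fun a => ∀ x < g a, p a x := by
  have h1 : PrimrecRel fun (x : ℕ) (a : α) => p a x := hp.swap
  have h2 := PrimrecRel.forall_mem_list h1
  exact (PrimrecRel.comp (f := fun a => List.range (g a)) (g := fun a => a) h2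
    (Primrec.list_range.comp hg) Primrec.id).of_eq fun a => by simp

theorem bexLt {g : α → ℕ} {p : α → ℕ → Prop} (hg : Primrec g) (hp : PrimrecRel p) :
    PrimrecPred fun a => ∃ x < g a, p a x := by
  have h1 : PrimrecRel fun (x : ℕ) (a : α) => p a x := hp.swap
  have h2 := PrimrecRel.exists_mem_list h1
  exact (PrimrecRel.comp (f := fun a => List.range (g a)) (g := fun a => a) h2
    (Primrec.list_range.comp hg) Primrec.id).of_eq fun a => by simp

theorem ballMem {l : α → List β} {p : α → β → Prop} (hl : Primrec l) (hp : PrimrecRel p) :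
    PrimrecPred fun a => ∀ x ∈ l a, p a x :=
  PrimrecRel.comp (PrimrecRel.forall_mem_list hp.swap) hl Primrec.id

theorem primrecPred_imp {p q : α → Prop} (hp : PrimrecPred p) (hq : PrimrecPred q) :
    PrimrecPred fun a => p a → q a :=
  (hp.not.or hq).of_eq fun _ => imp_iff_not_or.symm

theorem primrec_pow : Primrec₂ fun x y : ℕ => x ^ y :=
  Primrec₂.unpaired'.1 Nat.Primrec.pow

private theorem encode_int (z : ℤ) : Encodable.encode z = Equiv.intEquivNat z := rfl

private theorem prim_even : PrimrecPred fun z : ℤ => Encodable.encode z % 2 = 0 :=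
  Primrec.eq.comp (nat_mod.comp Primrec.encode (Primrec.const 2)) (Primrec.const 0)

theorem primrec_toNat : Primrec Int.toNat := by
  refine (Primrec.ite (c := fun z : ℤ => Encodable.encode z % 2 = 0) prim_even
    (nat_div.comp Primrec.encode (Primrec.const 2)) (Primrec.const 0)).of_eq fun z => ?_
  rw [encode_int]
  cases z with
  | ofNat n =>
    have : Equiv.intEquivNat (Int.ofNat n) = 2 * n := rfl
    rw [this]
    simp
  | negSucc n =>
    have : Equiv.intEquivNat (Int.negSucc n) = 2 * n + 1 := rfl
    rw [this, if_neg (by omega)]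
    rfl

theorem primrec_negToNat : Primrec fun z : ℤ => (-z).toNat := by
  refine (Primrec.ite (c := fun z : ℤ => Encodable.encode z % 2 = 0) prim_even
    (Primrec.const 0) (nat_div.comp (nat_add.comp Primrec.encode (Primrec.const 1))
      (Primrec.const 2))).of_eq fun z => ?_
  rw [encode_int]
  cases z with
  | ofNat n =>
    have : Equiv.intEquivNat (Int.ofNat n) = 2 * n := rfl
    rw [this, if_pos (by omega)]
    simp
  | negSucc n =>
    have : Equiv.intEquivNat (Int.negSucc n) = 2 * n + 1 := rfl
    rw [this, if_neg (by omega)]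
    simp only [Int.neg_negSucc]
    have h2 : (2 * n + 1 + 1) / 2 = n + 1 := by omega
    rw [h2]
    rfl

theorem primrec_natAbs : Primrec Int.natAbs :=
  (nat_add.comp primrec_toNat primrec_negToNat).of_eq fun z => by
    omega

theorem primrec_gnat : Primrec gnat :=
  Primrec.pair (Primrec.pair Primrec.id (Primrec.const 0)) (Primrec.const (0, 0))

theorem primrec_gint : Primrec gint :=
  Primrec.pair (Primrec.pair primrec_toNat primrec_negToNat) (Primrec.const (0, 0))

private theorem p11 {f : α → G4} (hf : Primrec f) : Primrec fun a => (f a).1.1 :=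
  Primrec.fst.comp (Primrec.fst.comp hf)
private theorem p12 {f : α → G4} (hf : Primrec f) : Primrec fun a => (f a).1.2 :=
  Primrec.snd.comp (Primrec.fst.comp hf)
private theorem p21 {f : α → G4} (hf : Primrec f) : Primrec fun a => (f a).2.1 :=
  Primrec.fst.comp (Primrec.snd.comp hf)
private theorem p22 {f : α → G4} (hf : Primrec f) : Primrec fun a => (f a).2.2 :=
  Primrec.snd.comp (Primrec.snd.comp hf)
private theorem padd {f g : α → ℕ} (hf : Primrec f) (hg : Primrec g) :
    Primrec fun a => f a + g a := nat_add.comp hf hg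
private theorem pmul {f g : α → ℕ} (hf : Primrec f) (hg : Primrec g) :
    Primrec fun a => f a * g a := nat_mul.comp hf hg
private theorem psub {f g : α → ℕ} (hf : Primrec f) (hg : Primrec g) :
    Primrec fun a => f a - g a := nat_sub.comp hf hg

theorem primrec_gadd : Primrec₂ gadd := by
  have a := Primrec.fst (α := G4) (β := G4)
  have b := Primrec.snd (α := G4) (β := G4)
  exact Primrec.pair (Primrec.pair (padd (p11 a) (p11 b)) (padd (p12 a) (p12 b)))
    (Primrec.pair (padd (p21 a) (p21 b)) (padd (p22 a) (p22 b)))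

theorem primrec_gneg : Primrec gneg := by
  have a := Primrec.id (α := G4)
  exact Primrec.pair (Primrec.pair (p12 a) (p11 a)) (Primrec.pair (p22 a) (p21 a))

theorem primrec_gmul : Primrec₂ gmul := by
  have a := Primrec.fst (α := G4) (β := G4)
  have b := Primrec.snd (α := G4) (β := G4)
  exact Primrec.pair
    (Primrec.pair
      (padd (padd (padd (pmul (p11 a) (p11 b)) (pmul (p12 a) (p12 b)))
        (pmul (p21 a) (p22 b))) (pmul (p22 a) (p21 b)))
      (padd (padd (padd (pmul (p11 a) (p12 b)) (pmul (p12 a) (p11 b)))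
        (pmul (p21 a) (p21 b))) (pmul (p22 a) (p22 b))))
    (Primrec.pair
      (padd (padd (padd (pmul (p11 a) (p21 b)) (pmul (p12 a) (p22 b)))
        (pmul (p21 a) (p11 b))) (pmul (p22 a) (p12 b)))
      (padd (padd (padd (pmul (p11 a) (p22 b)) (pmul (p12 a) (p21 b)))
        (pmul (p21 a) (p12 b))) (pmul (p22 a) (p11 b))))

theorem primrec_gpow : Primrec₂ gpow :=
  Primrec.nat_rec' (α := G4 × ℕ) (β := G4) (f := fun p => p.2) (g := fun _ => gnat 1)
    (h := fun p q => gmul p.1 q.2) Primrec.snd (Primrec.const _)
    (primrec_gmul.comp (Primrec.fst.comp Primrec.fst) (Primrec.snd.comp Primrec.snd))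

theorem primrec_nsq : Primrec nsq := by
  have a := Primrec.id (α := G4)
  exact padd (primrec_pow.comp (padd (psub (p11 a) (p12 a)) (psub (p12 a) (p11 a)))
      (Primrec.const 2))
    (primrec_pow.comp (padd (psub (p21 a) (p22 a)) (psub (p22 a) (p21 a))) (Primrec.const 2))

theorem primrec_gsum {K : α → ℕ} {f : α → ℕ → G4} (hK : Primrec K) (hf : Primrec₂ f) :
    Primrec fun a => gsum (K a) (f a) :=
  Primrec.nat_rec' (β := G4) (g := fun _ => g0) (h := fun a q => gadd q.2 (f a q.1)) hK
    (Primrec.const _)
    (primrec_gadd.comp (Primrec.snd.comp Primrec.snd)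
      (hf.comp Primrec.fst (Primrec.fst.comp Primrec.snd)))

theorem primrec_gprod {K : α → ℕ} {f : α → ℕ → G4} (hK : Primrec K) (hf : Primrec₂ f) :
    Primrec fun a => gprod (K a) (f a) :=
  Primrec.nat_rec' (β := G4) (g := fun _ => gnat 1) (h := fun a q => gmul q.2 (f a q.1)) hK
    (Primrec.const _)
    (primrec_gmul.comp (Primrec.snd.comp Primrec.snd)
      (hf.comp Primrec.fst (Primrec.fst.comp Primrec.snd)))

theorem primrec_nsum {K : α → ℕ} {f : α → ℕ → ℕ} (hK : Primrec K) (hf : Primrec₂ f) :
    Primrec fun a => nsum (K a) (f a) :=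
  Primrec.nat_rec' (β := ℕ) (g := fun _ => 0) (h := fun a q => q.2 + f a q.1) hK
    (Primrec.const _)
    (nat_add.comp (Primrec.snd.comp Primrec.snd)
      (hf.comp Primrec.fst (Primrec.fst.comp Primrec.snd)))

theorem primrec_evalG {n : α → ℕ} {P : α → Form} {v : α → ℕ → G4} (hn : Primrec n)
    (hP : Primrec P) (hv : Primrec₂ v) : Primrec fun a => evalG (n a) (P a) (v a) := by
  have h1 : Primrec₂ fun (x : α × ((ℤ × List ℕ) × G4)) (i : ℕ) =>
      gpow (v x.1 i) (x.2.1.2.getD i 0) :=
    primrec_gpow.comp (hv.comp (Primrec.fst.comp Primrec.fst) Primrec.snd)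
      ((list_getD 0).comp (Primrec.snd.comp (Primrec.fst.comp (Primrec.snd.comp Primrec.fst)))
        Primrec.snd)
  have h2 : Primrec fun x : α × ((ℤ × List ℕ) × G4) =>
      gprod (n x.1 + 1) fun i => gpow (v x.1 i) (x.2.1.2.getD i 0) :=
    primrec_gprod (padd (hn.comp Primrec.fst) (Primrec.const 1)) h1
  have h3 : Primrec₂ fun (a : α) (q : (ℤ × List ℕ) × G4) =>
      gadd (gmul (gint q.1.1) (gprod (n a + 1) fun i => gpow (v a i) (q.1.2.getD i 0))) q.2 :=
    primrec_gadd.comp (primrec_gmul.comp
      (primrec_gint.comp (Primrec.fst.comp (Primrec.fst.comp Primrec.snd))) h2)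
      (Primrec.snd.comp Primrec.snd)
  exact Primrec.list_foldr hP (Primrec.const g0) h3

theorem primrec_listSum : Primrec fun l : List ℕ => l.sum :=
  (Primrec.list_foldr (f := fun l : List ℕ => l) (g := fun _ => 0)
    (h := fun _ (q : ℕ × ℕ) => q.1 + q.2) Primrec.id (Primrec.const 0)
    (nat_add.comp (Primrec.fst.comp Primrec.snd) (Primrec.snd.comp Primrec.snd))).of_eq
    fun l => by
      induction l with
      | nil => rfl
      | cons a l ih => simp only [List.foldr_cons, List.sum_cons, ih]

theorem primrec_wt : Primrec wt :=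
  primrec_listSum.comp (Primrec.list_map Primrec.id
    (pmul (primrec_natAbs.comp (Primrec.fst.comp Primrec.snd))
      (primrec_pow.comp (Primrec.const 4)
        (primrec_listSum.comp (Primrec.snd.comp Primrec.snd)))))

theorem primrec_deg0 : Primrec deg0 :=
  (primrec_listSum.comp (Primrec.snd.comp (option_getD.comp (Primrec.list_head?.comp Primrec.id)
    (Primrec.const ((0 : ℤ), ([] : List ℕ)))))).of_eq fun P => by
      unfold deg0
      rw [List.headD_eq_head?_getD]
      rfl

end Pool.Agent.Work.MP_90e0ad_ag
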