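import Mathlib
import Pool.Agent.Work.MP_90e0ad_ag.PrimBase

/-!
MP_90e0ad_ag, module PRIMCOND: the conditions are primitive recursive.
Context type: Input × ℕ × ℕ = (I, N, m). Use ballLt repeatedly (each bounded quantifier
extends the context by a pair), ballMem for the quantifiers over forms, primrecPred_imp,
and PrimrecRel for =, ≤ (Primrec.eq, Primrec.nat_le). It is convenient first to prove that
coef, gT, BB, gV are primitive recursive in the sense
Primrec fun q : ((ℕ × ℕ × ℕ) × ...) => ..., and then to compose.
-/

namespace Pool.Agent.Work.MP_90e0ad_ag

open Primrec

variable {α : Type} [Primcodable α]

namespace PC

variable {α β : Type} [Primcodable α] [Primcodable β]

theorem ball' {g : α → ℕ} {p : α → ℕ → Prop} (hg : Primrec g)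
    (hp : PrimrecPred fun q : α × ℕ => p q.1 q.2) : PrimrecPred fun a => ∀ x < g a, p a x :=
  ballLt hg hp

theorem mem' {l : α → List β} {p : α → β → Prop} (hl : Primrec l)
    (hp : PrimrecPred fun q : α × β => p q.1 q.2) : PrimrecPred fun a => ∀ x ∈ l a, p a x :=
  ballMem hl hp

theorem le' {f g : α → ℕ} (hf : Primrec f) (hg : Primrec g) : PrimrecPred fun a => f a ≤ g a :=
  Primrec.nat_le.comp hf hg

theorem eq' {f g : α → ℕ} (hf : Primrec f) (hg : Primrec g) : PrimrecPred fun a => f a = g a :=
  Primrec.eq.comp hf hg

theorem pow' {f g : α → ℕ} (hf : Primrec f) (hg : Primrec g) : Primrec fun a => f a ^ g a :=
  primrec_pow.comp hf hg

theorem add' {f g : α → ℕ} (hf : Primrec f) (hg : Primrec g) : Primrec fun a => f a + g a :=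
  Primrec.nat_add.comp hf hg

theorem mul' {f g : α → ℕ} (hf : Primrec f) (hg : Primrec g) : Primrec fun a => f a * g a :=
  Primrec.nat_mul.comp hf hg

theorem sub' {f g : α → ℕ} (hf : Primrec f) (hg : Primrec g) : Primrec fun a => f a - g a :=
  Primrec.nat_sub.comp hf hg

theorem div' {f g : α → ℕ} (hf : Primrec f) (hg : Primrec g) : Primrec fun a => f a / g a :=
  Primrec.nat_div.comp hf hg

theorem mod' {f g : α → ℕ} (hf : Primrec f) (hg : Primrec g) : Primrec fun a => f a % g a :=
  Primrec.nat_mod.comp hf hg

theorem fst' {γ : Type} [Primcodable γ] {f : α → β × γ} (hf : Primrec f) :
    Primrec fun a => (f a).1 := Primrec.fst.comp hf

theorem snd' {γ : Type} [Primcodable γ] {f : α → β × γ} (hf : Primrec f) :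
    Primrec fun a => (f a).2 := Primrec.snd.comp hf

theorem gmul' {f g : α → G4} (hf : Primrec f) (hg : Primrec g) :
    Primrec fun a => gmul (f a) (g a) := primrec_gmul.comp hf hg

theorem gadd' {f g : α → G4} (hf : Primrec f) (hg : Primrec g) :
    Primrec fun a => gadd (f a) (g a) := primrec_gadd.comp hf hg

theorem gpow' {f : α → G4} {g : α → ℕ} (hf : Primrec f) (hg : Primrec g) :
    Primrec fun a => gpow (f a) (g a) := primrec_gpow.comp hf hg

theorem gneg' {f : α → G4} (hf : Primrec f) : Primrec fun a => gneg (f a) :=
  primrec_gneg.comp hf

theorem gnat' {f : α → ℕ} (hf : Primrec f) : Primrec fun a => gnat (f a) :=
  primrec_gnat.comp hf

theorem nsq' {f : α → G4} (hf : Primrec f) : Primrec fun a => nsq (f a) :=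
  primrec_nsq.comp hf

theorem wt' {f : α → Form} (hf : Primrec f) : Primrec fun a => wt (f a) :=
  primrec_wt.comp hf

theorem deg0' {f : α → Form} (hf : Primrec f) : Primrec fun a => deg0 (f a) :=
  primrec_deg0.comp hf

theorem off' {N : α → ℕ} (hN : Primrec N) : Primrec fun x => off (N x) := by
  unfold off
  exact mul' (Primrec.const _) (pow' (Primrec.const _) hN)

theorem base' {N : α → ℕ} (hN : Primrec N) : Primrec fun x => base (N x) := by
  unfold base
  exact add' (mul' (Primrec.const _) (off' hN)) (Primrec.const _)

theorem dig' {B m i : α → ℕ} (hB : Primrec B) (hm : Primrec m) (hi : Primrec i) :
    Primrec fun x => dig (B x) (m x) (i x) := by
  unfold dig
  exact mod' (div' hm (pow' hB hi)) hB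

theorem idx' {n N a b k j : α → ℕ} (hn : Primrec n) (hN : Primrec N)
    (ha : Primrec a) (hb : Primrec b) (hk : Primrec k) (hj : Primrec j) :
    Primrec fun x => idx (n x) (N x) (a x) (b x) (k x) (j x) := by
  unfold idx
  exact add' (mul' (add' (mul' (add' (mul' ha (add' (mul' (Primrec.const _) hN)
    (Primrec.const _))) hb) (add' hN (Primrec.const _))) hk) (add' hn (Primrec.const _))) hj

theorem gminor' {x y x' y' : α → G4} (hx : Primrec x) (hy : Primrec y) (hx' : Primrec x')
    (hy' : Primrec y') : Primrec fun a => gminor (x a) (y a) (x' a) (y' a) := by
  unfold gminor
  exact gadd' (gmul' hx hy') (gneg' (gmul' hy hx'))

end PC

open PC

theorem primrec_coef {n N m a b k j : α → ℕ} (hn : Primrec n) (hN : Primrec N) (hm : Primrec m)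
    (ha : Primrec a) (hb : Primrec b) (hk : Primrec k) (hj : Primrec j) :
    Primrec fun x => coef (n x) (N x) (m x) (a x) (b x) (k x) (j x) := by
  unfold coef
  have h1 := idx' hn hN ha hb hk hj
  have h2 := off' hN
  have h3 := base' hN
  exact Primrec.pair
    (Primrec.pair (dig' h3 hm (mul' (Primrec.const _) h1)) h2)
    (Primrec.pair (dig' h3 hm (add' (mul' (Primrec.const _) h1) (Primrec.const _))) h2)

theorem primrec_gT {N s u : α → ℕ} (hN : Primrec N) (hs : Primrec s) (hu : Primrec u) :
    Primrec fun x => gT (N x) (s x) (u x) := by
  unfold gT
  have h2 : Primrec fun x => 2 ^ N x := pow' (Primrec.const _) hN
  exact Primrec.pair (Primrec.pair hs h2) (Primrec.pair hu h2)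

theorem primrec_BB {N : α → ℕ} (hN : Primrec N) : Primrec fun x => BB (N x) := by
  unfold BB
  exact pow' (Primrec.const _) (add' (mul' hN hN) (mul' (Primrec.const _) hN))

theorem primrec_gV {n N m a b s u j : α → ℕ} (hn : Primrec n) (hN : Primrec N) (hm : Primrec m)
    (ha : Primrec a) (hb : Primrec b) (hs : Primrec s) (hu : Primrec u) (hj : Primrec j) :
    Primrec fun x => gV (n x) (N x) (m x) (a x) (b x) (s x) (u x) (j x) := by
  unfold gV
  refine primrec_gsum (add' hN (Primrec.const _)) ?_
  have h1 : ∀ {f : α → ℕ}, Primrec f → Primrec fun p : α × ℕ => f p.1 :=
    fun h => h.comp Primrec.fst
  have hk : Primrec fun p : α × ℕ => p.2 := Primrec.snd
  exact gmul' (gmul' (primrec_coef (h1 hn) (h1 hN) (h1 hm) (h1 ha) (h1 hb) hk (h1 hj))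
    (gpow' (primrec_gT (h1 hN) (h1 hs) (h1 hu)) hk))
    (gnat' (pow' (Primrec.const _) (mul' (h1 hN) (sub' (h1 hN) hk))))

theorem primrec_condSize : PrimrecPred fun q : Input × ℕ × ℕ => condSize q.1.1 q.2.1 q.2.2 := by
  unfold condSize
  refine ball' (by repeat' first | with_reducible exact Primrec.const _ | with_reducible exact Primrec.id | with_reducible exact Primrec.fst | with_reducible exact Primrec.snd | with_reducible apply fst' | with_reducible apply snd' | with_reducible apply primrec_gV | with_reducible apply primrec_coef | with_reducible apply primrec_gT | with_reducible apply primrec_BB | with_reducible apply gminor' | with_reducible apply nsq' | with_reducible apply wt' | with_reducible apply deg0' | with_reducible apply add' | with_reducible apply mul' | with_reducible apply sub' | with_reducible apply pow') (ball' (by repeat' first | with_reducible exact Primrec.const _ | with_reducible exact Primrec.id | with_reducible exact Primrec.fst | with_reducible exact Primrec.snd | with_reducible apply fst' | with_reducible apply snd' | with_reducible apply primrec_gV | with_reducible apply primrec_coef | with_reducible apply primrec_gT | with_reducible apply primrec_BB | with_reducible apply gminor' | with_reducible apply nsq' | with_reducible apply wt' | with_reducible apply deg0' | with_reducible apply add' | with_reducible apply mul' | with_reducible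 apply sub' | with_reducible apply pow') (ball' (by repeat' first | with_reducible exact Primrec.const _ | with_reducible exact Primrec.id | with_reducible exact Primrec.fst | with_reducible exact Primrec.snd | with_reducible apply fst' | with_reducible apply snd' | with_reducible apply primrec_gV | with_reducible apply primrec_coef | with_reducible apply primrec_gT | with_reducible apply primrec_BB | with_reducible apply gminor' | with_reducible apply nsq' | with_reducible apply wt' | with_reducible apply deg0' | with_reducible apply add' | with_reducible apply mul' | with_reducible apply sub' | with_reducible apply pow') (ball' (by repeat' first | with_reducible exact Primrec.const _ | with_reducible exact Primrec.id | with_reducible exact Primrec.fst | with_reducible exact Primrec.snd | with_reducible apply fst' | with_reducible apply snd' | with_reducible apply primrec_gV | with_reducible apply primrec_coef | with_reducible apply primrec_gT | with_reducible apply primrec_BB | with_reducible apply gminor' | with_reducible apply nsq' | with_reducible apply wt' | with_reducible apply deg0' | with_reducible apply add' | with_reducible apply mul' | with_reducible apply sub' | with_reducible apply pow') (le' ?_ ?_))))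
  · repeat' first | with_reducible exact Primrec.const _ | with_reducible exact Primrec.id | with_reducible exact Primrec.fst | with_reducible exact Primrec.snd | with_reducible apply fst' | with_reducible apply snd' | with_reducible apply primrec_gV | with_reducible apply primrec_coef | with_reducible apply primrec_gT | with_reducible apply primrec_BB | with_reducible apply gminor' | with_reducible apply nsq' | with_reducible apply wt' | with_reducible apply deg0' | with_reducible apply add' | with_reducible apply mul' | with_reducible apply sub' | with_reducible apply pow'
  · repeat' first | with_reducible exact Primrec.const _ | with_reducible exact Primrec.id | with_reducible exact Primrec.fst | with_reducible exact Primrec.snd | with_reducible apply fst' | with_reducible apply snd' | with_reducible apply primrec_gV | with_reducible apply primrec_coef | with_reducible apply primrec_gT | with_reducible apply primrec_BB | with_reducible apply gminor' | with_reducible apply nsq' | with_reducible apply wt' | with_reducible apply deg0' | with_reducible apply add' | with_reducible apply mul' | with_reducible apply sub' | with_reducible apply pow'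

theorem primrec_condNz : PrimrecPred fun q : Input × ℕ × ℕ => condNz q.1.1 q.2.1 q.2.2 := by
  unfold condNz
  refine ball' (by repeat' first | with_reducible exact Primrec.const _ | with_reducible exact Primrec.id | with_reducible exact Primrec.fst | with_reducible exact Primrec.snd | with_reducible apply fst' | with_reducible apply snd' | with_reducible apply primrec_gV | with_reducible apply primrec_coef | with_reducible apply primrec_gT | with_reducible apply primrec_BB | with_reducible apply gminor' | with_reducible apply nsq' | with_reducible apply wt' | with_reducible apply deg0' | with_reducible apply add' | with_reducible apply mul' | with_reducible apply sub' | with_reducible apply pow') (ball' (by repeat' first | with_reducible exact Primrec.const _ | with_reducible exact Primrec.id | with_reducible exact Primrec.fst | with_reducible exact Primrec.snd | with_reducible apply fst' | with_reducible apply snd' | with_reducible apply primrec_gV | with_reducible apply primrec_coef | with_reducible apply primrec_gT | with_reducible apply primrec_BB | with_reducible apply gminor' | with_reducible apply nsq' | with_reducible apply wt' | with_reducible apply deg0' | with_reducible apply add' | with_reducible apply mul' | with_reducible apply sub' | with_reducible apply pow') (ball' (by repeat' first | with_reducible exact Primrec.const _ | with_reducible exact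 Primrec.id | with_reducible exact Primrec.fst | with_reducible exact Primrec.snd | with_reducible apply fst' | with_reducible apply snd' | with_reducible apply primrec_gV | with_reducible apply primrec_coef | with_reducible apply primrec_gT | with_reducible apply primrec_BB | with_reducible apply gminor' | with_reducible apply nsq' | with_reducible apply wt' | with_reducible apply deg0' | with_reducible apply add' | with_reducible apply mul' | with_reducible apply sub' | with_reducible apply pow') (ball' (by repeat' first | with_reducible exact Primrec.const _ | with_reducible exact Primrec.id | with_reducible exact Primrec.fst | with_reducible exact Primrec.snd | with_reducible apply fst' | with_reducible apply snd' | with_reducible apply primrec_gV | with_reducible apply primrec_coef | with_reducible apply primrec_gT | with_reducible apply primrec_BB | with_reducible apply gminor' | with_reducible apply nsq' | with_reducible apply wt' | with_reducible apply deg0' | with_reducible apply add' | with_reducible apply mul' | with_reducible apply sub' | with_reducible apply pow')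
    (primrecPred_imp (le' ?_ ?_) (le' ?_ ?_)))))
  · repeat' first | with_reducible exact Primrec.const _ | with_reducible exact Primrec.id | with_reducible exact Primrec.fst | with_reducible exact Primrec.snd | with_reducible apply fst' | with_reducible apply snd' | with_reducible apply primrec_gV | with_reducible apply primrec_coef | with_reducible apply primrec_gT | with_reducible apply primrec_BB | with_reducible apply gminor' | with_reducible apply nsq' | with_reducible apply wt' | with_reducible apply deg0' | with_reducible apply add' | with_reducible apply mul' | with_reducible apply sub' | with_reducible apply pow'
  · repeat' first | with_reducible exact Primrec.const _ | with_reducible exact Primrec.id | with_reducible exact Primrec.fst | with_reducible exact Primrec.snd | with_reducible apply fst' | with_reducible apply snd' | with_reducible apply primrec_gV | with_reducible apply primrec_coef | with_reducible apply primrec_gT | with_reducible apply primrec_BB | with_reducible apply gminor' | with_reducible apply nsq' | with_reducible apply wt' | with_reducible apply deg0' | with_reducible apply add' | with_reducible apply mul' | with_reducible apply sub' | with_reducible apply pow'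
  · repeat' first | with_reducible exact Primrec.const _ | with_reducible exact Primrec.id | with_reducible exact Primrec.fst | with_reducible exact Primrec.snd | with_reducible apply fst' | with_reducible apply snd' | with_reducible apply primrec_gV | with_reducible apply primrec_coef | with_reducible apply primrec_gT | with_reducible apply primrec_BB | with_reducible apply gminor' | with_reducible apply nsq' | with_reducible apply wt' | with_reducible apply deg0' | with_reducible apply add' | with_reducible apply mul' | with_reducible apply sub' | with_reducible apply pow'
  · refine mul' (Primrec.const _) (primrec_nsum (by repeat' first | with_reducible exact Primrec.const _ | with_reducible exact Primrec.id | with_reducible exact Primrec.fst | with_reducible exact Primrec.snd | with_reducible apply fst' | with_reducible apply snd' | with_reducible apply primrec_gV | with_reducible apply primrec_coef | with_reducible apply primrec_gT | with_reducible apply primrec_BB | with_reducible apply gminor' | with_reducible apply nsq' | with_reducible apply wt' | with_reducible apply deg0' | with_reducible apply add' | with_reducible apply mul' | with_reducible apply sub' | with_reducible apply pow') ?_)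
    unfold Primrec₂
    repeat' first | with_reducible exact Primrec.const _ | with_reducible exact Primrec.id | with_reducible exact Primrec.fst | with_reducible exact Primrec.snd | with_reducible apply fst' | with_reducible apply snd' | with_reducible apply primrec_gV | with_reducible apply primrec_coef | with_reducible apply primrec_gT | with_reducible apply primrec_BB | with_reducible apply gminor' | with_reducible apply nsq' | with_reducible apply wt' | with_reducible apply deg0' | with_reducible apply add' | with_reducible apply mul' | with_reducible apply sub' | with_reducible apply pow'

theorem primrec_condEqs :
    PrimrecPred fun q : Input × ℕ × ℕ => condEqs q.1.1 q.1.2.1 q.2.1 q.2.2 := by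
  unfold condEqs
  refine ball' (by repeat' first | with_reducible exact Primrec.const _ | with_reducible exact Primrec.id | with_reducible exact Primrec.fst | with_reducible exact Primrec.snd | with_reducible apply fst' | with_reducible apply snd' | with_reducible apply primrec_gV | with_reducible apply primrec_coef | with_reducible apply primrec_gT | with_reducible apply primrec_BB | with_reducible apply gminor' | with_reducible apply nsq' | with_reducible apply wt' | with_reducible apply deg0' | with_reducible apply add' | with_reducible apply mul' | with_reducible apply sub' | with_reducible apply pow') (ball' (by repeat' first | with_reducible exact Primrec.const _ | with_reducible exact Primrec.id | with_reducible exact Primrec.fst | with_reducible exact Primrec.snd | with_reducible apply fst' | with_reducible apply snd' | with_reducible apply primrec_gV | with_reducible apply primrec_coef | with_reducible apply primrec_gT | with_reducible apply primrec_BB | with_reducible apply gminor' | with_reducible apply nsq' | with_reducible apply wt' | with_reducible apply deg0' | with_reducible apply add' | with_reducible apply mul' | with_reducible apply sub' | with_reducible apply pow') (ball' (by repeat' first | with_reducible exact Primrec.const _ | with_reducible exact Primrec.id | with_reducible exact Primrec.fst | with_reducible exact Primrec.snd | with_reducible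 apply fst' | with_reducible apply snd' | with_reducible apply primrec_gV | with_reducible apply primrec_coef | with_reducible apply primrec_gT | with_reducible apply primrec_BB | with_reducible apply gminor' | with_reducible apply nsq' | with_reducible apply wt' | with_reducible apply deg0' | with_reducible apply add' | with_reducible apply mul' | with_reducible apply sub' | with_reducible apply pow') (ball' (by repeat' first | with_reducible exact Primrec.const _ | with_reducible exact Primrec.id | with_reducible exact Primrec.fst | with_reducible exact Primrec.snd | with_reducible apply fst' | with_reducible apply snd' | with_reducible apply primrec_gV | with_reducible apply primrec_coef | with_reducible apply primrec_gT | with_reducible apply primrec_BB | with_reducible apply gminor' | with_reducible apply nsq' | with_reducible apply wt' | with_reducible apply deg0' | with_reducible apply add' | with_reducible apply mul' | with_reducible apply sub' | with_reducible apply pow')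
    (primrecPred_imp (le' ?_ ?_) (mem' ?_ (le' ?_ ?_))))))
  · repeat' first | with_reducible exact Primrec.const _ | with_reducible exact Primrec.id | with_reducible exact Primrec.fst | with_reducible exact Primrec.snd | with_reducible apply fst' | with_reducible apply snd' | with_reducible apply primrec_gV | with_reducible apply primrec_coef | with_reducible apply primrec_gT | with_reducible apply primrec_BB | with_reducible apply gminor' | with_reducible apply nsq' | with_reducible apply wt' | with_reducible apply deg0' | with_reducible apply add' | with_reducible apply mul' | with_reducible apply sub' | with_reducible apply pow'
  · repeat' first | with_reducible exact Primrec.const _ | with_reducible exact Primrec.id | with_reducible exact Primrec.fst | with_reducible exact Primrec.snd | with_reducible apply fst' | with_reducible apply snd' | with_reducible apply primrec_gV | with_reducible apply primrec_coef | with_reducible apply primrec_gT | with_reducible apply primrec_BB | with_reducible apply gminor' | with_reducible apply nsq' | with_reducible apply wt' | with_reducible apply deg0' | with_reducible apply add' | with_reducible apply mul' | with_reducible apply sub' | with_reducible apply pow'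
  · repeat' first | with_reducible exact Primrec.const _ | with_reducible exact Primrec.id | with_reducible exact Primrec.fst | with_reducible exact Primrec.snd | with_reducible apply fst' | with_reducible apply snd' | with_reducible apply primrec_gV | with_reducible apply primrec_coef | with_reducible apply primrec_gT | with_reducible apply primrec_BB | with_reducible apply gminor' | with_reducible apply nsq' | with_reducible apply wt' | with_reducible apply deg0' | with_reducible apply add' | with_reducible apply mul' | with_reducible apply sub' | with_reducible apply pow'
  · refine mul' (nsq' (primrec_evalG (by repeat' first | with_reducible exact Primrec.const _ | with_reducible exact Primrec.id | with_reducible exact Primrec.fst | with_reducible exact Primrec.snd | with_reducible apply fst' | with_reducible apply snd' | with_reducible apply primrec_gV | with_reducible apply primrec_coef | with_reducible apply primrec_gT | with_reducible apply primrec_BB | with_reducible apply gminor' | with_reducible apply nsq' | with_reducible apply wt' | with_reducible apply deg0' | with_reducible apply add' | with_reducible apply mul' | with_reducible apply sub' | with_reducible apply pow') (by repeat' first | with_reducible exact Primrec.const _ | with_reducible exact Primrec.id | with_reducible exact Primrec.fst | with_reducible exact Primrec.snd | with_reducible apply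 fst' | with_reducible apply snd' | with_reducible apply primrec_gV | with_reducible apply primrec_coef | with_reducible apply primrec_gT | with_reducible apply primrec_BB | with_reducible apply gminor' | with_reducible apply nsq' | with_reducible apply wt' | with_reducible apply deg0' | with_reducible apply add' | with_reducible apply mul' | with_reducible apply sub' | with_reducible apply pow') ?_)) (by repeat' first | with_reducible exact Primrec.const _ | with_reducible exact Primrec.id | with_reducible exact Primrec.fst | with_reducible exact Primrec.snd | with_reducible apply fst' | with_reducible apply snd' | with_reducible apply primrec_gV | with_reducible apply primrec_coef | with_reducible apply primrec_gT | with_reducible apply primrec_BB | with_reducible apply gminor' | with_reducible apply nsq' | with_reducible apply wt' | with_reducible apply deg0' | with_reducible apply add' | with_reducible apply mul' | with_reducible apply sub' | with_reducible apply pow')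
    unfold Primrec₂
    repeat' first | with_reducible exact Primrec.const _ | with_reducible exact Primrec.id | with_reducible exact Primrec.fst | with_reducible exact Primrec.snd | with_reducible apply fst' | with_reducible apply snd' | with_reducible apply primrec_gV | with_reducible apply primrec_coef | with_reducible apply primrec_gT | with_reducible apply primrec_BB | with_reducible apply gminor' | with_reducible apply nsq' | with_reducible apply wt' | with_reducible apply deg0' | with_reducible apply add' | with_reducible apply mul' | with_reducible apply sub' | with_reducible apply pow'
  · repeat' first | with_reducible exact Primrec.const _ | with_reducible exact Primrec.id | with_reducible exact Primrec.fst | with_reducible exact Primrec.snd | with_reducible apply fst' | with_reducible apply snd' | with_reducible apply primrec_gV | with_reducible apply primrec_coef | with_reducible apply primrec_gT | with_reducible apply primrec_BB | with_reducible apply gminor' | with_reducible apply nsq' | with_reducible apply wt' | with_reducible apply deg0' | with_reducible apply add' | with_reducible apply mul' | with_reducible apply sub' | with_reducible apply pow'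

theorem primrec_condCompat :
    PrimrecPred fun q : Input × ℕ × ℕ => condCompat q.1.1 q.2.1 q.2.2 := by
  unfold condCompat
  refine ball' (by repeat' first | with_reducible exact Primrec.const _ | with_reducible exact Primrec.id | with_reducible exact Primrec.fst | with_reducible exact Primrec.snd | with_reducible apply fst' | with_reducible apply snd' | with_reducible apply primrec_gV | with_reducible apply primrec_coef | with_reducible apply primrec_gT | with_reducible apply primrec_BB | with_reducible apply gminor' | with_reducible apply nsq' | with_reducible apply wt' | with_reducible apply deg0' | with_reducible apply add' | with_reducible apply mul' | with_reducible apply sub' | with_reducible apply pow') (ball' (by repeat' first | with_reducible exact Primrec.const _ | with_reducible exact Primrec.id | with_reducible exact Primrec.fst | with_reducible exact Primrec.snd | with_reducible apply fst' | with_reducible apply snd' | with_reducible apply primrec_gV | with_reducible apply primrec_coef | with_reducible apply primrec_gT | with_reducible apply primrec_BB | with_reducible apply gminor' | with_reducible apply nsq' | with_reducible apply wt' | with_reducible apply deg0' | with_reducible apply add' | with_reducible apply mul' | with_reducible apply sub' | with_reducible apply pow') (ball' (by repeat' first | with_reducible exact Primrec.const _ | with_reducible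 exact Primrec.id | with_reducible exact Primrec.fst | with_reducible exact Primrec.snd | with_reducible apply fst' | with_reducible apply snd' | with_reducible apply primrec_gV | with_reducible apply primrec_coef | with_reducible apply primrec_gT | with_reducible apply primrec_BB | with_reducible apply gminor' | with_reducible apply nsq' | with_reducible apply wt' | with_reducible apply deg0' | with_reducible apply add' | with_reducible apply mul' | with_reducible apply sub' | with_reducible apply pow') (ball' (by repeat' first | with_reducible exact Primrec.const _ | with_reducible exact Primrec.id | with_reducible exact Primrec.fst | with_reducible exact Primrec.snd | with_reducible apply fst' | with_reducible apply snd' | with_reducible apply primrec_gV | with_reducible apply primrec_coef | with_reducible apply primrec_gT | with_reducible apply primrec_BB | with_reducible apply gminor' | with_reducible apply nsq' | with_reducible apply wt' | with_reducible apply deg0' | with_reducible apply add' | with_reducible apply mul' | with_reducible apply sub' | with_reducible apply pow')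
    (ball' (by repeat' first | with_reducible exact Primrec.const _ | with_reducible exact Primrec.id | with_reducible exact Primrec.fst | with_reducible exact Primrec.snd | with_reducible apply fst' | with_reducible apply snd' | with_reducible apply primrec_gV | with_reducible apply primrec_coef | with_reducible apply primrec_gT | with_reducible apply primrec_BB | with_reducible apply gminor' | with_reducible apply nsq' | with_reducible apply wt' | with_reducible apply deg0' | with_reducible apply add' | with_reducible apply mul' | with_reducible apply sub' | with_reducible apply pow') (ball' (by repeat' first | with_reducible exact Primrec.const _ | with_reducible exact Primrec.id | with_reducible exact Primrec.fst | with_reducible exact Primrec.snd | with_reducible apply fst' | with_reducible apply snd' | with_reducible apply primrec_gV | with_reducible apply primrec_coef | with_reducible apply primrec_gT | with_reducible apply primrec_BB | with_reducible apply gminor' | with_reducible apply nsq' | with_reducible apply wt' | with_reducible apply deg0' | with_reducible apply add' | with_reducible apply mul' | with_reducible apply sub' | with_reducible apply pow') (ball' (by repeat' first | with_reducible exact Primrec.const _ | with_reducible exact Primrec.id | with_reducible exact Primrec.fst | with_reducible exact Primrec.snd | with_reducible apply fst' |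 with_reducible apply snd' | with_reducible apply primrec_gV | with_reducible apply primrec_coef | with_reducible apply primrec_gT | with_reducible apply primrec_BB | with_reducible apply gminor' | with_reducible apply nsq' | with_reducible apply wt' | with_reducible apply deg0' | with_reducible apply add' | with_reducible apply mul' | with_reducible apply sub' | with_reducible apply pow') (ball' (by repeat' first | with_reducible exact Primrec.const _ | with_reducible exact Primrec.id | with_reducible exact Primrec.fst | with_reducible exact Primrec.snd | with_reducible apply fst' | with_reducible apply snd' | with_reducible apply primrec_gV | with_reducible apply primrec_coef | with_reducible apply primrec_gT | with_reducible apply primrec_BB | with_reducible apply gminor' | with_reducible apply nsq' | with_reducible apply wt' | with_reducible apply deg0' | with_reducible apply add' | with_reducible apply mul' | with_reducible apply sub' | with_reducible apply pow')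
    (primrecPred_imp (eq' ?_ ?_) (primrecPred_imp (eq' ?_ ?_) (primrecPred_imp (le' ?_ ?_)
    (primrecPred_imp (le' ?_ ?_) (ball' (by repeat' first | with_reducible exact Primrec.const _ | with_reducible exact Primrec.id | with_reducible exact Primrec.fst | with_reducible exact Primrec.snd | with_reducible apply fst' | with_reducible apply snd' | with_reducible apply primrec_gV | with_reducible apply primrec_coef | with_reducible apply primrec_gT | with_reducible apply primrec_BB | with_reducible apply gminor' | with_reducible apply nsq' | with_reducible apply wt' | with_reducible apply deg0' | with_reducible apply add' | with_reducible apply mul' | with_reducible apply sub' | with_reducible apply pow') (ball' (by repeat' first | with_reducible exact Primrec.const _ | with_reducible exact Primrec.id | with_reducible exact Primrec.fst | with_reducible exact Primrec.snd | with_reducible apply fst' | with_reducible apply snd' | with_reducible apply primrec_gV | with_reducible apply primrec_coef | with_reducible apply primrec_gT | with_reducible apply primrec_BB | with_reducible apply gminor' | with_reducible apply nsq' | with_reducible apply wt' | with_reducible apply deg0' | with_reducible apply add' | with_reducible apply mul' | with_reducible apply sub' | with_reducible apply pow') (le' ?_ ?_))))))))))))))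
  all_goals (repeat' first | with_reducible exact Primrec.const _ | with_reducible exact Primrec.id | with_reducible exact Primrec.fst | with_reducible exact Primrec.snd | with_reducible apply fst' | with_reducible apply snd' | with_reducible apply primrec_gV | with_reducible apply primrec_coef | with_reducible apply primrec_gT | with_reducible apply primrec_BB | with_reducible apply gminor' | with_reducible apply nsq' | with_reducible apply wt' | with_reducible apply deg0' | with_reducible apply add' | with_reducible apply mul' | with_reducible apply sub' | with_reducible apply pow')

theorem primrec_condNonconst :
    PrimrecPred fun q : Input × ℕ × ℕ => condNonconst q.1.1 q.2.1 q.2.2 := by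
  unfold condNonconst
  refine le' (by repeat' first | with_reducible exact Primrec.const _ | with_reducible exact Primrec.id | with_reducible exact Primrec.fst | with_reducible exact Primrec.snd | with_reducible apply fst' | with_reducible apply snd' | with_reducible apply primrec_gV | with_reducible apply primrec_coef | with_reducible apply primrec_gT | with_reducible apply primrec_BB | with_reducible apply gminor' | with_reducible apply nsq' | with_reducible apply wt' | with_reducible apply deg0' | with_reducible apply add' | with_reducible apply mul' | with_reducible apply sub' | with_reducible apply pow') (mul' (by repeat' first | with_reducible exact Primrec.const _ | with_reducible exact Primrec.id | with_reducible exact Primrec.fst | with_reducible exact Primrec.snd | with_reducible apply fst' | with_reducible apply snd' | with_reducible apply primrec_gV | with_reducible apply primrec_coef | with_reducible apply primrec_gT | with_reducible apply primrec_BB | with_reducible apply gminor' | with_reducible apply nsq' | with_reducible apply wt' | with_reducible apply deg0' | with_reducible apply add' | with_reducible apply mul' | with_reducible apply sub' | with_reducible apply pow') (primrec_nsum (by repeat' first | with_reducible exact Primrec.const _ | with_reducible exact Primrec.id | with_reducible exact Primrec.fst | with_reducible exact Primrec.snd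 | with_reducible apply fst' | with_reducible apply snd' | with_reducible apply primrec_gV | with_reducible apply primrec_coef | with_reducible apply primrec_gT | with_reducible apply primrec_BB | with_reducible apply gminor' | with_reducible apply nsq' | with_reducible apply wt' | with_reducible apply deg0' | with_reducible apply add' | with_reducible apply mul' | with_reducible apply sub' | with_reducible apply pow') ?_))
  unfold Primrec₂
  refine primrec_nsum (by repeat' first | with_reducible exact Primrec.const _ | with_reducible exact Primrec.id | with_reducible exact Primrec.fst | with_reducible exact Primrec.snd | with_reducible apply fst' | with_reducible apply snd' | with_reducible apply primrec_gV | with_reducible apply primrec_coef | with_reducible apply primrec_gT | with_reducible apply primrec_BB | with_reducible apply gminor' | with_reducible apply nsq' | with_reducible apply wt' | with_reducible apply deg0' | with_reducible apply add' | with_reducible apply mul' | with_reducible apply sub' | with_reducible apply pow') ?_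
  unfold Primrec₂
  repeat' first | with_reducible exact Primrec.const _ | with_reducible exact Primrec.id | with_reducible exact Primrec.fst | with_reducible exact Primrec.snd | with_reducible apply fst' | with_reducible apply snd' | with_reducible apply primrec_gV | with_reducible apply primrec_coef | with_reducible apply primrec_gT | with_reducible apply primrec_BB | with_reducible apply gminor' | with_reducible apply nsq' | with_reducible apply wt' | with_reducible apply deg0' | with_reducible apply add' | with_reducible apply mul' | with_reducible apply sub' | with_reducible apply pow'

theorem primrec_condAvoid :
    PrimrecPred fun q : Input × ℕ × ℕ => condAvoid q.1.1 q.1.2.2 q.2.1 q.2.2 := by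
  unfold condAvoid
  refine ball' (by repeat' first | with_reducible exact Primrec.const _ | with_reducible exact Primrec.id | with_reducible exact Primrec.fst | with_reducible exact Primrec.snd | with_reducible apply fst' | with_reducible apply snd' | with_reducible apply primrec_gV | with_reducible apply primrec_coef | with_reducible apply primrec_gT | with_reducible apply primrec_BB | with_reducible apply gminor' | with_reducible apply nsq' | with_reducible apply wt' | with_reducible apply deg0' | with_reducible apply add' | with_reducible apply mul' | with_reducible apply sub' | with_reducible apply pow') (ball' (by repeat' first | with_reducible exact Primrec.const _ | with_reducible exact Primrec.id | with_reducible exact Primrec.fst | with_reducible exact Primrec.snd | with_reducible apply fst' | with_reducible apply snd' | with_reducible apply primrec_gV | with_reducible apply primrec_coef | with_reducible apply primrec_gT | with_reducible apply primrec_BB | with_reducible apply gminor' | with_reducible apply nsq' | with_reducible apply wt' | with_reducible apply deg0' | with_reducible apply add' | with_reducible apply mul' | with_reducible apply sub' | with_reducible apply pow') (ball' (by repeat' first | with_reducible exact Primrec.const _ | with_reducible exact Primrec.id | with_reducible exact Primrec.fst | with_reducible exact Primrec.snd | with_reducible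 apply fst' | with_reducible apply snd' | with_reducible apply primrec_gV | with_reducible apply primrec_coef | with_reducible apply primrec_gT | with_reducible apply primrec_BB | with_reducible apply gminor' | with_reducible apply nsq' | with_reducible apply wt' | with_reducible apply deg0' | with_reducible apply add' | with_reducible apply mul' | with_reducible apply sub' | with_reducible apply pow') (ball' (by repeat' first | with_reducible exact Primrec.const _ | with_reducible exact Primrec.id | with_reducible exact Primrec.fst | with_reducible exact Primrec.snd | with_reducible apply fst' | with_reducible apply snd' | with_reducible apply primrec_gV | with_reducible apply primrec_coef | with_reducible apply primrec_gT | with_reducible apply primrec_BB | with_reducible apply gminor' | with_reducible apply nsq' | with_reducible apply wt' | with_reducible apply deg0' | with_reducible apply add' | with_reducible apply mul' | with_reducible apply sub' | with_reducible apply pow')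
    (ball' (by repeat' first | with_reducible exact Primrec.const _ | with_reducible exact Primrec.id | with_reducible exact Primrec.fst | with_reducible exact Primrec.snd | with_reducible apply fst' | with_reducible apply snd' | with_reducible apply primrec_gV | with_reducible apply primrec_coef | with_reducible apply primrec_gT | with_reducible apply primrec_BB | with_reducible apply gminor' | with_reducible apply nsq' | with_reducible apply wt' | with_reducible apply deg0' | with_reducible apply add' | with_reducible apply mul' | with_reducible apply sub' | with_reducible apply pow') (ball' (by repeat' first | with_reducible exact Primrec.const _ | with_reducible exact Primrec.id | with_reducible exact Primrec.fst | with_reducible exact Primrec.snd | with_reducible apply fst' | with_reducible apply snd' | with_reducible apply primrec_gV | with_reducible apply primrec_coef | with_reducible apply primrec_gT | with_reducible apply primrec_BB | with_reducible apply gminor' | with_reducible apply nsq' | with_reducible apply wt' | with_reducible apply deg0' | with_reducible apply add' | with_reducible apply mul' | with_reducible apply sub' | with_reducible apply pow')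
    (primrecPred_imp (le' ?_ ?_) (primrecPred_imp (le' ?_ ?_) (mem' ?_ (le' ?_ ?_)))))))))
  · repeat' first | with_reducible exact Primrec.const _ | with_reducible exact Primrec.id | with_reducible exact Primrec.fst | with_reducible exact Primrec.snd | with_reducible apply fst' | with_reducible apply snd' | with_reducible apply primrec_gV | with_reducible apply primrec_coef | with_reducible apply primrec_gT | with_reducible apply primrec_BB | with_reducible apply gminor' | with_reducible apply nsq' | with_reducible apply wt' | with_reducible apply deg0' | with_reducible apply add' | with_reducible apply mul' | with_reducible apply sub' | with_reducible apply pow'
  · repeat' first | with_reducible exact Primrec.const _ | with_reducible exact Primrec.id | with_reducible exact Primrec.fst | with_reducible exact Primrec.snd | with_reducible apply fst' | with_reducible apply snd' | with_reducible apply primrec_gV | with_reducible apply primrec_coef | with_reducible apply primrec_gT | with_reducible apply primrec_BB | with_reducible apply gminor' | with_reducible apply nsq' | with_reducible apply wt' | with_reducible apply deg0' | with_reducible apply add' | with_reducible apply mul' | with_reducible apply sub' | with_reducible apply pow'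
  · repeat' first | with_reducible exact Primrec.const _ | with_reducible exact Primrec.id | with_reducible exact Primrec.fst | with_reducible exact Primrec.snd | with_reducible apply fst' | with_reducible apply snd' | with_reducible apply primrec_gV | with_reducible apply primrec_coef | with_reducible apply primrec_gT | with_reducible apply primrec_BB | with_reducible apply gminor' | with_reducible apply nsq' | with_reducible apply wt' | with_reducible apply deg0' | with_reducible apply add' | with_reducible apply mul' | with_reducible apply sub' | with_reducible apply pow'
  · repeat' first | with_reducible exact Primrec.const _ | with_reducible exact Primrec.id | with_reducible exact Primrec.fst | with_reducible exact Primrec.snd | with_reducible apply fst' | with_reducible apply snd' | with_reducible apply primrec_gV | with_reducible apply primrec_coef | with_reducible apply primrec_gT | with_reducible apply primrec_BB | with_reducible apply gminor' | with_reducible apply nsq' | with_reducible apply wt' | with_reducible apply deg0' | with_reducible apply add' | with_reducible apply mul' | with_reducible apply sub' | with_reducible apply pow'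
  · repeat' first | with_reducible exact Primrec.const _ | with_reducible exact Primrec.id | with_reducible exact Primrec.fst | with_reducible exact Primrec.snd | with_reducible apply fst' | with_reducible apply snd' | with_reducible apply primrec_gV | with_reducible apply primrec_coef | with_reducible apply primrec_gT | with_reducible apply primrec_BB | with_reducible apply gminor' | with_reducible apply nsq' | with_reducible apply wt' | with_reducible apply deg0' | with_reducible apply add' | with_reducible apply mul' | with_reducible apply sub' | with_reducible apply pow'
  · refine mul' (pow' (nsq' (primrec_evalG (by repeat' first | with_reducible exact Primrec.const _ | with_reducible exact Primrec.id | with_reducible exact Primrec.fst | with_reducible exact Primrec.snd | with_reducible apply fst' | with_reducible apply snd' | with_reducible apply primrec_gV | with_reducible apply primrec_coef | with_reducible apply primrec_gT | with_reducible apply primrec_BB | with_reducible apply gminor' | with_reducible apply nsq' | with_reducible apply wt' | with_reducible apply deg0' | with_reducible apply add' | with_reducible apply mul' | with_reducible apply sub' | with_reducible apply pow') (by repeat' first | with_reducible exact Primrec.const _ | with_reducible exact Primrec.id | with_reducible exact Primrec.fst | with_reducible exact Primrec.snd | with_reducible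 apply fst' | with_reducible apply snd' | with_reducible apply primrec_gV | with_reducible apply primrec_coef | with_reducible apply primrec_gT | with_reducible apply primrec_BB | with_reducible apply gminor' | with_reducible apply nsq' | with_reducible apply wt' | with_reducible apply deg0' | with_reducible apply add' | with_reducible apply mul' | with_reducible apply sub' | with_reducible apply pow') ?_)) (by repeat' first | with_reducible exact Primrec.const _ | with_reducible exact Primrec.id | with_reducible exact Primrec.fst | with_reducible exact Primrec.snd | with_reducible apply fst' | with_reducible apply snd' | with_reducible apply primrec_gV | with_reducible apply primrec_coef | with_reducible apply primrec_gT | with_reducible apply primrec_BB | with_reducible apply gminor' | with_reducible apply nsq' | with_reducible apply wt' | with_reducible apply deg0' | with_reducible apply add' | with_reducible apply mul' | with_reducible apply sub' | with_reducible apply pow')) (by repeat' first | with_reducible exact Primrec.const _ | with_reducible exact Primrec.id | with_reducible exact Primrec.fst | with_reducible exact Primrec.snd | with_reducible apply fst' | with_reducible apply snd' | with_reducible apply primrec_gV | with_reducible apply primrec_coef | with_reducible apply primrec_gT | with_reducible apply primrec_BB | with_reducible apply gminor' |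 with_reducible apply nsq' | with_reducible apply wt' | with_reducible apply deg0' | with_reducible apply add' | with_reducible apply mul' | with_reducible apply sub' | with_reducible apply pow')
    unfold Primrec₂
    repeat' first | with_reducible exact Primrec.const _ | with_reducible exact Primrec.id | with_reducible exact Primrec.fst | with_reducible exact Primrec.snd | with_reducible apply fst' | with_reducible apply snd' | with_reducible apply primrec_gV | with_reducible apply primrec_coef | with_reducible apply primrec_gT | with_reducible apply primrec_BB | with_reducible apply gminor' | with_reducible apply nsq' | with_reducible apply wt' | with_reducible apply deg0' | with_reducible apply add' | with_reducible apply mul' | with_reducible apply sub' | with_reducible apply pow'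
  · refine add' (mul' (mul' (mul' (by repeat' first | with_reducible exact Primrec.const _ | with_reducible exact Primrec.id | with_reducible exact Primrec.fst | with_reducible exact Primrec.snd | with_reducible apply fst' | with_reducible apply snd' | with_reducible apply primrec_gV | with_reducible apply primrec_coef | with_reducible apply primrec_gT | with_reducible apply primrec_BB | with_reducible apply gminor' | with_reducible apply nsq' | with_reducible apply wt' | with_reducible apply deg0' | with_reducible apply add' | with_reducible apply mul' | with_reducible apply sub' | with_reducible apply pow') (nsq' (primrec_evalG (by repeat' first | with_reducible exact Primrec.const _ | with_reducible exact Primrec.id | with_reducible exact Primrec.fst | with_reducible exact Primrec.snd | with_reducible apply fst' | with_reducible apply snd' | with_reducible apply primrec_gV | with_reducible apply primrec_coef | with_reducible apply primrec_gT | with_reducible apply primrec_BB | with_reducible apply gminor' | with_reducible apply nsq' | with_reducible apply wt' | with_reducible apply deg0' | with_reducible apply add' | with_reducible apply mul' | with_reducible apply sub' | with_reducible apply pow') (by repeat' first | with_reducible exact Primrec.const _ | with_reducible exact Primrec.id | with_reducible exact Primrec.fst | with_reducible exact Primrec.snd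 | with_reducible apply fst' | with_reducible apply snd' | with_reducible apply primrec_gV | with_reducible apply primrec_coef | with_reducible apply primrec_gT | with_reducible apply primrec_BB | with_reducible apply gminor' | with_reducible apply nsq' | with_reducible apply wt' | with_reducible apply deg0' | with_reducible apply add' | with_reducible apply mul' | with_reducible apply sub' | with_reducible apply pow') ?_)))
      (by repeat' first | with_reducible exact Primrec.const _ | with_reducible exact Primrec.id | with_reducible exact Primrec.fst | with_reducible exact Primrec.snd | with_reducible apply fst' | with_reducible apply snd' | with_reducible apply primrec_gV | with_reducible apply primrec_coef | with_reducible apply primrec_gT | with_reducible apply primrec_BB | with_reducible apply gminor' | with_reducible apply nsq' | with_reducible apply wt' | with_reducible apply deg0' | with_reducible apply add' | with_reducible apply mul' | with_reducible apply sub' | with_reducible apply pow')) (by repeat' first | with_reducible exact Primrec.const _ | with_reducible exact Primrec.id | with_reducible exact Primrec.fst | with_reducible exact Primrec.snd | with_reducible apply fst' | with_reducible apply snd' | with_reducible apply primrec_gV | with_reducible apply primrec_coef | with_reducible apply primrec_gT | with_reducible apply primrec_BB | with_reducible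 apply gminor' | with_reducible apply nsq' | with_reducible apply wt' | with_reducible apply deg0' | with_reducible apply add' | with_reducible apply mul' | with_reducible apply sub' | with_reducible apply pow')) (by repeat' first | with_reducible exact Primrec.const _ | with_reducible exact Primrec.id | with_reducible exact Primrec.fst | with_reducible exact Primrec.snd | with_reducible apply fst' | with_reducible apply snd' | with_reducible apply primrec_gV | with_reducible apply primrec_coef | with_reducible apply primrec_gT | with_reducible apply primrec_BB | with_reducible apply gminor' | with_reducible apply nsq' | with_reducible apply wt' | with_reducible apply deg0' | with_reducible apply add' | with_reducible apply mul' | with_reducible apply sub' | with_reducible apply pow')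
    unfold Primrec₂
    repeat' first | with_reducible exact Primrec.const _ | with_reducible exact Primrec.id | with_reducible exact Primrec.fst | with_reducible exact Primrec.snd | with_reducible apply fst' | with_reducible apply snd' | with_reducible apply primrec_gV | with_reducible apply primrec_coef | with_reducible apply primrec_gT | with_reducible apply primrec_BB | with_reducible apply gminor' | with_reducible apply nsq' | with_reducible apply wt' | with_reducible apply deg0' | with_reducible apply add' | with_reducible apply mul' | with_reducible apply sub' | with_reducible apply pow'

theorem primrec_Cond :
    PrimrecPred fun q : Input × ℕ × ℕ => Cond q.1.1 q.1.2.1 q.1.2.2 q.2.1 q.2.2 := by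
  exact primrec_condSize.and (primrec_condNz.and (primrec_condEqs.and (primrec_condCompat.and
    (primrec_condNonconst.and primrec_condAvoid))))

end Pool.Agent.Work.MP_90e0ad_ag
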