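import Mathlib
import Pool.Agent.Work.MP_90e0ad_ag.PrimCond

/-!
MP_90e0ad_ag, module PRIMMAIN.
primrec_valid: IsForm n P iff all monomials have exponent lists of length n+1 and sum equal to
deg0 P (sum of the first one). bd: powers. primrecRel_test: primrec_valid, bexLt, primrec_Cond.
re_of_primrecRel: Partrec.rfind (ComputablePred / REPred; domain of the search).
-/

namespace Pool.Agent.Work.MP_90e0ad_ag

private theorem isForm_iff (n : ℕ) (P : Form) :
    IsForm n P ↔ ∀ ce ∈ P, ce.2.length = n + 1 ∧ ce.2.sum = deg0 P := by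
  constructor
  · rintro ⟨d, hd⟩
    cases P with
    | nil => simp
    | cons c P =>
      have h0 : deg0 (c :: P) = d := (hd c (by simp)).2
      intro ce hce
      rw [h0]
      exact hd ce hce
  · intro h
    exact ⟨deg0 P, h⟩

theorem primrec_valid : PrimrecPred fun I : Input => ∀ P ∈ I.2.1 ++ I.2.2, IsForm I.1 P := by
  have h1 : PrimrecRel fun (x : Input × Form) (ce : ℤ × List ℕ) =>
      ce.2.length = x.1.1 + 1 ∧ ce.2.sum = deg0 x.2 :=
    PrimrecPred.and
      (Primrec.eq.comp (Primrec.list_length.comp (Primrec.snd.comp Primrec.snd))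
        (Primrec.nat_add.comp (Primrec.fst.comp (Primrec.fst.comp Primrec.fst))
          (Primrec.const 1)))
      (Primrec.eq.comp (primrec_listSum.comp (Primrec.snd.comp Primrec.snd))
        (primrec_deg0.comp (Primrec.snd.comp Primrec.fst)))
  have h2 : PrimrecPred fun x : Input × Form =>
      ∀ ce ∈ x.2, ce.2.length = x.1.1 + 1 ∧ ce.2.sum = deg0 x.2 :=
    ballMem Primrec.snd h1
  have h3 : PrimrecRel fun (I : Input) (P : Form) =>
      ∀ ce ∈ P, ce.2.length = I.1 + 1 ∧ ce.2.sum = deg0 P := h2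
  have h4 : Primrec fun I : Input => I.2.1 ++ I.2.2 :=
    Primrec.list_append.comp (Primrec.fst.comp Primrec.snd) (Primrec.snd.comp Primrec.snd)
  refine (ballMem h4 h3).of_eq fun I => ?_
  simp only [isForm_iff]

/-- code bound -/
def bd (n M : ℕ) : ℕ := base (M + n + 10) ^ ndig n (M + n + 10)

theorem primrec_bd : Primrec₂ bd := by
  have hN : Primrec fun p : ℕ × ℕ => p.2 + p.1 + 10 :=
    Primrec.nat_add.comp (Primrec.nat_add.comp Primrec.snd Primrec.fst) (Primrec.const 10)
  have hbase : Primrec fun p : ℕ × ℕ => base (p.2 + p.1 + 10) :=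
    Primrec.nat_add.comp (Primrec.nat_mul.comp (Primrec.const 2)
      (Primrec.nat_mul.comp (Primrec.const 3) (primrec_pow.comp (Primrec.const 4) hN)))
      (Primrec.const 1)
  have h2 : Primrec fun p : ℕ × ℕ => 2 * (p.2 + p.1 + 10) + 1 :=
    Primrec.nat_add.comp (Primrec.nat_mul.comp (Primrec.const 2) hN) (Primrec.const 1)
  have hdig : Primrec fun p : ℕ × ℕ => ndig p.1 (p.2 + p.1 + 10) :=
    Primrec.nat_mul.comp (Primrec.const 2)
      (Primrec.nat_mul.comp
        (Primrec.nat_mul.comp (Primrec.nat_mul.comp h2 h2)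
          (Primrec.nat_add.comp hN (Primrec.const 1)))
        (Primrec.nat_add.comp Primrec.fst (Primrec.const 1)))
  exact primrec_pow.comp hbase hdig

theorem primrecRel_test : PrimrecRel fun (I : Input) (M : ℕ) =>
    (∀ P ∈ I.2.1 ++ I.2.2, IsForm I.1 P) ∧
      ¬ ∃ m < bd I.1 M, Cond I.1 I.2.1 I.2.2 (M + I.1 + 10) m := by
  have h1 : PrimrecPred fun x : Input × ℕ => ∀ P ∈ x.1.2.1 ++ x.1.2.2, IsForm x.1.1 P :=
    primrec_valid.comp Primrec.fst
  have h2 : PrimrecRel fun (x : Input × ℕ) (m : ℕ) =>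
      Cond x.1.1 x.1.2.1 x.1.2.2 (x.2 + x.1.1 + 10) m := by
    have h3 : Primrec fun q : (Input × ℕ) × ℕ =>
        ((q.1.1, (q.1.2 + q.1.1.1 + 10, q.2)) : Input × ℕ × ℕ) :=
      Primrec.pair (Primrec.fst.comp Primrec.fst)
        (Primrec.pair
          (Primrec.nat_add.comp (Primrec.nat_add.comp (Primrec.snd.comp Primrec.fst)
            (Primrec.fst.comp (Primrec.fst.comp Primrec.fst))) (Primrec.const 10))
          Primrec.snd)
    exact PrimrecPred.comp primrec_Cond h3
  have h4 : Primrec fun x : Input × ℕ => bd x.1.1 x.2 :=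
    primrec_bd.comp (Primrec.fst.comp Primrec.fst) Primrec.snd
  exact h1.and (bexLt h4 h2).not

theorem re_of_primrecRel {α : Type} [Primcodable α] {p : α → ℕ → Prop} (hp : PrimrecRel p) :
    REPred fun a => ∃ M, p a M := by
  classical
  have h : Primrec₂ fun (a : α) (n : ℕ) => decide (p a n) := hp.decide
  have h1 : Partrec fun a : α => Nat.rfind fun n => Part.some (decide (p a n)) :=
    Partrec.rfind h.to_comp.partrec
  refine h1.dom_re.of_eq fun a => ?_
  rw [Nat.rfind_dom]
  simp

end Pool.Agent.Work.MP_90e0ad_ag
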