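import Mathlib
import Pool.Agent.Work.MP_90e0ad_ag.PrimMain
import Pool.Agent.Work.MP_90e0ad_ag.Curve
import Pool.Agent.Work.MP_90e0ad_ag.Charts
import Pool.Agent.Work.MP_90e0ad_ag.ApproxOf
import Pool.Agent.Work.MP_90e0ad_ag.Code

/-!
MP_90e0ad_ag, assembly.
-/

namespace Pool.Agent.Work.MP_90e0ad_ag

/-- hyperbolicity of all strata means that there is no bad curve -/
theorem allHyp_iff (I : Input) :
    AllHyp I ↔ (∀ P ∈ I.2.1 ++ I.2.2, IsForm I.1 P) ∧ ¬ ∃ f, Bad I.1 I.2.1 I.2.2 f := by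
  constructor
  · rintro ⟨h1, h2⟩
    refine ⟨h1, ?_⟩
    rintro ⟨f, hf, hY, hS, z, w, hzw⟩
    apply hzw
    refine h2 {G | ∀ z, VanishAt I.1 G (f z)} f hf (fun z => ⟨hY z, fun G hG => ?_⟩) z w
    constructor
    · intro hv
      rcases hS G hG with h | h
      · exact h
      · exact absurd hv (h z)
    · intro h
      exact h z
  · rintro ⟨h1, h2⟩
    refine ⟨h1, fun T f hf hX z w => ?_⟩
    by_contra hne
    apply h2
    refine ⟨f, hf, fun z => (hX z).1, fun G hG => ?_, z, w, hne⟩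
    by_cases hT : G ∈ T
    · exact Or.inl fun z => ((hX z).2 G hG).2 hT
    · exact Or.inr fun z hz => hT (((hX z).2 G hG).1 hz)

theorem bad_iff (n : ℕ) (L Gs : List Form) (hL : ∀ P ∈ L, IsForm n P)
    (hG : ∀ G ∈ Gs, IsForm n G) :
    (∃ f, Bad n L Gs f) ↔ ∀ M : ℕ, ∃ m < base (M + n + 10) ^ ndig n (M + n + 10),
      Cond n L Gs (M + n + 10) m := by
  constructor
  · rintro ⟨f, hf⟩ M
    obtain ⟨P, hP⟩ := exists_charts n L Gs hL hG f hf (M + n + 10)
    obtain ⟨C, hC, hA⟩ := approx_of_charts n L Gs (M + n + 10) (by omega) P hP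
    obtain ⟨m, hm, hmC⟩ := exists_code n (M + n + 10) C hC
    refine ⟨m, hm, (cond_iff_approx n L Gs _ m (by omega) hL hG).2 ?_⟩
    exact approx_congr n L Gs _ (by omega) _ _ (fun a b ha hb k hk j => (hmC a b ha hb k hk j).symm)
      hA
  · intro h
    obtain ⟨c, hc⟩ := exists_lim n L Gs fun M => by
      obtain ⟨m, _, hm⟩ := h M
      exact ⟨_, (cond_iff_approx n L Gs _ m (by omega) hL hG).1 hm⟩
    exact exists_bad n L Gs c hL hG hc

theorem allHyp_iff' (I : Input) :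
    AllHyp I ↔ ∃ M : ℕ, (∀ P ∈ I.2.1 ++ I.2.2, IsForm I.1 P) ∧
      ¬ ∃ m < bd I.1 M, Cond I.1 I.2.1 I.2.2 (M + I.1 + 10) m := by
  rw [allHyp_iff]
  constructor
  · rintro ⟨h1, h2⟩
    rw [bad_iff _ _ _ (fun P hP => h1 P (List.mem_append_left _ hP))
      (fun P hP => h1 P (List.mem_append_right _ hP))] at h2
    push Not at h2
    obtain ⟨M, hM⟩ := h2
    refine ⟨M, h1, ?_⟩
    rintro ⟨m, hm, hc⟩
    exact hM m hm hc
  · rintro ⟨M, h1, h2⟩
    refine ⟨h1, ?_⟩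
    rw [bad_iff _ _ _ (fun P hP => h1 P (List.mem_append_left _ hP))
      (fun P hP => h1 P (List.mem_append_right _ hP))]
    intro h
    exact h2 (h M)

theorem allHyp_re : REPred AllHyp :=
  (re_of_primrecRel primrecRel_test).of_eq fun I => (allHyp_iff' I).symm

end Pool.Agent.Work.MP_90e0ad_ag
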